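import Mathlib

/-! The sums `∑_{j < n} C(s(j), i)`, `s` the binary digit sum, and their superadditivity. -/

namespace CubZ

open Finset

/-- binary digit sum -/
def ds (n : ℕ) : ℕ := (Nat.digits 2 n).sum

/-- `R (i+1) n = ∑_{j < n} C(s(j), i)`, `R 0 n = 0`. -/
def R : ℕ → ℕ → ℕ
  | 0, _ => 0
  | i + 1, n => ∑ j ∈ range n, (ds j).choose i

lemma ds_two_mul (n : ℕ) : ds (2 * n) = ds n := by
  rcases Nat.eq_zero_or_pos n with rfl | h
  · simp
  · rw [ds, Nat.digits_def' (by norm_num) (by omega)]
    simp [ds]

lemma ds_two_mul_add_one (n : ℕ) : ds (2 * n + 1) = ds n + 1 := by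
  rw [ds, Nat.digits_def' (by norm_num) (by omega)]
  have h1 : (2 * n + 1) % 2 = 1 := by omega
  have h2 : (2 * n + 1) / 2 = n := by omega
  rw [h1, h2]; simp [ds]; ring

lemma R_zero_right (i : ℕ) : R i 0 = 0 := by cases i <;> simp [R]

lemma R_one (n : ℕ) : R 1 n = n := by simp [R]

lemma R_succ (i n : ℕ) : R (i + 1) (n + 1) = R (i + 1) n + (ds n).choose i := by
  simp [R, sum_range_succ]

lemma R_mono (i : ℕ) : Monotone (R i) := by
  apply monotone_nat_of_le_succ
  intro n
  cases i with
  | zero => simp [R]
  | succ i => rw [R_succ]; omega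

lemma R_even (i n : ℕ) : R (i + 1) (2 * n) = 2 * R (i + 1) n + R i n := by
  induction n with
  | zero => simp [R_zero_right]
  | succ n ih =>
    have e1 : 2 * (n + 1) = 2 * n + 1 + 1 := by ring
    rw [e1, R_succ, R_succ, ih, R_succ, ds_two_mul, ds_two_mul_add_one]
    cases i with
    | zero => simp [R]; ring
    | succ i => rw [R_succ, Nat.choose_succ_succ]; ring

lemma R_odd (i n : ℕ) : R (i + 1) (2 * n + 1) = R (i + 1) n + R (i + 1) (n + 1) + R i n := by
  rw [R_succ, R_even, R_succ, ds_two_mul]; ring

/-- The key inequality. -/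
theorem R_add (a b : ℕ) (hab : b ≤ a) (i : ℕ) :
    R (i + 1) a + R (i + 1) b + R i b ≤ R (i + 1) (a + b) := by
  induction hn : a + b using Nat.strong_induction_on generalizing a b i with
  | _ n ih =>
    subst hn
    rcases Nat.eq_zero_or_pos b with rfl | hb
    · simp [R_zero_right]
    -- the induction hypothesis in the form needed
    have ih2 : ∀ p q, q ≤ p → p + q < a + b → ∀ j, R (j + 1) p + R (j + 1) q + R j q ≤
        R (j + 1) (p + q) := fun p q h1 h2 j => ih (p + q) h2 p q h1 j rfl
    have ih3 : ∀ p q, q ≤ p → p + q < a + b → R i p + R i q + (R i (2 * q) - 2 * R i q) ≤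
        R i (p + q) := by
      intro p q h1 h2
      cases i with
      | zero => simp [R]
      | succ i =>
        have := ih2 p q h1 h2 i
        rw [R_even]; omega
    have hev : ∀ q, 2 * R i q ≤ R i (2 * q) := by
      intro q; cases i with
      | zero => simp [R]
      | succ i => rw [R_even]; omega
    have hod : ∀ q, R i (2 * q + 1) = R i q + R i (q + 1) + (R i (2 * q) - 2 * R i q) := by
      intro q; cases i with
      | zero => simp [R]
      | succ i => rw [R_odd, R_even]; omega
    obtain ⟨p, rfl | rfl⟩ : ∃ p, a = 2 * p ∨ a = 2 * p + 1 := ⟨a / 2, by omega⟩ <;>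
    obtain ⟨q, rfl | rfl⟩ : ∃ q, b = 2 * q ∨ b = 2 * q + 1 := ⟨b / 2, by omega⟩
    · have h1 := ih2 p q (by omega) (by omega) i
      have h2 := ih3 p q (by omega) (by omega)
      have h3 := hev q
      rw [← Nat.mul_add, R_even, R_even, R_even]
      omega
    · have h1 := ih2 p q (by omega) (by omega) i
      have h2 := ih3 p q (by omega) (by omega)
      have h3 := hev q
      have h4 := ih2 p (q + 1) (by omega) (by omega) i
      have e : 2 * p + (2 * q + 1) = 2 * (p + q) + 1 := by ring
      rw [e, R_odd, R_even, R_odd, hod]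
      have e' : p + (q + 1) = p + q + 1 := by ring
      rw [e'] at h4
      omega
    · have h1 := ih2 p q (by omega) (by omega) i
      have h2 := ih3 p q (by omega) (by omega)
      have h3 := hev q
      have h4 := ih2 (p + 1) q (by omega) (by omega) i
      have e : 2 * p + 1 + 2 * q = 2 * (p + q) + 1 := by ring
      rw [e, R_odd, R_even, R_odd]
      have e' : p + 1 + q = p + q + 1 := by ring
      rw [e'] at h4
      omega
    · have h3 := hev q
      have h4 := ih2 (p + 1) q (by omega) (by omega) i
      have e : 2 * p + 1 + (2 * q + 1) = 2 * (p + q + 1) := by ring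
      rcases Nat.lt_or_ge q p with hqp | hqp
      · have h2 := ih3 p q (by omega) (by omega)
        have h5 := ih2 p (q + 1) (by omega) (by omega) i
        have h6 := R_mono i (show p + q ≤ p + q + 1 by omega)
        rw [e, R_even, R_odd, R_odd, hod]
        have e' : p + 1 + q = p + q + 1 := by ring
        rw [e'] at h4
        have e'' : p + (q + 1) = p + q + 1 := by ring
        rw [e''] at h5
        omega
      · have hpq : p = q := by omega
        subst hpq
        have e3 : p + p + 1 = 2 * p + 1 := by ring
        rw [e, R_even, e3, R_odd, hod]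
        omega

/-- The value at powers of two. -/
theorem R_two_pow (i m : ℕ) : R (i + 1) (2 ^ m) = m.choose i * 2 ^ (m - i) := by
  induction m generalizing i with
  | zero =>
    cases i with
    | zero => simp [R_one]
    | succ i => simp [R, ds]
  | succ m ih =>
    rw [pow_succ', R_even, ih]
    cases i with
    | zero => simp [R, pow_succ']
    | succ i =>
      rw [ih, Nat.choose_succ_succ]
      rcases Nat.lt_or_ge i m with h | h
      · obtain ⟨t, rfl⟩ : ∃ t, m = i + 1 + t := ⟨m - (i + 1), by omega⟩
        have e1 : i + 1 + t - (i + 1) = t := by omega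
        have e2 : i + 1 + t - i = t + 1 := by omega
        have e3 : i + 1 + t + 1 - (i + 1) = t + 1 := by omega
        rw [e1, e2, e3, pow_succ]; ring
      · rw [Nat.choose_eq_zero_of_lt (show m < i + 1 by omega)]
        have e1 : m + 1 - (i + 1) = m - i := by omega
        rw [e1]; ring

end CubZ
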