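import Pool.Agent.W_f620_h46.Global

/-! Consequences of the relations. -/

namespace CubZ

open Finset

variable {d : ℕ} {V : Finset (Pt d)}

lemma card_T_zero (hd : 1 ≤ d) (hV : IsPolytope V) : (T V V 0).card = V.card := by
  classical
  refine le_antisymm (T_zero V) ?_
  have h : V.image (fun x => ({x} : Finset (Pt d))) ⊆ T V V 0 := by
    intro F hF
    obtain ⟨x, hx, rfl⟩ := mem_image.1 hF
    rw [mem_T]
    exact ⟨by simpa using hx, hV.1 x hx, single_ne hd hV x, by simp⟩
  refine le_trans (le_of_eq ?_) (card_le_card h)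
  rw [card_image_of_injective _ (fun a b h => singleton_injective h)]

/-- Dimension four. -/
theorem dim_four {V : Finset (Pt 4)} (hV : IsPolytope V) (hC : Cubical V) :
    2 * (T V V 3).card + V.card = (T V V 1).card ∧ (T V V 2).card = 3 * (T V V 3).card := by
  obtain ⟨H, hA, hB, -⟩ := relations (by norm_num) hV hC
  have h0 := card_T_zero (by norm_num) hV
  have a0 := hA 0 (by norm_num)
  have a1 := hA 1 (by norm_num)
  have a2 := hA 2 (by norm_num)
  have a3 := hA 3 (by norm_num)
  have b0 := hB 0 (by norm_num)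
  have b1 := hB 1 (by norm_num)
  norm_num [sum_range_succ, Nat.choose] at a0 a1 a2 a3 b0 b1
  omega

/-- Dimension five. -/
theorem dim_five {V : Finset (Pt 5)} (hV : IsPolytope V) (hC : Cubical V) :
    2 * (T V V 4).card + 2 * V.card = (T V V 1).card + 4 ∧
    (T V V 3).card + 4 * V.card = 2 * (T V V 1).card + 8 ∧
    2 * (T V V 2).card + 8 * V.card = 5 * (T V V 1).card + 16 := by
  obtain ⟨H, hA, hB, hE⟩ := relations (by norm_num) hV hC
  have h0 := card_T_zero (by norm_num) hV
  have a0 := hA 0 (by norm_num)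
  have a1 := hA 1 (by norm_num)
  have a2 := hA 2 (by norm_num)
  have a3 := hA 3 (by norm_num)
  have a4 := hA 4 (by norm_num)
  have b0 := hB 0 (by norm_num)
  have b1 := hB 1 (by norm_num)
  norm_num [sum_range_succ, Nat.choose] at a0 a1 a2 a3 a4 b0 b1 hE
  omega

/-- The total number of proper faces. -/
theorem total (hd : 3 ≤ d) (hV : IsPolytope V) (hC : Cubical V) (a : ℕ)
    (hb : ∀ i, 2 ^ i * (T V V i).card ≤ V.card * a.choose i) :
    ∑ k ∈ range d, (T V V k).card ≤ 4 ^ d * V.card * a ^ (d / 2 - 1) := by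
  obtain ⟨H, hA, hB, hE⟩ := relations (by omega) hV hC
  have h0 := card_T_zero (by omega) hV
  set n := V.card with hn
  set q := d / 2 - 1 with hq
  have hmem : ∀ i, i ∈ range d ↔ i ≤ d - 1 := fun i => by rw [mem_range]; omega
  -- `n ≥ 1`
  have hn1 : 1 ≤ n := by
    obtain ⟨x, hx, -⟩ := exists_other (by omega) hV 0
    exact card_pos.2 ⟨x, hx⟩
  -- `H 0 = n`
  have hH0 : n ≤ H 0 := by
    have h1 := hA 0 (Nat.zero_le _)
    rw [pow_zero, one_mul, h0] at h1
    rw [h1]
    have : ∀ i ∈ range d, i ≠ 0 → (d - 1 - i).choose (d - 1 - 0) * H i = 0 := by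
      intro i hi hi0
      rw [hmem] at hi
      rw [Nat.choose_eq_zero_of_lt (by omega), zero_mul]
    rw [sum_eq_single 0 this (fun h => absurd ((hmem 0).2 (Nat.zero_le _)) h)]
    simp
  -- `a ≥ 1`
  have ha : 1 ≤ a := by
    by_contra hcon
    have ha0 : a = 0 := by omega
    have h1 := hb 1
    rw [ha0] at h1
    norm_num at h1
    have h2 := hA 1 (by omega)
    rw [h1] at h2
    have h3 : (d - 1 - 0).choose (d - 1 - 1) * H 0 = 0 := by
      have := (sum_eq_zero_iff.1 h2.symm) 0 ((hmem 0).2 (Nat.zero_le _))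
      exact this
    have h4 : 0 < (d - 1 - 0).choose (d - 1 - 1) := Nat.choose_pos (by omega)
    have h5 : H 0 = 0 := by
      rcases Nat.mul_eq_zero.1 h3 with h | h
      · omega
      · exact h
    omega
  set M := n * a ^ q with hM
  have hM1 : 1 ≤ M := Nat.mul_pos hn1 (Nat.pow_pos ha)
  have hsmall : ∀ j, j ≤ q → 2 ^ j * (T V V j).card ≤ M := by
    intro j hj
    refine (hb j).trans (Nat.mul_le_mul_left _ ?_)
    exact (Nat.choose_le_pow _ _).trans (Nat.pow_le_pow_right ha hj)
  have hHi : ∀ i ≤ d - 1, H i ≤ 2 ^ i * (T V V i).card := by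
    intro i hi
    rw [hA i hi]
    refine le_trans ?_ (single_le_sum (f := fun j => (d - 1 - j).choose (d - 1 - i) * H j)
      (fun j _ => Nat.zero_le _) ((hmem i).2 hi))
    simp
  have hHi' : ∀ i ≤ d - 1, H i ≤ 2 ^ (d - 1 - i) * (T V V (d - 1 - i)).card := by
    intro i hi
    rw [hB (d - 1 - i) (Nat.sub_le _ _)]
    refine le_trans ?_ (single_le_sum (f := fun j => j.choose (d - 1 - (d - 1 - i)) * H j)
      (fun j _ => Nat.zero_le _) ((hmem i).2 hi))
    have : d - 1 - (d - 1 - i) = i := by omega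
    show H i ≤ i.choose (d - 1 - (d - 1 - i)) * H i
    rw [this]; simp
  -- all but the middle one
  have hside : ∀ i ≤ d - 1, 2 * i ≠ d - 1 → H i ≤ M := by
    intro i hi hmid
    by_cases h : i ≤ q
    · exact (hHi i hi).trans (hsmall i h)
    · exact (hHi' i hi).trans (hsmall _ (by omega))
  -- the sum of all
  have hall : ∑ i ∈ range d, H i ≤ (2 * d + 2 ^ d) * M := by
    by_cases hpar : ∃ r, 2 * r = d - 1
    · obtain ⟨r, hr⟩ := hpar
      have hrm : r ∈ range d := (hmem r).2 (by omega)
      have h1 : ∑ i ∈ (range d).erase r, H i ≤ d * M := by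
        refine (sum_le_card_nsmul _ _ M (fun i hi => ?_)).trans ?_
        · rw [mem_erase, hmem] at hi
          exact hside i hi.2 (by omega)
        · rw [smul_eq_mul]
          refine Nat.mul_le_mul_right _ ?_
          exact (card_erase_le).trans (by simp)
      have h2 : (H r : ℤ) ≤ 2 ^ d + ∑ i ∈ (range d).erase r, (H i : ℤ) := by
        rw [← add_sum_erase _ _ hrm] at hE
        have h3 : ((-1 : ℤ) ^ r) * ((-1) ^ r) = 1 := by rw [← mul_pow]; norm_num
        have h4 : (1 + (-1 : ℤ) ^ (d - 1)) = 2 := by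
          rw [← hr, pow_mul]; norm_num
        rw [h4] at hE
        have h5 : (H r : ℤ) = (-1) ^ r * (2 ^ (d - 1) * 2) -
            (-1) ^ r * ∑ i ∈ (range d).erase r, (-1 : ℤ) ^ i * H i := by
          linear_combination (-1 : ℤ) ^ r * hE - (H r : ℤ) * h3
        have h6 : (2 : ℤ) ^ (d - 1) * 2 = 2 ^ d := by
          rw [← pow_succ]; congr 1; omega
        rw [h5, h6]
        have h7 : (-1 : ℤ) ^ r * 2 ^ d ≤ 2 ^ d := by
          rcases neg_one_pow_eq_or ℤ r with h | h
          · rw [h]; simp
          · rw [h]; have : (0 : ℤ) ≤ 2 ^ d := by positivity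
            linarith
        have h8 : -((-1 : ℤ) ^ r * ∑ i ∈ (range d).erase r, (-1 : ℤ) ^ i * H i) ≤
            ∑ i ∈ (range d).erase r, (H i : ℤ) := by
          rw [mul_sum, ← sum_neg_distrib]
          refine sum_le_sum (fun i _ => ?_)
          have hHn : (0 : ℤ) ≤ H i := Int.natCast_nonneg _
          rcases neg_one_pow_eq_or ℤ r with h | h <;> rcases neg_one_pow_eq_or ℤ i with h' | h' <;>
            rw [h, h'] <;> linarith
        linarith
      have h2' : H r ≤ 2 ^ d + ∑ i ∈ (range d).erase r, H i := by exact_mod_cast h2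
      rw [← add_sum_erase _ _ hrm]
      have h9 : 2 ^ d ≤ 2 ^ d * M := Nat.le_mul_of_pos_right _ hM1
      have h10 : (2 * d + 2 ^ d) * M = 2 * (d * M) + 2 ^ d * M := by ring
      rw [h10]
      omega
    · refine (sum_le_card_nsmul _ _ M (fun i hi => ?_)).trans ?_
      · rw [hmem] at hi
        exact hside i hi (fun h => hpar ⟨i, h⟩)
      · rw [card_range, smul_eq_mul]
        exact Nat.mul_le_mul_right _ (le_trans (by omega : d ≤ 2 * d) (Nat.le_add_right _ _))
  -- the faces
  have hfin : ∑ k ∈ range d, (T V V k).card ≤ 2 ^ (d - 1) * ∑ i ∈ range d, H i := by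
    calc ∑ k ∈ range d, (T V V k).card
        ≤ ∑ k ∈ range d, 2 ^ k * (T V V k).card :=
          sum_le_sum (fun k _ => Nat.le_mul_of_pos_left _ (by positivity))
      _ = ∑ k ∈ range d, ∑ i ∈ range d, (d - 1 - i).choose (d - 1 - k) * H i :=
          sum_congr rfl (fun k hk => hA k ((hmem k).1 hk))
      _ = ∑ i ∈ range d, (∑ k ∈ range d, (d - 1 - i).choose (d - 1 - k)) * H i := by
          rw [sum_comm]; exact sum_congr rfl (fun i _ => by rw [sum_mul])
      _ ≤ ∑ i ∈ range d, 2 ^ (d - 1) * H i := by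
          refine sum_le_sum (fun i hi => Nat.mul_le_mul_right _ ?_)
          rw [hmem] at hi
          have h1 : ∑ k ∈ range d, (d - 1 - i).choose (d - 1 - k) =
              ∑ k ∈ range d, (d - 1 - i).choose k := by
            rw [← sum_range_reflect]
            refine sum_congr rfl (fun k hk => ?_)
            congr 1
            rw [hmem] at hk; omega
          rw [h1]
          have h2 : ∑ k ∈ range d, (d - 1 - i).choose k =
              ∑ k ∈ range (d - 1 - i + 1), (d - 1 - i).choose k := by
            symm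
            refine sum_subset (range_subset_range.2 (by omega)) (fun k _ hk => ?_)
            rw [Nat.choose_eq_zero_of_lt (by simpa using hk)]
          rw [h2, Nat.sum_range_choose]
          exact Nat.pow_le_pow_right (by norm_num) (by omega)
      _ = 2 ^ (d - 1) * ∑ i ∈ range d, H i := by rw [mul_sum]
  refine hfin.trans ((Nat.mul_le_mul_left _ hall).trans ?_)
  have h11 : 2 * d ≤ 2 ^ d := by
    have : ∀ t : ℕ, 2 * (t + 3) ≤ 2 ^ (t + 3) := by
      intro t
      induction t with
      | zero => norm_num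
      | succ t ih =>
        rw [show t + 1 + 3 = (t + 3) + 1 by ring, pow_succ]
        omega
    have := this (d - 3)
    rw [show d - 3 + 3 = d by omega] at this
    exact this
  calc 2 ^ (d - 1) * ((2 * d + 2 ^ d) * M) ≤ 2 ^ (d - 1) * ((2 ^ d + 2 ^ d) * M) := by gcongr
    _ = (2 ^ (d - 1) * 2) * 2 ^ d * M := by ring
    _ = 4 ^ d * n * a ^ q := by
        rw [← pow_succ, show d - 1 + 1 = d by omega, hM, show (4 : ℕ) = 2 * 2 by norm_num,
          mul_pow]
        ring

end CubZ
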