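import Pool.Agent.W_f620_h46.Arith

/-! The weights for general zone multiplicity. -/

namespace CubZ

open Finset Polynomial

/-- `2 ((1 + X)^μ - 1)` -/
noncomputable def Y (μ : ℕ) : ℕ[X] := ∑ t ∈ range μ, monomial (t + 1) (2 * μ.choose (t + 1))

lemma Y_coeff (μ t : ℕ) : (Y μ).coeff t = if t = 0 then 0 else 2 * μ.choose t := by
  rw [Y, finsetSum_coeff]
  simp only [coeff_monomial]
  rcases Nat.eq_zero_or_pos t with rfl | ht
  · simp
  · obtain ⟨t, rfl⟩ : ∃ s, t = s + 1 := ⟨t - 1, by omega⟩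
    simp only [Nat.add_right_cancel_iff, Finset.sum_ite_eq', Finset.mem_range]
    by_cases h : t < μ
    · simp [h]
    · rw [if_neg h, Nat.choose_eq_zero_of_lt (by omega)]; simp

/-- the coefficient of `X^i` in `(2 (1 + X)^μ - 1)^s` -/
noncomputable def P (μ s i : ℕ) : ℕ := ((1 + Y μ) ^ s).coeff i

/-- its sum over digit sums -/
noncomputable def Φ (μ i n : ℕ) : ℕ := ∑ j ∈ range n, P μ (ds j) i

lemma P_succ (μ s i : ℕ) : P μ (s + 1) i =
    P μ s i + ∑ q ∈ antidiagonal i, (Y μ).coeff q.2 * P μ s q.1 := by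
  rw [P, pow_succ, mul_add, mul_one, coeff_add, coeff_mul, P]
  congr 1
  exact sum_congr rfl (fun q _ => by rw [P, mul_comm])

lemma P_zero_right (μ s : ℕ) : P μ s 0 = 1 := by
  induction s with
  | zero => simp [P]
  | succ s ih => rw [P_succ, ih]; simp [Y_coeff]

lemma P_eq (μ s i K : ℕ) (h : s < K) :
    P μ s i = ∑ k ∈ range K, ((Y μ) ^ k).coeff i * s.choose k := by
  have h1 : P μ s i = ∑ k ∈ range (s + 1), ((Y μ) ^ k).coeff i * s.choose k := by
    rw [P, add_comm, add_pow, finsetSum_coeff]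
    refine sum_congr rfl (fun k _ => ?_)
    rw [one_pow, mul_one, ← C_eq_natCast, coeff_mul_C]; simp
  rw [h1]
  refine sum_subset (range_subset_range.2 (by omega)) (fun k _ hk => ?_)
  rw [Nat.choose_eq_zero_of_lt (by simpa using hk), mul_zero]

lemma choose_add (a b : ℕ) (hab : b ≤ a) (k : ℕ) :
    ∑ j ∈ range a, (ds j).choose k + ∑ j ∈ range b, (ds j + 1).choose k ≤
      ∑ j ∈ range (a + b), (ds j).choose k := by
  have h := R_add a b hab k
  cases k with
  | zero => simp [R]
  | succ k =>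
    have : ∑ j ∈ range b, (ds j + 1).choose (k + 1) = R (k + 1) b + R (k + 2) b := by
      simp only [R, Nat.choose_succ_succ, sum_add_distrib]
    rw [this]
    simp only [R] at h ⊢
    omega

lemma Φ_zero (μ n : ℕ) : Φ μ 0 n = n := by simp [Φ, P_zero_right]

lemma Φ_shift (μ i b : ℕ) : ∑ j ∈ range b, P μ (ds j + 1) i =
    Φ μ i b + ∑ q ∈ antidiagonal i, (Y μ).coeff q.2 * Φ μ q.1 b := by
  simp only [P_succ, sum_add_distrib, Φ]
  congr 1
  rw [sum_comm]
  exact sum_congr rfl (fun q _ => by rw [mul_sum])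

theorem Φ_add (μ i a b : ℕ) (hab : b ≤ a) : Φ μ i a + Φ μ i b +
    ∑ q ∈ antidiagonal i, (Y μ).coeff q.2 * Φ μ q.1 b ≤ Φ μ i (a + b) := by
  rw [add_assoc, ← Φ_shift]
  have hds : ∀ j, ds j ≤ j := fun j => Nat.digit_sum_le 2 j
  set K := a + b + 2 with hK
  have e1 : ∀ n, n ≤ a + b → Φ μ i n =
      ∑ k ∈ range K, ((Y μ) ^ k).coeff i * ∑ j ∈ range n, (ds j).choose k := by
    intro n hn
    rw [Φ]
    simp only [mul_sum]
    rw [sum_comm]
    refine sum_congr rfl (fun j hj => ?_)
    rw [P_eq μ (ds j) i K]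
    have := hds j; have := mem_range.1 hj; omega
  have e2 : ∑ j ∈ range b, P μ (ds j + 1) i =
      ∑ k ∈ range K, ((Y μ) ^ k).coeff i * ∑ j ∈ range b, (ds j + 1).choose k := by
    simp only [mul_sum]
    rw [sum_comm]
    refine sum_congr rfl (fun j hj => ?_)
    rw [P_eq μ (ds j + 1) i K]
    have := hds j; have := mem_range.1 hj; omega
  rw [e1 a (by omega), e1 (a + b) le_rfl, e2, ← sum_add_distrib]
  refine sum_le_sum (fun k _ => ?_)
  rw [← mul_add]
  exact Nat.mul_le_mul_left _ (choose_add a b hab k)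

lemma sumY (μ i : ℕ) (f : ℕ → ℕ) : 2 * f i + ∑ q ∈ antidiagonal i, (Y μ).coeff q.2 * f q.1 =
    2 * ∑ q ∈ antidiagonal i, μ.choose q.2 * f q.1 := by
  have h : 2 * f i = ∑ q ∈ antidiagonal i, (if q.2 = 0 then 2 * f q.1 else 0) := by
    rw [sum_eq_single (i, 0)]
    · simp
    · rintro ⟨u, t⟩ hq hne
      rw [HasAntidiagonal.mem_antidiagonal] at hq
      rw [if_neg]
      rintro h
      apply hne
      simp only at hq h
      subst h; simp at hq; rw [hq]
    · intro h; simp at h
  rw [h, ← sum_add_distrib, mul_sum]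
  refine sum_congr rfl (fun q _ => ?_)
  rw [Y_coeff]
  by_cases hq : q.2 = 0
  · simp [hq]
  · simp [hq]; ring

theorem Φ_le (μ m n : ℕ) (hn : n ≤ 2 ^ m) (i : ℕ) : Φ μ i n ≤ n * (μ * m).choose i := by
  induction m generalizing n i with
  | zero =>
    have : n = 0 ∨ n = 1 := by rw [pow_zero] at hn; omega
    rcases this with rfl | rfl
    · simp [Φ]
    · simp only [Φ, sum_range_one, mul_zero, one_mul]
      have : ds 0 = 0 := by simp [ds]
      rw [this, P, pow_zero]
      rcases Nat.eq_zero_or_pos i with rfl | hi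
      · simp
      · rw [coeff_one, if_neg (by omega)]; omega
  | succ m ih =>
    have hV : ∀ k : ℕ, 2 * (k * (μ * m).choose i) +
        ∑ q ∈ antidiagonal i, (Y μ).coeff q.2 * (k * (μ * m).choose q.1) =
        2 * k * (μ * (m + 1)).choose i := by
      intro k
      rw [sumY μ i (fun u => k * (μ * m).choose u), Nat.mul_succ, Nat.add_choose_eq, mul_assoc]
      congr 1
      rw [mul_sum]
      exact sum_congr rfl (fun q _ => by ring)
    have hmono : (μ * m).choose i ≤ (μ * (m + 1)).choose i :=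
      Nat.choose_le_choose i (Nat.mul_le_mul_left _ (by omega))
    have hsum : ∀ k, k ≤ 2 ^ m → ∑ q ∈ antidiagonal i, (Y μ).coeff q.2 * Φ μ q.1 k ≤
        ∑ q ∈ antidiagonal i, (Y μ).coeff q.2 * (k * (μ * m).choose q.1) := fun k hk =>
      sum_le_sum (fun q _ => Nat.mul_le_mul_left _ (ih k hk q.1))
    have heven : ∀ k, Φ μ i (2 * k) = Φ μ i k + ∑ j ∈ range k, P μ (ds j + 1) i := by
      intro k
      induction k with
      | zero => simp [Φ]
      | succ k ihk =>
        have e1 : 2 * (k + 1) = 2 * k + 1 + 1 := by ring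
        rw [e1]
        simp only [Φ] at ihk ⊢
        rw [sum_range_succ, sum_range_succ, ihk, sum_range_succ, sum_range_succ,
          ds_two_mul, ds_two_mul_add_one]
        ring
    obtain ⟨k, rfl | rfl⟩ : ∃ k, n = 2 * k ∨ n = 2 * k + 1 := ⟨n / 2, by omega⟩
    · rw [heven, Φ_shift]
      have hk : k ≤ 2 ^ m := by rw [pow_succ] at hn; omega
      have h1 := ih k hk i
      have h2 := hsum k hk
      have h3 := hV k
      omega
    · have hk : k + 1 ≤ 2 ^ m := by rw [pow_succ] at hn; omega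
      have h1 := ih k (by omega) i
      have h1' := ih (k + 1) hk i
      have h2 := hsum k (by omega)
      have h3 := hV k
      have e1 : Φ μ i (2 * k + 1) + Φ μ i k = Φ μ i (2 * k) + Φ μ i (k + 1) := by
        simp only [Φ]
        rw [sum_range_succ, sum_range_succ, ds_two_mul]; ring
      rw [heven, Φ_shift] at e1
      have e2 : (2 * k + 1) * (μ * (m + 1)).choose i =
        2 * k * (μ * (m + 1)).choose i + (μ * (m + 1)).choose i := by ring
      have e3 : (k + 1) * (μ * m).choose i = k * (μ * m).choose i + (μ * m).choose i := by ring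
      rw [e2]
      rw [e3] at h1'
      omega

/-- The polynomial `2 (1 + X)^μ - 1`. -/
lemma P_int (μ s i : ℕ) : (P μ s i : ℤ) = ((2 * (1 + X) ^ μ - 1 : ℤ[X]) ^ s).coeff i := by
  have h : (1 + Y μ).map (Nat.castRingHom ℤ) = (2 * (1 + X) ^ μ - 1 : ℤ[X]) := by
    ext t
    rw [coeff_map, coeff_add, Y_coeff, coeff_one, coeff_sub, coeff_one]
    rw [show (2 * (1 + X) ^ μ : ℤ[X]) = C 2 * (1 + X) ^ μ by rw [map_ofNat], coeff_C_mul,
      coeff_one_add_X_pow]
    by_cases ht : t = 0
    · subst ht; simp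
    · simp [ht]
  rw [← h, ← Polynomial.map_pow, coeff_map, P]
  simp

lemma P_one (s i : ℕ) : P 1 s i = 2 ^ i * s.choose i := by
  have hY : Y 1 = monomial 1 2 := by simp [Y]
  rw [P_eq 1 s i (s + i + 1) (by omega), hY]
  simp only [monomial_pow, one_mul, coeff_monomial]
  rw [sum_eq_single i]
  · simp
  · intro k _ hk; simp [hk]
  · intro h; simp at h

/-- The case `μ = 1`. -/
lemma Φ_one (i n : ℕ) : Φ 1 i n = 2 ^ i * ∑ j ∈ range n, (ds j).choose i := by
  simp only [Φ, P_one, mul_sum]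

end CubZ
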