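import Pool.Agent.W_f620_h46.Face
import Pool.Agent.W_f620_h46.Weights

/-! Counting faces by cutting along zones. -/

namespace CubZ

open Finset

variable {d : ℕ} {V : Finset (Pt d)}

open Classical in
/-- The proper faces with `2^i` vertices contained in `W`. -/
noncomputable def T (V W : Finset (Pt d)) (i : ℕ) : Finset (Finset (Pt d)) :=
  W.powerset.filter (fun F => IsFace V F ∧ F ≠ V ∧ F.card = 2 ^ i)

lemma mem_T {W F : Finset (Pt d)} {i : ℕ} :
    F ∈ T V W i ↔ F ⊆ W ∧ IsFace V F ∧ F ≠ V ∧ F.card = 2 ^ i := by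
  classical
  simp [T]

lemma T_zero (W : Finset (Pt d)) : (T V W 0).card ≤ W.card := by
  classical
  have h : T V W 0 ⊆ W.image (fun x => {x}) := by
    intro F hF
    rw [mem_T] at hF
    obtain ⟨x, rfl⟩ := card_eq_one.1 hF.2.2.2
    exact mem_image.2 ⟨x, by simpa using hF.1, rfl⟩
  exact (card_le_card h).trans card_image_le

/-- A proper face with `2^k` vertices is a `k`-cube. -/
lemma isCube_of_card (hC : Cubical V) {F : Finset (Pt d)} (hF : IsFace V F) (hne : F ≠ V)
    {k : ℕ} (h : F.card = 2 ^ k) : IsCube V F k := by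
  have h1 := hC F hF hne
  have h2 := h1.card
  rw [h] at h2
  rw [Nat.pow_right_injective (le_refl 2) h2]
  exact h1

/-- If there is no edge in `W` then there is no higher-dimensional face. -/
lemma T_empty (hC : Cubical V) {W : Finset (Pt d)}
    (hW : ¬ ∃ x y, x ∈ W ∧ y ∈ W ∧ x ≠ y ∧ IsFace V {x, y}) (i : ℕ) : T V W (i + 1) = ∅ := by
  classical
  rw [eq_empty_iff_forall_notMem]
  intro F hF
  rw [mem_T] at hF
  obtain ⟨hFW, hf, hne, hcard⟩ := hF
  obtain ⟨e, he, hF, hS⟩ := isCube_of_card hC hf hne hcard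
  refine hW ⟨e (fun _ => true), e (flip 0 (fun _ => true)), hFW ((hF _).2 ⟨_, rfl⟩),
    hFW ((hF _).2 ⟨_, rfl⟩), fun h => flip_ne_self 0 _ (he h).symm, edge_face he hF hS 0 _⟩

/-- Data of a cut of `W` by the zone of an edge. -/
lemma exists_cut (hd : 3 ≤ d) (hV : IsPolytope V) (hC : Cubical V) {W : Finset (Pt d)}
    (hW : ∃ x y, x ∈ W ∧ y ∈ W ∧ x ≠ y ∧ IsFace V {x, y}) :
    ∃ (e₀ : Finset (Pt d)) (g : Pt d → Bool), (∀ x y, x ≠ y → IsFace V {x, y} →
      (SameZone V e₀ {x, y} ↔ g x ≠ g y)) ∧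
      (∀ b, (W.filter (fun x => g x = b)).card < W.card) ∧
      (W.filter (fun x => g x = true)).card + (W.filter (fun x => g x = false)).card =
        W.card := by
  classical
  obtain ⟨x, y, hx, hy, hxy, hf⟩ := hW
  obtain ⟨g, hg⟩ := zone_cut hd hV hC {x, y}
  have hgxy : g x ≠ g y := (hg x y hxy hf).1 (Relation.EqvGen.refl _)
  refine ⟨{x, y}, g, hg, fun b => ?_, ?_⟩
  · apply card_lt_card
    refine ⟨filter_subset _ _, fun h => hgxy ?_⟩
    have h1 := (mem_filter.1 (h hx)).2
    have h2 := (mem_filter.1 (h hy)).2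
    rw [h1, h2]
  · have h4 := card_filter_add_card_filter_not (s := W) (fun x => g x = true)
    rw [← h4]; congr 2
    apply filter_congr; intro x _
    cases g x <;> simp

open Classical in
/-- The crossing faces. -/
noncomputable def Cr (V W : Finset (Pt d)) (i : ℕ) (g : Pt d → Bool) : Finset (Finset (Pt d)) :=
  (T V W i).filter (fun F => ¬ ∃ b, ∀ x ∈ F, g x = b)

/-- The faces in `W` are in one half or cross the cut. -/
lemma T_split (W : Finset (Pt d)) (i : ℕ) (g : Pt d → Bool) :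
    (T V W i).card ≤ (T V (W.filter (fun x => g x = true)) i).card +
      (T V (W.filter (fun x => g x = false)) i).card + (Cr V W i g).card := by
  classical
  have h : T V W i ⊆ (T V (W.filter (fun x => g x = true)) i ∪
      T V (W.filter (fun x => g x = false)) i) ∪ Cr V W i g := by
    intro F hF
    by_cases hb : ∃ b, ∀ x ∈ F, g x = b
    · apply mem_union_left
      obtain ⟨b, hb⟩ := hb
      rw [mem_union, mem_T, mem_T]
      rw [mem_T] at hF
      cases b
      · right; exact ⟨fun x hx => mem_filter.2 ⟨hF.1 hx, hb x hx⟩, hF.2⟩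
      · left; exact ⟨fun x hx => mem_filter.2 ⟨hF.1 hx, hb x hx⟩, hF.2⟩
    · exact mem_union_right _ (mem_filter.2 ⟨hF, hb⟩)
  refine (card_le_card h).trans ((card_union_le _ _).trans ?_)
  have := card_union_le (T V (W.filter (fun x => g x = true)) i)
    (T V (W.filter (fun x => g x = false)) i)
  omega

open Classical in
/-- The other ends of the edges of the zone at `v`. -/
noncomputable def Nb (V e₀ : Finset (Pt d)) (v : Pt d) : Finset (Pt d) :=
  V.filter (fun y => y ≠ v ∧ IsFace V {v, y} ∧ SameZone V e₀ {v, y})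

lemma card_Nb {μ : ℕ}
    (hμ : ∀ e₀ v, {e | IsEdge V e ∧ v ∈ e ∧ SameZone V e₀ e}.ncard ≤ μ)
    (e₀ : Finset (Pt d)) (v : Pt d) : (Nb V e₀ v).card ≤ μ := by
  classical
  refine le_trans ?_ (hμ e₀ v)
  have h1 : ((Nb V e₀ v).image (fun y => ({v, y} : Finset (Pt d)))).card = (Nb V e₀ v).card := by
    refine card_image_of_injOn ?_
    intro x hx y hy hxy
    rw [mem_coe, Nb, mem_filter] at hx hy
    have : x ∈ ({v, y} : Finset (Pt d)) := by
      have hxy' : ({v, x} : Finset (Pt d)) = {v, y} := hxy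
      rw [← hxy']; simp
    simp only [mem_insert, mem_singleton] at this
    exact this.resolve_left hx.2.1
  rw [← h1, ← Set.ncard_coe_finset]
  refine Set.ncard_le_ncard ?_ ?_
  · intro e he
    rw [mem_coe, mem_image] at he
    obtain ⟨y, hy, rfl⟩ := he
    rw [Nb, mem_filter] at hy
    exact ⟨⟨hy.2.2.1, card_pair hy.2.1.symm⟩, by simp, hy.2.2.2⟩
  · refine (Finset.finite_toSet V.powerset).subset (fun e he => ?_)
    rw [mem_coe, mem_powerset]
    exact he.1.1.1

/-- Bound for the crossing faces. -/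
lemma cross_le (hC : Cubical V) {μ : ℕ}
    (hμ : ∀ e₀ v, {e | IsEdge V e ∧ v ∈ e ∧ SameZone V e₀ e}.ncard ≤ μ)
    {W : Finset (Pt d)} {e₀ : Finset (Pt d)} {g : Pt d → Bool}
    (hg : ∀ x y, x ≠ y → IsFace V {x, y} → (SameZone V e₀ {x, y} ↔ g x ≠ g y))
    (i : ℕ) (b : Bool) :
    2 ^ i * (Cr V W i g).card ≤ ∑ q ∈ antidiagonal i, (Y μ).coeff q.2 *
      (2 ^ q.1 * (T V (W.filter (fun x => g x = b)) q.1).card) := by
  classical
  -- pairs
  set XP : Finset (Σ _ : Finset (Pt d), Pt d) :=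
    (Cr V W i g).sigma (fun F => F.filter (fun x => g x = b)) with hXP
  have hXPcard : 2 * XP.card = 2 ^ i * (Cr V W i g).card := by
    rw [hXP, card_sigma, mul_sum]
    rw [sum_congr rfl (g := fun _ => 2 ^ i), sum_const, smul_eq_mul, mul_comm]
    intro F hF
    rw [Cr, mem_filter, mem_T] at hF
    obtain ⟨⟨hFW, hf, hne, hcard⟩, hb⟩ := hF
    have := (face_half (isCube_of_card hC hf hne hcard) hf.1 hne e₀ g hg).resolve_left hb b
    rw [mul_comm]; exact this
  -- data
  have hdata : ∀ q : (Σ _ : Finset (Pt d), Pt d), ∃ (G E : Finset (Pt d)), q ∈ XP →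
      1 ≤ E.card ∧ E.card ≤ i ∧ G ∈ T V (W.filter (fun x => g x = b)) (i - E.card) ∧ q.2 ∈ G ∧
      E ⊆ Nb V e₀ q.2 ∧ (∀ F', IsFace V F' → G ⊆ F' → E ⊆ F' → q.1 ⊆ F') ∧ G ⊆ q.1 ∧
      E ⊆ q.1 := by
    rintro ⟨F, v⟩
    by_cases hq : (⟨F, v⟩ : Σ _ : Finset (Pt d), Pt d) ∈ XP
    · have hq' := hq
      rw [hXP, mem_sigma] at hq'
      obtain ⟨hF, hv⟩ := hq'
      simp only at hF hv
      rw [Cr, mem_filter, mem_T] at hF
      obtain ⟨⟨hFW, hf, hne, hcard⟩, hb⟩ := hF
      rw [mem_filter] at hv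
      obtain ⟨G, E, h1, h2, h3, h4, h5, h6, h7, h8⟩ :=
        face_data (isCube_of_card hC hf hne hcard) hf hne e₀ g hg hv.1
      refine ⟨G, E, fun _ => ⟨?_, h1, ?_, h4, ?_, h8, h3, fun y hy => (h7 y hy).1⟩⟩
      · -- otherwise the face is on one side
        rw [Nat.one_le_iff_ne_zero]
        intro h0
        apply hb
        refine ⟨g v, fun x hx => h6 x ?_⟩
        rw [h0, Nat.sub_zero] at h5
        have : G = F := eq_of_subset_of_card_le h3 (by rw [h5, hcard])
        rw [this]; exact hx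
      · rw [mem_T]
        refine ⟨fun x hx => mem_filter.2 ⟨hFW (h3 hx), by rw [h6 x hx]; exact hv.2⟩, h2, ?_, h5⟩
        intro h
        apply hne
        apply Finset.Subset.antisymm hf.1
        rw [← h]; exact h3
      · intro y hy
        obtain ⟨y1, y2, y3, y4⟩ := h7 y hy
        rw [Nb, mem_filter]
        exact ⟨hf.1 y1, y2, y3, y4⟩
    · exact ⟨∅, ∅, fun h => absurd h hq⟩
  choose G E hGE using hdata
  have hmaps : ∀ q ∈ XP, (i - (E q).card, (E q).card) ∈ antidiagonal i := by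
    intro q hq
    obtain ⟨h1, h2, -⟩ := hGE q hq
    rw [HasAntidiagonal.mem_antidiagonal]
    exact Nat.sub_add_cancel h2
  rw [← hXPcard, card_eq_sum_card_fiberwise hmaps, mul_sum]
  refine sum_le_sum ?_
  rintro ⟨u, t⟩ hut
  rw [HasAntidiagonal.mem_antidiagonal] at hut
  simp only at hut ⊢
  by_cases ht : t = 0
  · have : XP.filter (fun q => (i - (E q).card, (E q).card) = (u, t)) = ∅ := by
      rw [filter_eq_empty_iff]
      intro q hq h
      obtain ⟨h1, -⟩ := hGE q hq
      have := congrArg Prod.snd h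
      simp only at this
      omega
    rw [this]; simp
  rw [Y_coeff, if_neg ht, mul_assoc]
  refine Nat.mul_le_mul_left 2 ?_
  set TG : Finset (Σ _ : (Σ _ : Finset (Pt d), Pt d), Finset (Pt d)) :=
    ((T V (W.filter (fun x => g x = b)) u).sigma (fun G => G)).sigma
      (fun p => (Nb V e₀ p.2).powersetCard t) with hTG
  have hTGcard : TG.card ≤ μ.choose t * (2 ^ u * (T V (W.filter (fun x => g x = b)) u).card) := by
    rw [hTG, card_sigma]
    have h1 : ∀ p ∈ (T V (W.filter (fun x => g x = b)) u).sigma (fun G => G),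
        ((Nb V e₀ p.2).powersetCard t).card ≤ μ.choose t := by
      intro p _
      rw [card_powersetCard]
      exact Nat.choose_le_choose t (card_Nb hμ e₀ p.2)
    refine (sum_le_card_nsmul _ _ _ h1).trans ?_
    rw [smul_eq_mul, mul_comm, card_sigma]
    refine Nat.mul_le_mul_left _ ?_
    rw [sum_congr rfl (g := fun _ => 2 ^ u), sum_const, smul_eq_mul, mul_comm]
    intro G hG
    rw [mem_T] at hG
    exact hG.2.2.2
  refine le_trans ?_ hTGcard
  refine card_le_card_of_injOn (fun q => ⟨⟨G q, q.2⟩, E q⟩) ?_ ?_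
  · intro q hq
    rw [mem_coe, mem_filter] at hq
    obtain ⟨hq, heq⟩ := hq
    rw [Prod.mk.injEq] at heq
    obtain ⟨h1, h2, h3, h4, h5, -⟩ := hGE q hq
    rw [mem_coe, hTG, mem_sigma, mem_sigma, mem_powersetCard]
    refine ⟨⟨?_, h4⟩, h5, heq.2⟩
    rw [← heq.1]; exact h3
  · intro q hq q' hq' heq
    rw [mem_coe, mem_filter] at hq hq'
    have e1 : (⟨⟨G q, q.2⟩, E q⟩ : Σ _ : (Σ _ : Finset (Pt d), Pt d), Finset (Pt d)) =
      ⟨⟨G q', q'.2⟩, E q'⟩ := heq
    have e2 : G q = G q' := congrArg (fun z => z.1.1) e1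
    have e3 : q.2 = q'.2 := congrArg (fun z => z.1.2) e1
    have e4 : E q = E q' := congrArg (fun z => z.2) e1
    obtain ⟨-, -, -, -, -, h6, h7, h8⟩ := hGE q hq.1
    obtain ⟨-, -, -, -, -, h6', h7', h8'⟩ := hGE q' hq'.1
    have hface : ∀ q ∈ XP, IsFace V q.1 := by
      intro q hq
      rw [hXP, mem_sigma, Cr, mem_filter, mem_T] at hq
      exact hq.1.1.2.1
    have e5 : q.1 = q'.1 := by
      apply Finset.Subset.antisymm
      · exact h6 _ (hface q' hq'.1) (by rw [e2]; exact h7') (by rw [e4]; exact h8')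
      · exact h6' _ (hface q hq.1) (by rw [← e2]; exact h7) (by rw [← e4]; exact h8)
    obtain ⟨a, b⟩ := q
    obtain ⟨a', b'⟩ := q'
    simp only at e3 e5
    rw [e3, e5]

/-- Upper bound for the faces of all dimensions. -/
theorem count (hd : 3 ≤ d) (hV : IsPolytope V) (hC : Cubical V) {μ : ℕ}
    (hμ : ∀ e₀ v, {e | IsEdge V e ∧ v ∈ e ∧ SameZone V e₀ e}.ncard ≤ μ)
    (W : Finset (Pt d)) (i : ℕ) : 2 ^ i * (T V W i).card ≤ Φ μ i W.card := by
  classical
  induction hn : W.card using Nat.strong_induction_on generalizing W i with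
  | _ n ih =>
    subst hn
    cases i with
    | zero => rw [Φ_zero, pow_zero, one_mul]; exact T_zero W
    | succ i =>
      by_cases hW : ∃ x y, x ∈ W ∧ y ∈ W ∧ x ≠ y ∧ IsFace V {x, y}
      · obtain ⟨e₀, g, hg, hlt, hsum⟩ := exists_cut hd hV hC hW
        have h0 := Nat.mul_le_mul_left (2 ^ (i + 1)) (T_split (V := V) W (i + 1) g)
        rw [Nat.mul_add, Nat.mul_add] at h0
        have hcr : ∀ b, 2 ^ (i + 1) * (Cr V W (i + 1) g).card ≤
            ∑ q ∈ antidiagonal (i + 1), (Y μ).coeff q.2 *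
              Φ μ q.1 (W.filter (fun x => g x = b)).card := by
          intro b
          refine (cross_le hC hμ hg (i + 1) b).trans (sum_le_sum (fun q _ => ?_))
          exact Nat.mul_le_mul_left _ (ih _ (hlt b) _ q.1 rfl)
        have h1 := hcr true
        have h2 := hcr false
        have h5 := ih _ (hlt true) _ (i + 1) rfl
        have h6 := ih _ (hlt false) _ (i + 1) rfl
        rw [← hsum]
        rcases le_total (W.filter (fun x => g x = false)).card
          (W.filter (fun x => g x = true)).card with h | h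
        · have := Φ_add μ (i + 1) _ _ h
          omega
        · have := Φ_add μ (i + 1) _ _ h
          rw [add_comm (W.filter (fun x => g x = true)).card]
          omega
      · rw [T_empty hC hW]; simp

/-- The number of faces of dimension `i`. -/
lemma fnum_le (hC : Cubical V) (i : ℕ) : fnum V i ≤ (T V V i).card := by
  classical
  rw [fnum, ← Set.ncard_coe_finset]
  refine Set.ncard_le_ncard ?_ (Finset.finite_toSet _)
  intro F hF
  obtain ⟨h1, h2, h3⟩ := hF
  rw [mem_coe, mem_T]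
  exact ⟨h1.1, h1, h2, by rw [← h3]; exact (hC F h1 h2).card⟩

end CubZ
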