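import Pool.Agent.W_f620_h46.Defs

/-! Elementary facts on combinatorial cubes. -/

namespace CubZ

open Finset

variable {d : ℕ} {V F : Finset (Pt d)} {k : ℕ}

/-- Flip of one coordinate. -/
def flip {k : ℕ} (i : Fin k) (a : Fin k → Bool) : Fin k → Bool := Function.update a i (!a i)

lemma flip_same (i : Fin k) (a : Fin k → Bool) : flip i a i = !a i := by simp [flip]
lemma flip_ne {i j : Fin k} (h : j ≠ i) (a : Fin k → Bool) : flip i a j = a j := by
  simp [flip, h]
lemma flip_flip (i : Fin k) (a : Fin k → Bool) : flip i (flip i a) = a := by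
  funext j; by_cases h : j = i
  · subst h; simp [flip]
  · simp [flip, h]
lemma flip_comm {i j : Fin k} (h : j ≠ i) (a : Fin k → Bool) :
    flip i (flip j a) = flip j (flip i a) := by
  funext t
  by_cases h1 : t = i
  · subst h1; rw [flip_same, flip_ne h.symm, flip_ne h.symm, flip_same]
  · by_cases h2 : t = j
    · subst h2; rw [flip_ne h1, flip_same, flip_same, flip_ne h1]
    · rw [flip_ne h1, flip_ne h2, flip_ne h2, flip_ne h1]
lemma flip_ne_self (i : Fin k) (a : Fin k → Bool) : flip i a ≠ a := by
  intro h; have := congrFun h i; rw [flip_same] at this; cases h' : a i <;> simp [h'] at this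

/-- a function on the cube which is invariant under all flips is constant. -/
lemma const_of_flip {α : Type*} (h : (Fin k → Bool) → α) (hf : ∀ i a, h (flip i a) = h a)
    (a b : Fin k → Bool) : h a = h b := by
  classical
  have key : ∀ S : Finset (Fin k), h (S.piecewise b a) = h a := by
    intro S
    induction S using Finset.induction_on with
    | empty => simp
    | insert i S hi ih =>
      rw [← ih, Finset.piecewise_insert]
      by_cases hb : b i = S.piecewise b a i
      · rw [hb, Function.update_eq_self]
      · have : b i = !(S.piecewise b a i) := by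
          cases h1 : b i <;> cases h2 : S.piecewise b a i <;> simp_all
        rw [this]; exact hf i _
  have := key Finset.univ
  rw [Finset.piecewise_univ] at this
  exact this.symm

lemma card_cube {e : (Fin k → Bool) → Pt d} (he : Function.Injective e)
    (hF : ∀ x, x ∈ F ↔ ∃ a, e a = x) : F.card = 2 ^ k := by
  have : F = Finset.univ.image e := by
    ext x; simp [hF]
  rw [this, Finset.card_image_of_injective _ he]; simp

lemma IsCube.card (h : IsCube V F k) : F.card = 2 ^ k := by
  obtain ⟨e, he, hF, -⟩ := h; exact card_cube he hF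

section faces

variable {e : (Fin k → Bool) → Pt d} (he : Function.Injective e)
  (hF : ∀ x, x ∈ F ↔ ∃ a, e a = x)
  (hS : ∀ S ⊆ F, S.Nonempty → (IsFace V S ↔
      ∃ c : Fin k → Option Bool, ∀ a, e a ∈ S ↔ ∀ i, ∀ b ∈ c i, a i = b))
include he hF hS

/-- Subcubes are faces. -/
lemma sub_face (c : Fin k → Option Bool) :
    IsFace V ((Finset.univ.filter (fun a : Fin k → Bool => ∀ i, ∀ b ∈ c i, a i = b)).image e) := by
  refine (hS _ ?_ ?_).2 ⟨c, fun a => ?_⟩
  · intro x hx
    obtain ⟨a, -, rfl⟩ := Finset.mem_image.1 hx
    exact (hF _).2 ⟨a, rfl⟩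
  · refine ⟨e (fun i => (c i).getD true), Finset.mem_image_of_mem _ ?_⟩
    simp only [Finset.mem_filter, Finset.mem_univ, true_and]
    intro i b hb
    rw [Option.mem_def] at hb
    rw [hb]; rfl
  · simp only [Finset.mem_image, Finset.mem_filter, Finset.mem_univ, true_and]
    constructor
    · rintro ⟨b, hb, hab⟩; rw [← he hab]; exact hb
    · intro h; exact ⟨a, h, rfl⟩

lemma edge_face (i : Fin k) (a : Fin k → Bool) : IsFace V {e a, e (flip i a)} := by
  classical
  have h := sub_face he hF hS (fun j => if j = i then none else some (a j))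
  convert h using 1
  ext x
  simp only [Finset.mem_insert, Finset.mem_singleton, Finset.mem_image, Finset.mem_filter,
    Finset.mem_univ, true_and]
  constructor
  · rintro (rfl | rfl)
    · refine ⟨a, ?_, rfl⟩
      intro j b hb
      by_cases hj : j = i
      · simp [hj] at hb
      · simp [hj] at hb; exact hb
    · refine ⟨flip i a, ?_, rfl⟩
      intro j b hb
      by_cases hj : j = i
      · simp [hj] at hb
      · simp [hj] at hb; rw [flip_ne hj]; exact hb
  · rintro ⟨b, hb, rfl⟩
    have h1 : ∀ j, j ≠ i → b j = a j := by
      intro j hj; exact hb j (a j) (by simp [hj])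
    by_cases h2 : b i = a i
    · left; congr 1; funext j
      by_cases hj : j = i
      · subst hj; exact h2
      · exact h1 j hj
    · right; congr 1; funext j
      by_cases hj : j = i
      · subst hj; rw [flip_same]; cases h3 : b j <;> cases h4 : a j <;> simp_all
      · rw [flip_ne hj]; exact h1 j hj

lemma square_face {i j : Fin k} (hij : j ≠ i) (a : Fin k → Bool) :
    IsFace V {e a, e (flip i a), e (flip j (flip i a)), e (flip j a)} := by
  classical
  have h := sub_face he hF hS (fun t => if t = i then none else if t = j then none else some (a t))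
  convert h using 1
  ext x
  simp only [Finset.mem_insert, Finset.mem_singleton, Finset.mem_image, Finset.mem_filter,
    Finset.mem_univ, true_and]
  constructor
  · intro hx
    have aux : ∀ b : Fin k → Bool, (∀ t, t ≠ i → t ≠ j → b t = a t) →
        ∀ t, ∀ b' ∈ (if t = i then none else if t = j then none else some (a t)), b t = b' := by
      intro b hb t b' hb'
      by_cases hti : t = i
      · simp [hti] at hb'
      · by_cases htj : t = j
        · subst htj; simp [hti] at hb'
        · simp [hti, htj] at hb'; rw [hb t hti htj]; exact hb'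
    rcases hx with rfl | rfl | rfl | rfl
    · exact ⟨a, aux a (fun _ _ _ => rfl), rfl⟩
    · exact ⟨_, aux _ (fun t h1 _ => flip_ne h1 a), rfl⟩
    · exact ⟨_, aux _ (fun t h1 h2 => by rw [flip_ne h2, flip_ne h1]), rfl⟩
    · exact ⟨_, aux _ (fun t _ h2 => flip_ne h2 a), rfl⟩
  · rintro ⟨b, hb, rfl⟩
    have h1 : ∀ t, t ≠ i → t ≠ j → b t = a t := by
      intro t ht ht'; exact hb t (a t) (by simp [ht, ht'])
    have ext4 : ∀ b' : Fin k → Bool, b i = b' i → b j = b' j →
        (∀ t, t ≠ i → t ≠ j → b' t = a t) → b = b' := by
      intro b' h2 h3 h4; funext t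
      by_cases hti : t = i
      · subst hti; exact h2
      · by_cases htj : t = j
        · subst htj; exact h3
        · rw [h1 t hti htj, h4 t hti htj]
    have bn : ∀ x y : Bool, x ≠ y → x = !y := by decide
    by_cases h2 : b i = a i <;> by_cases h3 : b j = a j
    · left; congr 1; exact ext4 _ h2 h3 (fun _ _ _ => rfl)
    · right; right; right; congr 1
      refine ext4 _ (by rw [flip_ne hij.symm]; exact h2) (by rw [flip_same]; exact bn _ _ h3) ?_
      intro t _ h; exact flip_ne h a
    · right; left; congr 1
      refine ext4 _ (by rw [flip_same]; exact bn _ _ h2) (by rw [flip_ne hij]; exact h3) ?_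
      intro t h _; exact flip_ne h a
    · right; right; left; congr 1
      refine ext4 _ (by rw [flip_ne hij.symm, flip_same]; exact bn _ _ h2)
        (by rw [flip_same, flip_ne hij]; exact bn _ _ h3) ?_
      intro t h h'; rw [flip_ne h', flip_ne h]

/-- An edge at `e a` inside the cube comes from a flip. -/
lemma exists_flip {a b : Fin k → Bool} (hab : a ≠ b) (h : IsFace V {e a, e b}) :
    ∃ i, b = flip i a := by
  classical
  obtain ⟨i, hi⟩ : ∃ i, a i ≠ b i := by
    by_contra hcon; push Not at hcon; exact hab (funext hcon)
  refine ⟨i, ?_⟩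
  have hsub : ({e a, e b} : Finset (Pt d)) ⊆ F := by
    intro x hx
    simp only [Finset.mem_insert, Finset.mem_singleton] at hx
    rcases hx with rfl | rfl
    · exact (hF _).2 ⟨a, rfl⟩
    · exact (hF _).2 ⟨b, rfl⟩
  obtain ⟨c, hc⟩ := (hS _ hsub ⟨e a, by simp⟩).1 h
  have ha := (hc a).1 (by simp)
  have hb := (hc b).1 (by simp)
  have hci : c i = none := by
    cases hci : c i with
    | none => rfl
    | some t => exact absurd ((ha i t hci).trans (hb i t hci).symm) hi
  have hfl : e (flip i a) ∈ ({e a, e b} : Finset (Pt d)) := by
    refine (hc _).2 ?_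
    intro j t ht
    by_cases hj : j = i
    · subst hj; rw [hci] at ht; simp at ht
    · rw [flip_ne hj]; exact ha j t ht
  simp only [Finset.mem_insert, Finset.mem_singleton] at hfl
  rcases hfl with h1 | h1
  · exact absurd (he h1) (flip_ne_self i a)
  · exact (he h1).symm

end faces

end CubZ
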