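import Mathlib

/-!
Cubical polytopes given by their vertex sets: definitions.
-/

namespace CubZ

/-- Points of `ℝ^d`. -/
abbrev Pt (d : ℕ) := Fin d → ℝ

/-- `F` is the vertex set of a nonempty face of the polytope with vertex set `V`: the set of
the points of `V` at which some linear functional attains its maximum over `V`. -/
def IsFace {d : ℕ} (V F : Finset (Pt d)) : Prop :=
  F ⊆ V ∧ F.Nonempty ∧ ∃ l : Module.Dual ℝ (Pt d), ∀ x ∈ V, x ∈ F ↔ ∀ y ∈ V, l y ≤ l x

/-- `V` is the vertex set of a convex polytope in `ℝ^d` with nonempty interior. -/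
def IsPolytope {d : ℕ} (V : Finset (Pt d)) : Prop :=
  (∀ v ∈ V, IsFace V {v}) ∧ vectorSpan ℝ (V : Set (Pt d)) = ⊤

/-- The dimension of the convex hull of `F`. -/
noncomputable def fdim {d : ℕ} (F : Finset (Pt d)) : ℕ :=
  Module.finrank ℝ (vectorSpan ℝ (F : Set (Pt d)))

/-- The face `F` is combinatorially equivalent to the `k`-dimensional cube: there is a bijection
`e` of `{0,1}^k` with the vertex set of the face under which the nonempty faces of the
face are the sets of vertices of the nonempty faces of the cube (the sets of all `a` with some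
prescribed coordinates). -/
def IsCube {d : ℕ} (V F : Finset (Pt d)) (k : ℕ) : Prop :=
  ∃ e : (Fin k → Bool) → Pt d, Function.Injective e ∧ (∀ x, x ∈ F ↔ ∃ a, e a = x) ∧
    ∀ S ⊆ F, S.Nonempty → (IsFace V S ↔
      ∃ c : Fin k → Option Bool, ∀ a, e a ∈ S ↔ ∀ i, ∀ b ∈ c i, a i = b)

/-- The polytope is cubical: every proper face of dimension `k` is combinatorially a `k`-cube. -/
def Cubical {d : ℕ} (V : Finset (Pt d)) : Prop :=
  ∀ F, IsFace V F → F ≠ V → IsCube V F (fdim F)

/-- The number of proper faces of dimension `i`. -/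
noncomputable def fnum {d : ℕ} (V : Finset (Pt d)) (i : ℕ) : ℕ :=
  {F : Finset (Pt d) | IsFace V F ∧ F ≠ V ∧ fdim F = i}.ncard

/-- Edges: faces with two vertices. -/
def IsEdge {d : ℕ} (V e : Finset (Pt d)) : Prop := IsFace V e ∧ e.card = 2

/-- `e`, `e'` are opposite edges of a quadrilateral (proper face with four vertices). -/
def Opp {d : ℕ} (V e e' : Finset (Pt d)) : Prop :=
  IsEdge V e ∧ IsEdge V e' ∧ (e ∪ e').card = 4 ∧ IsFace V (e ∪ e') ∧ e ∪ e' ≠ V

/-- Two edges lie in the same zone: they are joined by a chain of edges, consecutive ones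
being opposite edges of a quadrilateral. -/
def SameZone {d : ℕ} (V : Finset (Pt d)) (e e' : Finset (Pt d)) : Prop :=
  Relation.EqvGen (Opp V) e e'

end CubZ
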