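import Pool.Agent.W_f620_h46.Part
import Pool.Agent.W_f620_h46.Count

/-! Euler's relation for cubical polytopes, by a sweep with a generic functional. -/

namespace CubZ

open Finset

variable {d : ℕ} {V : Finset (Pt d)}

/-- A cube lies in the cone of its edges at a vertex. -/
lemma cone {τ : Finset (Pt d)} {k : ℕ} (hτ : IsFace V τ) (hcube : IsCube V τ k)
    (hdim : fdim τ = k) {v y : Pt d} (hv : v ∈ τ) (hy : y ∈ τ) :
    ∃ c : Pt d → ℝ, (∀ z ∈ gens V τ v, 0 ≤ c z) ∧ y - v = ∑ z ∈ gens V τ v, c z • (z - v) := by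
  classical
  have hind := gens_indep hcube hτ hv
  have hgc := card_gens hcube hv
  have hspan : Submodule.span ℝ (Set.range (fun z : gens V τ v => (z : Pt d) - v)) =
      vectorSpan ℝ (τ : Set (Pt d)) := by
    apply Submodule.eq_of_le_of_finrank_le
    · rw [Submodule.span_le]
      rintro _ ⟨z, rfl⟩
      exact vsub_mem_vectorSpan ℝ (gens_sub z.2) hv
    · rw [finrank_span_eq_card hind, Fintype.card_coe, hgc, ← hdim]
      exact le_rfl
  have hmem : y - v ∈ vectorSpan ℝ (τ : Set (Pt d)) := vsub_mem_vectorSpan ℝ hy hv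
  rw [← hspan, Submodule.mem_span_range_iff_exists_fun] at hmem
  obtain ⟨c, hc⟩ := hmem
  obtain ⟨c', h1⟩ : ∃ c' : Pt d → ℝ, y - v = ∑ z ∈ gens V τ v, c' z • (z - v) := by
    refine ⟨fun z => if h : z ∈ gens V τ v then c ⟨z, h⟩ else 0, ?_⟩
    rw [← hc]
    refine Eq.trans ?_ (Finset.sum_coe_sort (gens V τ v)
      (fun z => (if h : z ∈ gens V τ v then c ⟨z, h⟩ else (0 : ℝ)) • (z - v)))
    refine Finset.sum_congr rfl (fun z _ => ?_)
    rw [dif_pos z.2]
  refine ⟨c', fun z hz => ?_, h1⟩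
  obtain ⟨R, hR, hRF, hvR, hgR, hRcard⟩ := exists_sub hcube hv
    (S := (gens V τ v).erase z) (erase_subset _ _)
  obtain ⟨b, hb⟩ := hR.exists_dual
  have hzR : z ∉ R := by
    intro h
    have : z ∈ gens V R v := mem_gens.2 ⟨h, (mem_gens.1 hz).2⟩
    rw [hgR] at this
    exact (notMem_erase _ _) this
  have h2 : b (z - v) < 0 := by
    have := (hb v hvR).2 z (hτ.1 (gens_sub hz)) hzR
    rw [map_sub]; linarith
  have h3 : b (y - v) ≤ 0 := by
    rw [map_sub, sub_nonpos]
    by_cases h : y ∈ R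
    · exact ((hb v hvR).1 y h).le
    · exact ((hb v hvR).2 y (hτ.1 hy) h).le
  have h4 := congrArg b h1
  rw [map_sum, sum_eq_single z] at h4
  · rw [map_smul, smul_eq_mul] at h4
    by_contra hcon
    rw [not_le] at hcon
    have := mul_pos_of_neg_of_neg hcon h2
    linarith
  · intro x hx hxz
    have : x ∈ R := by
      have h2 : x ∈ (gens V τ v).erase z := mem_erase.2 ⟨hxz, hx⟩
      rw [← hgR] at h2
      exact gens_sub h2
    rw [map_smul, map_sub, (hb v hvR).1 x this]; simp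
  · intro h; exact absurd hz h

/-- alternating sums over intervals -/
lemma toggle_sum {α : Type*} [DecidableEq α] (N A : Finset α) :
    ∑ S ∈ A.powerset.filter (fun S => N ⊆ S), (-1 : ℤ) ^ S.card =
      if N = A then (-1) ^ A.card else 0 := by
  by_cases hNA : N = A
  · subst hNA
    rw [if_pos rfl]
    have : N.powerset.filter (fun S => N ⊆ S) = {N} := by
      ext S
      rw [mem_filter, mem_powerset, mem_singleton]
      exact ⟨fun h => Finset.Subset.antisymm h.1 h.2, fun h => by rw [h]; simp⟩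
    rw [this, sum_singleton]
  · rw [if_neg hNA]
    by_cases hA : A ⊆ N
    · have : A.powerset.filter (fun S => N ⊆ S) = ∅ := by
        rw [filter_eq_empty_iff]
        intro S hS h
        rw [mem_powerset] at hS
        exact hNA (Finset.Subset.antisymm (h.trans hS) hA)
      rw [this, sum_empty]
    · obtain ⟨y, hyA, hyN⟩ := Finset.not_subset.1 hA
      refine Finset.sum_involution (fun S _ => if y ∈ S then S.erase y else insert y S) ?_ ?_ ?_ ?_
      · intro S hS
        by_cases hy : y ∈ S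
        · rw [if_pos hy, card_erase_of_mem hy]
          have : 1 ≤ S.card := card_pos.2 ⟨y, hy⟩
          obtain ⟨t, ht⟩ : ∃ t, S.card = t + 1 := ⟨S.card - 1, by omega⟩
          rw [ht, Nat.add_sub_cancel, pow_succ]; ring
        · rw [if_neg hy, card_insert_of_notMem hy, pow_succ]; ring
      · intro S hS _
        by_cases hy : y ∈ S
        · rw [if_pos hy]; intro h; rw [← h] at hy; exact (notMem_erase y S) hy
        · rw [if_neg hy]; intro h; apply hy; rw [← h]; exact mem_insert_self _ _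
      · intro S hS
        rw [mem_filter, mem_powerset] at hS ⊢
        by_cases hy : y ∈ S
        · rw [if_pos hy]
          refine ⟨(erase_subset _ _).trans hS.1, fun x hx => mem_erase.2 ⟨?_, hS.2 hx⟩⟩
          rintro rfl; exact hyN hx
        · rw [if_neg hy]
          exact ⟨insert_subset hyA hS.1, hS.2.trans (subset_insert _ _)⟩
      · intro S hS
        by_cases hy : y ∈ S
        · simp only [if_pos hy, notMem_erase, if_false]
          exact insert_erase hy
        · simp only [if_neg hy, mem_insert_self, if_true]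
          exact erase_insert hy

open Classical in
/-- The proper faces. -/
noncomputable def Pr (V : Finset (Pt d)) : Finset (Finset (Pt d)) :=
  V.powerset.filter (fun τ => IsFace V τ ∧ τ ≠ V)

lemma mem_Pr {τ : Finset (Pt d)} : τ ∈ Pr V ↔ IsFace V τ ∧ τ ≠ V := by
  classical
  rw [Pr, mem_filter, mem_powerset]
  exact ⟨fun h => h.2, fun h => ⟨h.1.1, h⟩⟩

open Classical in
/-- The proper faces at `v` all of whose edges at `v` go down. -/
noncomputable def Lw (V : Finset (Pt d)) (f : Module.Dual ℝ (Pt d)) (v : Pt d) :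
    Finset (Finset (Pt d)) :=
  (Pr V).filter (fun τ => v ∈ τ ∧ ∀ y ∈ gens V τ v, f y < f v)

lemma mem_Lw {f : Module.Dual ℝ (Pt d)} {v : Pt d} {τ : Finset (Pt d)} :
    τ ∈ Lw V f v ↔ IsFace V τ ∧ τ ≠ V ∧ v ∈ τ ∧ ∀ y ∈ gens V τ v, f y < f v := by
  classical
  rw [Lw, mem_filter, mem_Pr]
  tauto

lemma card_gens_fdim (hC : Cubical V) {τ : Finset (Pt d)} (hτ : IsFace V τ) (hne : τ ≠ V)
    {v : Pt d} (hv : v ∈ τ) : (gens V τ v).card = fdim τ := card_gens (hC τ hτ hne) hv

/-- The alternating sum over the descending faces at `v`, by facets. -/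
lemma low_sum (hV : IsPolytope V) (hC : Cubical V) {v w : Pt d} (L : Loc V v w)
    (f : Module.Dual ℝ (Pt d)) [DecidableEq (Pt d)] [DecidablePred (fun y => f y < f v)] :
    ∑ τ ∈ Lw V f v, (-1 : ℤ) ^ fdim τ =
      ∑ F ∈ FV V v, if L.nf F = (gens V F v).filter (fun y => f y < f v) then
        (-1) ^ ((gens V F v).filter (fun y => f y < f v)).card else 0 := by
  classical
  have hex : ∀ τ : Finset (Pt d), ∃ F, τ ∈ Lw V f v →
      F ∈ FV V v ∧ τ ⊆ F ∧ ∀ y ∈ gens V F v, y ∉ τ → 0 < L.c F y := by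
    intro τ
    by_cases hτ : τ ∈ Lw V f v
    · have h := mem_Lw.1 hτ
      obtain ⟨F, h1, h2, h3⟩ := L.exists_F hV hC h.1 h.2.1 h.2.2.1
      exact ⟨F, fun _ => ⟨h1, h2, h3⟩⟩
    · exact ⟨∅, fun h => absurd h hτ⟩
  choose Fm hFm using hex
  rw [← sum_fiberwise_of_maps_to (g := Fm) (t := FV V v) (fun τ hτ => (hFm τ hτ).1)]
  refine sum_congr rfl (fun F hF => ?_)
  have hF' := mem_FV.1 hF
  obtain ⟨hcube, -⟩ := isCube_of_card' hC hF'.1 hF'.2.1 hF'.2.2.2
  rw [← toggle_sum]
  have hfib : ∀ τ, τ ∈ (Lw V f v).filter (fun τ => Fm τ = F) ↔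
      τ ∈ Lw V f v ∧ τ ⊆ F ∧ ∀ y ∈ gens V F v, y ∉ τ → 0 < L.c F y := by
    intro τ
    rw [mem_filter]
    constructor
    · rintro ⟨h1, rfl⟩; exact ⟨h1, (hFm τ h1).2⟩
    · rintro ⟨h1, h2, h3⟩
      obtain ⟨g1, g2, g3⟩ := hFm τ h1
      exact ⟨h1, L.unique_F hC g1 hF g2 h2 g3 h3⟩
  refine sum_bij (fun τ _ => gens V τ v) ?_ ?_ ?_ ?_
  · intro τ hτ
    obtain ⟨h1, h2, h3⟩ := (hfib τ).1 hτ
    have h1' := mem_Lw.1 h1
    rw [mem_filter, mem_powerset]
    refine ⟨fun y hy => mem_filter.2 ⟨gens_mono h2 hy, h1'.2.2.2 y hy⟩, fun y hy => ?_⟩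
    rw [Loc.nf, mem_filter] at hy
    rw [mem_gens]
    refine ⟨?_, (mem_gens.1 hy.1).2⟩
    by_contra hcon
    exact lt_asymm (h3 y hy.1 hcon) hy.2
  · intro τ hτ τ' hτ' heq
    obtain ⟨h1, h2, -⟩ := (hfib τ).1 hτ
    obtain ⟨h1', h2', -⟩ := (hfib τ').1 hτ'
    have g1 := mem_Lw.1 h1
    have g1' := mem_Lw.1 h1'
    exact gens_inj hC g1.1 g1.2.1 g1'.1 g1'.2.1 g1.2.2.1 g1'.2.2.1 heq
  · intro S hS
    rw [mem_filter, mem_powerset] at hS
    obtain ⟨hS1, hS2⟩ := hS
    have hSg : S ⊆ gens V F v := hS1.trans (filter_subset _ _)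
    obtain ⟨τ, hτ, hτF, hvτ, hgτ', hτcard⟩ := exists_sub hcube hF'.2.2.1 (S := S) hSg
    have hτV : τ ≠ V := by
      intro h; apply hF'.2.1
      exact Finset.Subset.antisymm hF'.1.1 (by rw [← h]; exact hτF)
    refine ⟨τ, ?_, hgτ'⟩
    rw [hfib, mem_Lw]
    refine ⟨⟨hτ, hτV, hvτ, fun y hy => ?_⟩, hτF, fun y hy hyτ => ?_⟩
    · rw [hgτ'] at hy
      exact (mem_filter.1 (hS1 hy)).2
    · have hyn : y ∉ L.nf F := by
        intro h
        have : y ∈ gens V τ v := by rw [hgτ']; exact hS2 h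
        exact hyτ (gens_sub this)
      rw [Loc.nf, mem_filter, not_and, not_lt] at hyn
      exact lt_of_le_of_ne (hyn hy) (L.hc F hF y hy).symm
  · intro τ hτ
    obtain ⟨h1, -, -⟩ := (hfib τ).1 hτ
    have h1' := mem_Lw.1 h1
    rw [card_gens_fdim hC h1'.1 h1'.2.1 h1'.2.2.1]

end CubZ
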