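import Pool.Agent.W_f620_h46.Euler

/-! Euler's relation, end. -/

namespace CubZ

open Finset

variable {d : ℕ} {V : Finset (Pt d)}

lemma exists_other (hd : 1 ≤ d) (hV : IsPolytope V) (v : Pt d) : ∃ x ∈ V, x ≠ v := by
  by_contra hcon
  push Not at hcon
  have hs : (V : Set (Pt d)).Subsingleton := fun a ha b hb =>
    (hcon a ha).trans (hcon b hb).symm
  have h1 := hV.2
  rw [vectorSpan_of_subsingleton ℝ hs] at h1
  have h2 : Module.finrank ℝ (⊥ : Submodule ℝ (Pt d)) = d := by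
    rw [h1, finrank_top, Module.finrank_fin_fun]
  rw [finrank_bot] at h2
  omega

lemma single_ne (hd : 1 ≤ d) (hV : IsPolytope V) (v : Pt d) : ({v} : Finset (Pt d)) ≠ V := by
  intro h
  obtain ⟨x, hx, hxv⟩ := exists_other hd hV v
  rw [← h, mem_singleton] at hx
  exact hxv hx

lemma TV_zero (hd : 1 ≤ d) (hV : IsPolytope V) {v : Pt d} (hv : v ∈ V) : TV V v 0 = {{v}} := by
  ext τ
  rw [mem_TV, mem_singleton]
  constructor
  · rintro ⟨-, -, h1, h2⟩
    obtain ⟨x, rfl⟩ := card_eq_one.1 h2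
    rw [mem_singleton] at h1; rw [h1]
  · rintro rfl
    exact ⟨hV.1 v hv, single_ne hd hV v, by simp, by simp⟩

lemma low_bot (hd : 1 ≤ d) (hV : IsPolytope V) (hC : Cubical V) {f : Module.Dual ℝ (Pt d)}
    {v : Pt d} (hv : v ∈ V) (hbot : ∀ y ∈ V, f v ≤ f y) :
    ∑ τ ∈ Lw V f v, (-1 : ℤ) ^ fdim τ = 1 := by
  have hdim : fdim ({v} : Finset (Pt d)) = 0 :=
    (isCube_of_card' hC (hV.1 v hv) (single_ne hd hV v) (k := 0) (by simp)).2
  have : Lw V f v = {{v}} := by
    ext τ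
    rw [mem_Lw, mem_singleton]
    constructor
    · rintro ⟨h1, h2, h3, h4⟩
      have h5 : gens V τ v = ∅ := by
        rw [eq_empty_iff_forall_notMem]
        intro y hy
        exact absurd (h4 y hy) (not_lt.2 (hbot y (h1.1 (gens_sub hy))))
      have h6 := card_gens_fdim hC h1 h2 h3
      rw [h5, card_empty] at h6
      have h7 := card_eq_fdim hC h1 h2
      rw [← h6, pow_zero] at h7
      obtain ⟨x, rfl⟩ := card_eq_one.1 h7
      rw [mem_singleton] at h3; rw [h3]
    · rintro rfl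
      refine ⟨hV.1 v hv, single_ne hd hV v, by simp, fun y hy => ?_⟩
      have := mem_gens.1 hy
      exact absurd (mem_singleton.1 this.1) this.2.1
  rw [this, sum_singleton, hdim, pow_zero]

lemma low_top (hd : 1 ≤ d) (hV : IsPolytope V) (hC : Cubical V) {f : Module.Dual ℝ (Pt d)}
    (hf : f ≠ 0) {v : Pt d} (hv : v ∈ V) (htop : ∀ y ∈ V, y ≠ v → f y < f v) :
    ∑ τ ∈ Lw V f v, (-1 : ℤ) ^ fdim τ = (-1) ^ (d - 1) := by
  classical
  obtain ⟨L, -⟩ := exists_loc hC (inner_sum (V := V) v) hf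
  rw [low_sum hV hC L f]
  have h0 := card_TV' hV hC L (k := 0) (Nat.zero_le _)
  rw [TV_zero hd hV hv, card_singleton, Nat.sub_zero] at h0
  have h1 : ∀ F ∈ FV V v, (if L.nf F = (gens V F v).filter (fun y => f y < f v) then
      (-1 : ℤ) ^ ((gens V F v).filter (fun y => f y < f v)).card else 0) =
      (((L.nf F).card.choose (d - 1) : ℕ) : ℤ) * (-1) ^ (d - 1) := by
    intro F hF
    have hF' := mem_FV.1 hF
    obtain ⟨hcube, -⟩ := isCube_of_card' hC hF'.1 hF'.2.1 hF'.2.2.2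
    have hgc := card_gens hcube hF'.2.2.1
    have h2 : (gens V F v).filter (fun y => f y < f v) = gens V F v := by
      rw [filter_eq_self]
      intro y hy
      exact htop y (hF'.1.1 (gens_sub hy)) (mem_gens.1 hy).2.1
    rw [h2, hgc]
    by_cases h3 : L.nf F = gens V F v
    · rw [if_pos h3, h3, hgc, Nat.choose_self]; simp
    · rw [if_neg h3]
      have : (L.nf F).card < d - 1 := by
        rw [← hgc]
        exact card_lt_card ⟨L.nf_sub F, fun h => h3 (Finset.Subset.antisymm (L.nf_sub F) h)⟩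
      rw [Nat.choose_eq_zero_of_lt this]; simp
  rw [sum_congr rfl h1, ← sum_mul, ← Nat.cast_sum, ← h0]; simp

lemma low_mid (hV : IsPolytope V) (hC : Cubical V) {f : Module.Dual ℝ (Pt d)} (hf : f ≠ 0)
    {v a b : Pt d} (ha : a ∈ V) (hb : b ∈ V) (hav : f a < f v)
    (hvb : f v < f b) : ∑ τ ∈ Lw V f v, (-1 : ℤ) ^ fdim τ = 0 := by
  classical
  -- an inner direction on which `f` vanishes
  obtain ⟨w, hw, hfw⟩ : ∃ w, Inner V v w ∧ f w = 0 := by
    set w₀ : Pt d := ∑ y ∈ V, (y - v) with hw₀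
    have hin := inner_sum (V := V) v
    have key : ∀ z ∈ V, f z ≠ f v → 0 ≤ - (f w₀ / (f z - f v)) →
        ∃ w, Inner V v w ∧ f w = 0 := by
      intro z hz hzv hs
      refine ⟨w₀ + (-(f w₀ / (f z - f v))) • (z - v), ?_, ?_⟩
      · intro c h1 h2
        rw [map_add, map_smul, map_sub, smul_eq_mul]
        have h3 : c w₀ < 0 := hin c h1 h2
        have h4 := mul_nonneg hs (sub_nonneg.2 (h1 z hz))
        nlinarith
      · rw [map_add, map_smul, map_sub, smul_eq_mul, neg_mul,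
          div_mul_cancel₀ _ (sub_ne_zero.2 hzv)]
        ring
    rcases le_total 0 (f w₀) with h | h
    · refine key a ha hav.ne ?_
      have := div_nonpos_of_nonneg_of_nonpos h (sub_neg.2 hav).le
      linarith
    · refine key b hb hvb.ne' ?_
      have := div_nonpos_of_nonpos_of_nonneg h (sub_pos.2 hvb).le
      linarith
  obtain ⟨L, hL⟩ := exists_loc hC hw hf
  rw [low_sum hV hC L f]
  refine sum_eq_zero (fun F hF => ?_)
  rw [if_neg]
  intro heq
  have h1 := congrArg f (L.hu F hF)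
  rw [map_sub, map_sum, map_smul, hfw, smul_zero, sub_zero] at h1
  have h2 : 0 ≤ ∑ y ∈ gens V F v, f (L.c F y • (y - v)) := by
    refine sum_nonneg (fun y hy => ?_)
    rw [map_smul, map_sub, smul_eq_mul]
    by_cases hyn : y ∈ L.nf F
    · have h3 : L.c F y < 0 := (mem_filter.1 hyn).2
      rw [heq] at hyn
      have h4 := (mem_filter.1 hyn).2
      exact (mul_pos_of_neg_of_neg h3 (sub_neg.2 h4)).le
    · have h3 : 0 ≤ L.c F y := by
        rw [Loc.nf, mem_filter, not_and, not_lt] at hyn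
        exact hyn hy
      have h4 : f v ≤ f y := by
        by_contra hcon
        apply hyn
        rw [heq, mem_filter]
        exact ⟨hy, not_le.1 hcon⟩
      exact mul_nonneg h3 (sub_nonneg.2 h4)
  linarith

/-- Euler's relation. -/
theorem euler (hd : 1 ≤ d) (hV : IsPolytope V) (hC : Cubical V) :
    ∑ τ ∈ Pr V, (-1 : ℤ) ^ fdim τ = 1 + (-1) ^ (d - 1) := by
  classical
  obtain ⟨D⟩ := exists_fig hV.1
  obtain ⟨f, hinj, -, -⟩ := exists_generic D
  have hVne : V.Nonempty := by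
    obtain ⟨x, hx, -⟩ := exists_other hd hV 0
    exact ⟨x, hx⟩
  obtain ⟨b, hb, hbmin⟩ := Finset.exists_min_image V (fun x => f x) hVne
  obtain ⟨t, ht, htmax⟩ := Finset.exists_max_image V (fun x => f x) hVne
  have htop : ∀ y ∈ V, y ≠ t → f y < f t := fun y hy hyt =>
    lt_of_le_of_ne (htmax y hy) (fun h => hyt (hinj y hy t ht h))
  have hbot : ∀ y ∈ V, y ≠ b → f b < f y := fun y hy hyb =>
    lt_of_le_of_ne (hbmin y hy) (fun h => hyb (hinj b hb y hy h).symm)
  have hbt : b ≠ t := by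
    rintro rfl
    obtain ⟨x, hx, hxb⟩ := exists_other hd hV b
    exact lt_asymm (htop x hx hxb) (hbot x hx hxb)
  have hf : f ≠ 0 := by
    rintro rfl
    have := htop b hb hbt
    simp at this
  -- the top vertex of a face
  have hex : ∀ τ : Finset (Pt d), ∃ x, τ ∈ Pr V → x ∈ τ ∧ ∀ y ∈ τ, f y ≤ f x := by
    intro τ
    by_cases hτ : τ ∈ Pr V
    · obtain ⟨x, hx, hmax⟩ := Finset.exists_max_image τ (fun x => f x) (mem_Pr.1 hτ).1.2.1
      exact ⟨x, fun _ => ⟨hx, hmax⟩⟩
    · exact ⟨0, fun h => absurd h hτ⟩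
  choose top htop' using hex
  have hfib : ∀ v ∈ V, (Pr V).filter (fun τ => top τ = v) = Lw V f v := by
    intro v hv
    ext τ
    rw [mem_filter, mem_Lw]
    constructor
    · rintro ⟨h1, rfl⟩
      have h2 := mem_Pr.1 h1
      obtain ⟨h3, h4⟩ := htop' τ h1
      refine ⟨h2.1, h2.2, h3, fun y hy => ?_⟩
      refine lt_of_le_of_ne (h4 y (gens_sub hy)) (fun h => (mem_gens.1 hy).2.1 ?_)
      exact hinj y (h2.1.1 (gens_sub hy)) _ (h2.1.1 h3) h
    · rintro ⟨h1, h2, h3, h4⟩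
      have h5 : τ ∈ Pr V := mem_Pr.2 ⟨h1, h2⟩
      refine ⟨h5, ?_⟩
      obtain ⟨h6, h7⟩ := htop' τ h5
      obtain ⟨c, hc, hsum⟩ := cone h1 (hC τ h1 h2) rfl h3 h6
      have h8 := congrArg f hsum
      rw [map_sub, map_sum] at h8
      have h9 : ∑ z ∈ gens V τ v, f (c z • (z - v)) ≤ 0 := by
        refine sum_nonpos (fun z hz => ?_)
        rw [map_smul, map_sub, smul_eq_mul]
        exact mul_nonpos_of_nonneg_of_nonpos (hc z hz) (sub_neg.2 (h4 z hz)).le
      exact hinj _ (h1.1 h6) v hv (le_antisymm (by linarith) (h7 v h3))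
  rw [← sum_fiberwise_of_maps_to (g := top) (t := V)
    (fun τ hτ => (mem_Pr.1 hτ).1.1 (htop' τ hτ).1)]
  rw [sum_congr rfl (fun v hv => by rw [hfib v hv])]
  rw [← add_sum_erase V _ hb, low_bot hd hV hC hb hbmin,
    ← add_sum_erase (V.erase b) _ (mem_erase.2 ⟨hbt.symm, ht⟩), low_top hd hV hC hf ht htop,
    sum_eq_zero, add_zero]
  intro v hv
  rw [mem_erase, mem_erase] at hv
  exact low_mid hV hC hf hb ht (hbot v hv.2.2 hv.2.1) (htop v hv.2.2 hv.1)

end CubZ
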