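import Pool.Agent.W_f620_h46.Zone

/-! How a zone cuts a face, in general. -/

namespace CubZ

open Finset

variable {d : ℕ} {V : Finset (Pt d)}

/-- The intersection of two faces with a common point is a face. -/
lemma IsFace.inter {F G : Finset (Pt d)} (hF : IsFace V F) (hG : IsFace V G) {v : Pt d}
    (hvF : v ∈ F) (hvG : v ∈ G) [DecidableEq (Pt d)] : IsFace V (F ∩ G) := by
  obtain ⟨c, hc⟩ := hF.exists_dual
  obtain ⟨c', hc'⟩ := hG.exists_dual
  have h1 : ∀ y ∈ V, c y ≤ c v := by
    intro y hy
    by_cases h : y ∈ F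
    · exact ((hc v hvF).1 y h).le
    · exact ((hc v hvF).2 y hy h).le
  have h2 : ∀ y ∈ V, c' y ≤ c' v := by
    intro y hy
    by_cases h : y ∈ G
    · exact ((hc' v hvG).1 y h).le
    · exact ((hc' v hvG).2 y hy h).le
  refine isFace_of (v := v) (inter_subset_left.trans hF.1) (mem_inter.2 ⟨hvF, hvG⟩) (c + c') ?_ ?_
  · intro y hy
    rw [mem_inter] at hy
    simp only [LinearMap.add_apply]
    rw [(hc v hvF).1 y hy.1, (hc' v hvG).1 y hy.2]
  · intro y hy hyF
    simp only [LinearMap.add_apply]
    by_cases h : y ∈ F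
    · have h3 : y ∉ G := fun h' => hyF (mem_inter.2 ⟨h, h'⟩)
      exact add_lt_add_of_le_of_lt (h1 y hy) ((hc' v hvG).2 y hy h3)
    · exact add_lt_add_of_lt_of_le ((hc v hvF).2 y hy h) (h2 y hy)

/-- A proper face is on one side of the cut, or the cut halves its vertex set. -/
theorem face_half {F : Finset (Pt d)} {k : ℕ}
    (hc : IsCube V F k) (hFV : F ⊆ V) (hne : F ≠ V) (e₀ : Finset (Pt d)) (g : Pt d → Bool)
    (hg : ∀ x y, x ≠ y → IsFace V {x, y} → (SameZone V e₀ {x, y} ↔ g x ≠ g y)) :
    (∃ b, ∀ x ∈ F, g x = b) ∨ ∀ b, (F.filter (fun x => g x = b)).card * 2 = 2 ^ k := by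
  classical
  obtain ⟨e, he, hF, hS⟩ := hc
  by_cases hD : ∃ i : Fin k, ∃ a, SameZone V e₀ {e a, e (flip i a)}
  · right
    obtain ⟨i, a₀, hi⟩ := hD
    have hflip : ∀ a, g (e a) ≠ g (e (flip i a)) := fun a =>
      (hg _ _ (fun h => flip_ne_self i a (he h).symm) (edge_face he hF hS i a)).1
        ((zone_dir he hF hS hFV hne e₀ i a₀ a).1 hi)
    intro b
    -- the flip exchanges the two halves
    have hh : ∀ b : Bool, (F.filter (fun x => g x = b)).card ≤
        (F.filter (fun x => g x = !b)).card := by
      intro b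
      have hinv : ∀ x ∈ F, e (Function.invFun e x) = x := by
        intro x hx
        obtain ⟨a, rfl⟩ := (hF x).1 hx
        exact congrArg e (Function.leftInverse_invFun he a)
      refine card_le_card_of_injOn (fun x => e (flip i (Function.invFun e x))) ?_ ?_
      · intro x hx
        rw [mem_coe, mem_filter] at hx ⊢
        refine ⟨(hF _).2 ⟨_, rfl⟩, ?_⟩
        have h1 := hflip (Function.invFun e x)
        rw [hinv x hx.1, hx.2] at h1
        revert h1
        cases b <;> cases g (e (flip i (Function.invFun e x))) <;> simp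
      · intro x hx y hy hxy
        rw [mem_coe, mem_filter] at hx hy
        have h1 := congrArg (flip i) (he hxy)
        rw [flip_flip, flip_flip] at h1
        rw [← hinv x hx.1, ← hinv y hy.1, h1]
    have h2 := hh b
    have h3 := hh (!b)
    rw [Bool.not_not] at h3
    have h4 := card_filter_add_card_filter_not (s := F) (fun x => g x = b)
    have h5 : F.filter (fun x => ¬ g x = b) = F.filter (fun x => g x = !b) := by
      apply filter_congr; intro x _
      cases g x <;> cases b <;> simp
    rw [h5] at h4
    have h6 := card_cube he hF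
    omega
  · left
    push Not at hD
    refine ⟨g (e (fun _ => true)), fun x hx => ?_⟩
    obtain ⟨a, rfl⟩ := (hF x).1 hx
    refine const_of_flip (fun a => g (e a)) (fun i a => ?_) a _
    by_contra hcon
    exact hD i a ((hg _ _ (fun h => flip_ne_self i a (he h).symm) (edge_face he hF hS i a)).2
      (fun h => hcon h.symm))

lemma card_subcube {k : ℕ} (D : Finset (Fin k)) (a : Fin k → Bool) :
    (Finset.univ.filter (fun b : Fin k → Bool => ∀ j ∈ D, b j = a j)).card = 2 ^ (k - D.card) := by
  classical
  have h : (Finset.univ.filter (fun b : Fin k → Bool => ∀ j ∈ D, b j = a j)) =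
      Fintype.piFinset (fun j => if j ∈ D then {a j} else Finset.univ) := by
    ext b
    simp only [mem_filter, mem_univ, true_and, Fintype.mem_piFinset]
    refine forall_congr' (fun j => ?_)
    by_cases hj : j ∈ D <;> simp [hj]
  rw [h, Fintype.card_piFinset]
  have : ∀ j : Fin k, (if j ∈ D then ({a j} : Finset Bool) else Finset.univ).card =
      if j ∈ D then 1 else 2 := by
    intro j; split_ifs <;> simp
  simp only [this]
  rw [prod_ite]
  simp only [prod_const_one, one_mul, prod_const]
  congr 1
  have h1 : (Finset.univ.filter (fun x => x ∉ D)) = Dᶜ := by ext; simp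
  rw [h1, card_compl, Fintype.card_fin]

/-- The part of a face at a vertex on its side of the cut, and the edges of the zone. -/
theorem face_data {F : Finset (Pt d)} {k : ℕ}
    (hc : IsCube V F k) (hf : IsFace V F) (hne : F ≠ V) (e₀ : Finset (Pt d)) (g : Pt d → Bool)
    (hg : ∀ x y, x ≠ y → IsFace V {x, y} → (SameZone V e₀ {x, y} ↔ g x ≠ g y))
    {v : Pt d} (hv : v ∈ F) :
    ∃ (G E : Finset (Pt d)), E.card ≤ k ∧ IsFace V G ∧ G ⊆ F ∧ v ∈ G ∧
      G.card = 2 ^ (k - E.card) ∧ (∀ x ∈ G, g x = g v) ∧
      (∀ y ∈ E, y ∈ F ∧ y ≠ v ∧ IsFace V {v, y} ∧ SameZone V e₀ {v, y}) ∧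
      (∀ F', IsFace V F' → G ⊆ F' → E ⊆ F' → F ⊆ F') := by
  classical
  obtain ⟨e, he, hF, hS⟩ := hc
  have hFV := hf.1
  obtain ⟨a, rfl⟩ := (hF v).1 hv
  set D : Finset (Fin k) := Finset.univ.filter (fun j => SameZone V e₀ {e a, e (flip j a)}) with hD
  set E : Finset (Pt d) := D.image (fun j => e (flip j a)) with hE
  have hEcard : E.card = D.card := by
    refine card_image_of_injective _ (fun i j hij => ?_)
    by_contra hne'
    have := congrFun (he hij) i
    rw [flip_same, flip_ne hne'] at this
    cases h' : a i <;> simp [h'] at this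
  set G : Finset (Pt d) := (Finset.univ.filter (fun b : Fin k → Bool => ∀ j ∈ D, b j = a j)).image e
    with hG
  have hGface : IsFace V G := by
    have h := sub_face he hF hS (fun j => if j ∈ D then some (a j) else none)
    convert h using 1
    rw [hG]
    congr 1
    apply filter_congr
    intro b _
    refine forall_congr' (fun j => ?_)
    by_cases hj : j ∈ D <;> simp [hj]
  have hGF : G ⊆ F := by
    intro x hx
    obtain ⟨b, -, rfl⟩ := mem_image.1 hx
    exact (hF _).2 ⟨b, rfl⟩
  have hvG : e a ∈ G := mem_image.2 ⟨a, by simp, rfl⟩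
  refine ⟨G, E, ?_, hGface, hGF, hvG, ?_, ?_, ?_, ?_⟩
  · rw [hEcard]; exact (card_le_univ D).trans (by simp)
  · rw [hEcard, hG, card_image_of_injective _ he, card_subcube]
  · -- the function is constant on `G`
    intro x hx
    obtain ⟨b, hb, rfl⟩ := mem_image.1 hx
    simp only [mem_filter, mem_univ, true_and] at hb
    have h1 : ∀ j, j ∉ D → ∀ c, g (e (flip j c)) = g (e c) := by
      intro j hj c
      by_contra hcon
      apply hj
      rw [hD, mem_filter]
      refine ⟨mem_univ _, (zone_dir he hF hS hFV hne e₀ j c a).1 ?_⟩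
      exact (hg _ _ (fun h => flip_ne_self j c (he h).symm) (edge_face he hF hS j c)).2
        (fun h => hcon h.symm)
    have h2 := const_of_flip (fun c : Fin k → Bool => g (e (fun j => if j ∈ D then a j else c j)))
      ?_ b a
    · have e1 : (fun j => if j ∈ D then a j else b j) = b := by
        funext j; by_cases hj : j ∈ D
        · simp [hj, hb j hj]
        · simp [hj]
      have e2 : (fun j => if j ∈ D then a j else a j) = a := by funext j; simp
      rw [e1, e2] at h2
      exact h2
    · intro j c
      by_cases hj : j ∈ D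
      · have : (fun i => if i ∈ D then a i else flip j c i) =
            (fun i => if i ∈ D then a i else c i) := by
          funext i
          by_cases hi : i ∈ D
          · simp [hi]
          · have hij : i ≠ j := by rintro rfl; exact hi hj
            simp [hi, flip_ne hij]
        rw [this]
      · have : (fun i => if i ∈ D then a i else flip j c i) =
            flip j (fun i => if i ∈ D then a i else c i) := by
          funext i
          by_cases hij : i = j
          · subst hij; rw [flip_same]; simp [hj, flip_same]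
          · rw [flip_ne hij, flip_ne hij]
        rw [this]
        exact h1 j hj _
  · intro y hy
    obtain ⟨j, hj, rfl⟩ := mem_image.1 hy
    rw [hD, mem_filter] at hj
    exact ⟨(hF _).2 ⟨_, rfl⟩, fun h => flip_ne_self j a (he h), edge_face he hF hS j a, hj.2⟩
  · intro F' hF' hGF' hEF'
    have hint : IsFace V (F ∩ F') := hf.inter hF' ((hF _).2 ⟨a, rfl⟩) (hGF' hvG)
    obtain ⟨c, hc⟩ := (hS (F ∩ F') inter_subset_left ⟨e a, mem_inter.2 ⟨(hF _).2 ⟨a, rfl⟩,
      hGF' hvG⟩⟩).1 hint
    have hca : ∀ i, ∀ b ∈ c i, a i = b := (hc a).1 (mem_inter.2 ⟨(hF _).2 ⟨a, rfl⟩, hGF' hvG⟩)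
    have hcn : ∀ j, c j = none := by
      intro j
      cases hcj : c j with
      | none => rfl
      | some b =>
        exfalso
        have hmem : e (flip j a) ∈ F ∩ F' := by
          rw [mem_inter]
          refine ⟨(hF _).2 ⟨_, rfl⟩, ?_⟩
          by_cases hj : j ∈ D
          · exact hEF' (mem_image.2 ⟨j, hj, rfl⟩)
          · refine hGF' (mem_image.2 ⟨flip j a, ?_, rfl⟩)
            rw [mem_filter]
            refine ⟨mem_univ _, fun i hi => flip_ne ?_ a⟩
            rintro rfl; exact hj hi
        have h1 := (hc _).1 hmem j b hcj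
        have h2 := hca j b hcj
        rw [flip_same, h2] at h1
        cases b <;> simp at h1
    intro x hx
    obtain ⟨b, rfl⟩ := (hF x).1 hx
    have : e b ∈ F ∩ F' := (hc b).2 (fun i b' hb' => by rw [hcn i] at hb'; simp at hb')
    exact (mem_inter.1 this).2

end CubZ
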