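import Pool.Agent.W_f620_h46.Loc

/-! Facets at a vertex: existence, adjacent facets, coordinates. -/

namespace CubZ

open Finset

variable {d : ℕ} {V : Finset (Pt d)}

/-- `w` points into the interior of the polytope, seen from `v`. -/
def Inner (V : Finset (Pt d)) (v w : Pt d) : Prop :=
  ∀ c : Module.Dual ℝ (Pt d), (∀ y ∈ V, c y ≤ c v) → (∃ y ∈ V, c y < c v) → c w < 0

lemma inner_sum (v : Pt d) : Inner V v (∑ y ∈ V, (y - v)) := by
  intro c h1 h2
  rw [map_sum]
  refine Finset.sum_neg' (fun y hy => ?_) ?_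
  · rw [map_sub]; linarith [h1 y hy]
  · obtain ⟨y, hy, hlt⟩ := h2
    exact ⟨y, hy, by rw [map_sub]; linarith⟩

/-- Rotating a supporting hyperplane about a face. -/
lemma rotation {F : Finset (Pt d)} (hFV : F ⊆ V) {v : Pt d} (hv : v ∈ F)
    (c : Module.Dual ℝ (Pt d)) (hc1 : ∀ y ∈ F, c y = c v) (hc2 : ∀ y ∈ V, y ∉ F → c y < c v)
    (l : Module.Dual ℝ (Pt d)) (hl1 : ∀ y ∈ F, l y = l v) (hl2 : ∃ x ∈ V, l v < l x) :
    ∃ t : ℝ, 0 < t ∧ ∃ G, IsFace V G ∧ F ⊆ G ∧
      (∀ y ∈ V, y ∈ G ↔ c y + t * l y = c v + t * l v) ∧ ∃ x ∈ G, l v < l x := by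
  classical
  obtain ⟨x₀, hx₀, hx₀l⟩ := hl2
  obtain ⟨x, hx, hmin⟩ := Finset.exists_min_image (V.filter (fun x => l v < l x))
    (fun x => (c v - c x) / (l x - l v)) ⟨x₀, by simp [hx₀, hx₀l]⟩
  rw [mem_filter] at hx
  obtain ⟨hxV, hxl⟩ := hx
  have hxF : x ∉ F := fun h => by rw [hl1 x h] at hxl; exact lt_irrefl _ hxl
  set t := (c v - c x) / (l x - l v) with ht
  have htpos : 0 < t := div_pos (sub_pos.2 (hc2 x hxV hxF)) (sub_pos.2 hxl)
  have hle : ∀ y ∈ V, c y + t * l y ≤ c v + t * l v := by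
    intro y hy
    by_cases h : l v < l y
    · have h1 := hmin y (by simp [hy, h])
      rw [le_div_iff₀ (sub_pos.2 h)] at h1
      linarith
    · have h1 : c y ≤ c v := by
        by_cases hyF : y ∈ F
        · exact (hc1 y hyF).le
        · exact (hc2 y hy hyF).le
      have h2 := mul_le_mul_of_nonneg_left (not_lt.1 h) htpos.le
      linarith
  have hxeq : c x + t * l x = c v + t * l v := by
    have : t * (l x - l v) = c v - c x := by
      rw [ht]; exact div_mul_cancel₀ _ (sub_pos.2 hxl).ne'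
    linarith
  refine ⟨t, htpos, V.filter (fun y => c y + t * l y = c v + t * l v), ?_, ?_, ?_, x, ?_, hxl⟩
  · refine isFace_of (v := v) (filter_subset _ _) (by simp [hFV hv]) (c + t • l) ?_ ?_
    · intro y hy
      exact (mem_filter.1 hy).2
    · intro y hy hyn
      refine lt_of_le_of_ne (hle y hy) (fun h => hyn (mem_filter.2 ⟨hy, h⟩))
  · intro y hy
    rw [mem_filter]
    exact ⟨hFV hy, by rw [hc1 y hy, hl1 y hy]⟩
  · intro y hy
    rw [mem_filter]
    exact ⟨fun h => h.2, fun h => ⟨hy, h⟩⟩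
  · rw [mem_filter]; exact ⟨hxV, hxeq⟩

open Classical in
/-- The facets at `v`. -/
noncomputable def FV (V : Finset (Pt d)) (v : Pt d) : Finset (Finset (Pt d)) :=
  V.powerset.filter (fun F => IsFace V F ∧ F ≠ V ∧ v ∈ F ∧ F.card = 2 ^ (d - 1))

lemma mem_FV {v : Pt d} {F : Finset (Pt d)} :
    F ∈ FV V v ↔ IsFace V F ∧ F ≠ V ∧ v ∈ F ∧ F.card = 2 ^ (d - 1) := by
  classical
  rw [FV, mem_filter, mem_powerset]
  exact ⟨fun h => h.2, fun h => ⟨h.1.1, h⟩⟩

lemma span_V (hV : IsPolytope V) {f : Module.Dual ℝ (Pt d)} (hf : f ≠ 0) (v : Pt d) :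
    ∃ x ∈ V, f x ≠ f v := by
  by_contra hcon
  push Not at hcon
  apply hf
  have h1 : vectorSpan ℝ (V : Set (Pt d)) ≤ LinearMap.ker f := by
    rw [vectorSpan_def, Submodule.span_le]
    rintro _ ⟨a, ha, b, hb, rfl⟩
    show f (a -ᵥ b) = 0
    rw [vsub_eq_sub, map_sub, hcon a ha, hcon b hb, sub_self]
  rw [hV.2, top_le_iff] at h1
  ext x
  have : LinearMap.single ℝ (fun _ => ℝ) x 1 ∈ LinearMap.ker f := by rw [h1]; trivial
  simpa using this

lemma isCube_of_card' (hC : Cubical V) {F : Finset (Pt d)} (hF : IsFace V F) (hne : F ≠ V)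
    {k : ℕ} (h : F.card = 2 ^ k) : IsCube V F k ∧ fdim F = k := by
  have h1 := hC F hF hne
  have h2 := h1.card
  rw [h] at h2
  have h3 := Nat.pow_right_injective (le_refl 2) h2
  rw [h3]
  exact ⟨h1, rfl⟩

/-- Every proper face is contained in a facet. -/
lemma exists_facet (hV : IsPolytope V) (hC : Cubical V) {τ : Finset (Pt d)}
    (hτ : IsFace V τ) (hτV : τ ≠ V) {v : Pt d} (hv : v ∈ τ) : ∃ F ∈ FV V v, τ ⊆ F := by
  classical
  obtain ⟨F, hF, hmax⟩ := Finset.exists_max_image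
    (V.powerset.filter (fun F => IsFace V F ∧ F ≠ V ∧ τ ⊆ F)) (fun F => F.card)
    ⟨τ, by simp [hτ, hτV, hτ.1]⟩
  simp only [mem_filter, mem_powerset] at hF hmax
  obtain ⟨hFV, hf, hne, hτF⟩ := hF
  have hvF := hτF hv
  refine ⟨F, ?_, hτF⟩
  rw [mem_FV]
  refine ⟨hf, hne, hvF, ?_⟩
  rw [card_eq_fdim hC hf hne]
  congr 1
  by_contra hdim
  have hlt := fdim_lt hf hne
  have hlt' : fdim F + 1 < d := by omega
  obtain ⟨c, hc⟩ := hf.exists_dual
  obtain ⟨z, hz, hzF⟩ : ∃ x ∈ V, x ∉ F := by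
    by_contra hcon
    push Not at hcon
    exact hne (Finset.Subset.antisymm hf.1 hcon)
  set U : Submodule ℝ (Pt d) := vectorSpan ℝ (F : Set (Pt d)) ⊔ Submodule.span ℝ {z - v} with hU
  have hUlt : U < ⊤ := by
    rw [lt_top_iff_ne_top]
    intro h
    have h1 : Module.finrank ℝ U ≤ fdim F + 1 := by
      refine (Submodule.finrank_add_le_finrank_add_finrank _ _).trans ?_
      have : Module.finrank ℝ (Submodule.span ℝ ({z - v} : Set (Pt d))) ≤ 1 := by
        refine (finrank_span_le_card _).trans ?_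
        simp
      exact Nat.add_le_add_left this _
    rw [h, finrank_top, Module.finrank_fin_fun] at h1
    omega
  obtain ⟨f, hf0, hfU⟩ := Submodule.exists_le_ker_of_lt_top U hUlt
  have hfF : ∀ y ∈ F, f y = f v := by
    intro y hy
    have : y - v ∈ U := by
      refine Submodule.mem_sup_left ?_
      exact vsub_mem_vectorSpan ℝ hy hvF
    have := hfU this
    rw [LinearMap.mem_ker, map_sub, sub_eq_zero] at this
    exact this
  have hfz : f z = f v := by
    have : z - v ∈ U := Submodule.mem_sup_right (Submodule.mem_span_singleton_self _)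
    have := hfU this
    rw [LinearMap.mem_ker, map_sub, sub_eq_zero] at this
    exact this
  -- choose the sign
  obtain ⟨l, hlF, hlz, x, hx, hlx⟩ : ∃ l : Module.Dual ℝ (Pt d), (∀ y ∈ F, l y = l v) ∧
      l z = l v ∧ ∃ x ∈ V, l v < l x := by
    obtain ⟨x, hx, hne⟩ := span_V hV hf0 v
    rcases lt_or_gt_of_ne hne with h | h
    · exact ⟨-f, fun y hy => by simp [hfF y hy], by simp [hfz], x, hx, by simpa using h⟩
    · exact ⟨f, hfF, hfz, x, hx, h⟩
  obtain ⟨t, ht, G, hG, hFG, hGmem, x', hx', hlx'⟩ :=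
    rotation hFV hvF c (fun y hy => (hc v hvF).1 y hy) (fun y hy h => (hc v hvF).2 y hy h) l hlF
      ⟨x, hx, hlx⟩
  have hzG : z ∉ G := by
    rw [hGmem z hz, hlz]
    have := (hc v hvF).2 z hz hzF
    intro h; linarith
  have hGne : G ≠ V := fun h => hzG (by rw [h]; exact hz)
  have hx'F : x' ∉ F := fun h => by rw [hlF x' h] at hlx'; exact lt_irrefl _ hlx'
  have h1 := hmax G ⟨hG.1, hG, hGne, hτF.trans hFG⟩
  have h2 : F.card < G.card := card_lt_card ⟨hFG, fun h => hx'F (h hx')⟩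
  omega

/-- The facet on the other side of a ridge. -/
lemma exists_adj (hC : Cubical V) {v : Pt d} {F : Finset (Pt d)} (hF : F ∈ FV V v) {y : Pt d}
    (hy : y ∈ gens V F v) : ∃ G ∈ FV V v, y ∉ G ∧ ∀ τ, IsFace V τ → τ ⊆ F → v ∈ τ → y ∉ τ →
      τ ⊆ G := by
  classical
  rw [mem_FV] at hF
  obtain ⟨hf, hne, hvF, hcard⟩ := hF
  obtain ⟨hcube, hdim⟩ := isCube_of_card' hC hf hne hcard
  have hgc := card_gens hcube hvF
  obtain ⟨R, hR, hRF, hvR, hgR, hRcard⟩ := exists_sub hcube hvF (S := (gens V F v).erase y)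
    (erase_subset _ _)
  rw [card_erase_of_mem hy, hgc] at hRcard
  have hdpos : 1 ≤ d - 1 := by
    rw [← hgc]; exact card_pos.2 ⟨y, hy⟩
  have hRne : R ≠ V := by
    intro h; apply hne
    exact Finset.Subset.antisymm hf.1 (by rw [← h]; exact hRF)
  have hyR : y ∉ R := by
    intro h
    have : y ∈ gens V R v := mem_gens.2 ⟨h, (mem_gens.1 hy).2⟩
    rw [hgR] at this
    exact (notMem_erase y _) this
  obtain ⟨c, hc⟩ := hR.exists_dual
  obtain ⟨b, hb⟩ := hf.exists_dual
  obtain ⟨x₀, hx₀, hx₀F⟩ : ∃ x ∈ V, x ∉ F := by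
    by_contra hcon
    push Not at hcon
    exact hne (Finset.Subset.antisymm hf.1 hcon)
  obtain ⟨t, ht, G, hG, hRG, hGmem, x, hx, hlx⟩ :=
    rotation hR.1 hvR c (fun y hy => (hc v hvR).1 y hy) (fun y hy h => (hc v hvR).2 y hy h) (-b)
      (fun y hy => by
        simp only [LinearMap.neg_apply]; rw [(hb v hvF).1 y (hRF hy)])
      ⟨x₀, hx₀, by simpa using (hb v hvF).2 x₀ hx₀ hx₀F⟩
  have hyG : y ∉ G := by
    rw [hGmem y (hf.1 (gens_sub hy))]
    simp only [LinearMap.neg_apply]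
    rw [(hb v hvF).1 y (gens_sub hy)]
    have := (hc v hvR).2 y (hf.1 (gens_sub hy)) hyR
    intro h; linarith
  have hGne : G ≠ V := fun h => hyG (by rw [h]; exact hf.1 (gens_sub hy))
  have hxF : x ∉ F := by
    intro h
    simp only [LinearMap.neg_apply] at hlx
    rw [(hb v hvF).1 x h] at hlx
    exact lt_irrefl _ hlx
  have hRdim : fdim R = d - 1 - 1 := (isCube_of_card' hC hR hRne hRcard).2
  have hspan : vectorSpan ℝ (R : Set (Pt d)) < vectorSpan ℝ (G : Set (Pt d)) := by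
    refine lt_of_le_of_ne (vectorSpan_mono ℝ (by exact_mod_cast hRG)) (fun h => ?_)
    have h1 : x - v ∈ vectorSpan ℝ (G : Set (Pt d)) := vsub_mem_vectorSpan ℝ hx (hRG hvR)
    rw [← h] at h1
    have h2 : vectorSpan ℝ (R : Set (Pt d)) ≤ LinearMap.ker b := by
      rw [vectorSpan_def, Submodule.span_le]
      rintro _ ⟨a, ha, a', ha', rfl⟩
      show b (a -ᵥ a') = 0
      rw [vsub_eq_sub, map_sub, (hb v hvF).1 a (hRF ha), (hb v hvF).1 a' (hRF ha'), sub_self]
    have h3 := h2 h1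
    rw [LinearMap.mem_ker, map_sub, sub_eq_zero] at h3
    have h4 := (hb v hvF).2 x (hG.1 hx) hxF
    rw [h3] at h4
    exact lt_irrefl _ h4
  have hGdim : fdim G = d - 1 := by
    have h1 := Submodule.finrank_lt_finrank_of_lt hspan
    have h2 := fdim_lt hG hGne
    have h3 : fdim R < fdim G := h1
    omega
  refine ⟨G, ?_, hyG, ?_⟩
  · rw [mem_FV]
    exact ⟨hG, hGne, hRG hvR, by rw [card_eq_fdim hC hG hGne, hGdim]⟩
  · intro τ hτ hτF hvτ hyτ
    have hτne : τ ≠ V := by
      intro h; apply hne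
      exact Finset.Subset.antisymm hf.1 (by rw [← h]; exact hτF)
    refine sub_of_gens (hC τ hτ hτne) hτ hG hvτ (hRG hvR) (fun z hz => hRG ?_)
    have h1 : z ∈ (gens V F v).erase y := by
      rw [mem_erase]
      refine ⟨?_, gens_mono hτF hz⟩
      rintro rfl; exact hyτ (gens_sub hz)
    rw [← hgR] at h1
    exact gens_sub h1

/-- Normalised functional of a face. -/
lemma exists_ell {v w : Pt d} (hw : Inner V v w) {F : Finset (Pt d)} (hf : IsFace V F)
    (hne : F ≠ V) (hv : v ∈ F) : ∃ l : Module.Dual ℝ (Pt d), l w = -1 ∧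
      (∀ y ∈ F, l y = l v) ∧ ∀ y ∈ V, y ∉ F → l y < l v := by
  obtain ⟨c, hc⟩ := hf.exists_dual
  obtain ⟨z, hz, hzF⟩ : ∃ x ∈ V, x ∉ F := by
    by_contra hcon
    push Not at hcon
    exact hne (Finset.Subset.antisymm hf.1 hcon)
  have h1 : c w < 0 := by
    refine hw c (fun y hy => ?_) ⟨z, hz, (hc v hv).2 z hz hzF⟩
    by_cases hyF : y ∈ F
    · exact ((hc v hv).1 y hyF).le
    · exact ((hc v hv).2 y hy hyF).le
  refine ⟨(-(c w)⁻¹) • c, ?_, fun y hy => ?_, fun y hy hyF => ?_⟩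
  · simp only [LinearMap.smul_apply, smul_eq_mul]
    rw [neg_mul, inv_mul_cancel₀ h1.ne]
  · simp only [LinearMap.smul_apply]
    rw [(hc v hv).1 y hy]
  · simp only [LinearMap.smul_apply, smul_eq_mul]
    have h2 : 0 < -(c w)⁻¹ := neg_pos.2 (inv_lt_zero.2 h1)
    exact mul_lt_mul_of_pos_left ((hc v hv).2 y hy hyF) h2

/-- The edges of a cube at a vertex are linearly independent. -/
lemma gens_indep {v : Pt d} {F : Finset (Pt d)} {k : ℕ} (hcube : IsCube V F k) (hf : IsFace V F)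
    (hvF : v ∈ F) : LinearIndependent ℝ (fun y : gens V F v => (y : Pt d) - v) := by
  classical
  rw [linearIndependent_iff']
  intro s g hsum i hi
  obtain ⟨R, hR, hRF, hvR, hgR, hRcard⟩ := exists_sub hcube hvF
    (S := (gens V F v).erase (i : Pt d)) (erase_subset _ _)
  obtain ⟨c, hc⟩ := hR.exists_dual
  have h1 := congrArg c hsum
  rw [map_sum, map_zero, sum_eq_single i] at h1
  · rw [map_smul, smul_eq_mul] at h1
    rcases mul_eq_zero.1 h1 with h | h
    · exact h
    · exfalso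
      have hiR : (i : Pt d) ∉ R := by
        intro h
        have : (i : Pt d) ∈ gens V R v := mem_gens.2 ⟨h, (mem_gens.1 i.2).2⟩
        rw [hgR] at this
        exact (notMem_erase _ _) this
      have := (hc v hvR).2 i (hf.1 (gens_sub i.2)) hiR
      rw [map_sub] at h
      linarith
  · intro j _ hj
    have : (j : Pt d) ∈ R := by
      have h2 : (j : Pt d) ∈ (gens V F v).erase (i : Pt d) :=
        mem_erase.2 ⟨fun h => hj (Subtype.ext h), j.2⟩
      rw [← hgR] at h2
      exact gens_sub h2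
    rw [map_smul, map_sub, (hc v hvR).1 j this]; simp
  · intro h; exact absurd hi h

/-- Coordinates with respect to the edges of a facet and `w`. -/
lemma exists_rep (hC : Cubical V) {v w : Pt d} {F : Finset (Pt d)} (hF : F ∈ FV V v)
    (l : Module.Dual ℝ (Pt d)) (hlw : l w = -1) (hl : ∀ y ∈ F, l y = l v) (u : Pt d) :
    ∃ c : Pt d → ℝ, u = ∑ y ∈ gens V F v, c y • (y - v) - (l u) • w := by
  classical
  have hF' := hF
  rw [mem_FV] at hF
  obtain ⟨hf, hne, hvF, hcard⟩ := hF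
  obtain ⟨hcube, hdim⟩ := isCube_of_card' hC hf hne hcard
  have hgc := card_gens hcube hvF
  have hind := gens_indep hcube hf hvF
  have hl0 : l ≠ 0 := by
    rintro rfl; simp at hlw
  have hker : Submodule.span ℝ (Set.range (fun y : gens V F v => (y : Pt d) - v)) =
      LinearMap.ker l := by
    apply Submodule.eq_of_le_of_finrank_le
    · rw [Submodule.span_le]
      rintro _ ⟨y, rfl⟩
      show l ((y : Pt d) - v) = 0
      rw [map_sub, hl y (gens_sub y.2), sub_self]
    · rw [finrank_span_eq_card hind, Fintype.card_coe, hgc]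
      have h1 : LinearMap.ker l ≠ ⊤ := by
        intro h; exact hl0 (LinearMap.ker_eq_top.1 h)
      have h2 := Submodule.finrank_lt h1
      rw [Module.finrank_fin_fun] at h2
      omega
  have hmem : u + (l u) • w ∈ LinearMap.ker l := by
    rw [LinearMap.mem_ker, map_add, map_smul, hlw]; simp
  rw [← hker, Submodule.mem_span_range_iff_exists_fun] at hmem
  obtain ⟨c, hc⟩ := hmem
  refine ⟨fun y => if h : y ∈ gens V F v then c ⟨y, h⟩ else 0, ?_⟩
  have h1 : ∑ y ∈ gens V F v, (if h : y ∈ gens V F v then c ⟨y, h⟩ else 0) • (y - v) =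
      u + (l u) • w := by
    rw [← hc, ← Finset.sum_coe_sort]
    refine Finset.sum_congr rfl (fun y _ => ?_)
    rw [dif_pos y.2]
  rw [h1]; abel

end CubZ
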