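import Pool.Agent.W_f620_h46.Cube

/-! Vertex figures of a polytope given by its vertex set: edges and two-dimensional faces at
a vertex, in terms of a linear functional. -/

namespace CubZ

open Finset

variable {d : ℕ} {V : Finset (Pt d)}

/-- Criterion for a face. -/
lemma isFace_of {F : Finset (Pt d)} (hFV : F ⊆ V) {v : Pt d} (hv : v ∈ F)
    (c : Module.Dual ℝ (Pt d)) (h1 : ∀ y ∈ F, c y = c v) (h2 : ∀ y ∈ V, y ∉ F → c y < c v) :
    IsFace V F := by
  refine ⟨hFV, ⟨v, hv⟩, c, fun x hx => ⟨fun hxF y hy => ?_, fun h => ?_⟩⟩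
  · rw [h1 x hxF]
    by_cases hyF : y ∈ F
    · rw [h1 y hyF]
    · exact (h2 y hy hyF).le
  · by_contra hxF
    exact absurd (h v (hFV hv)) (not_le.2 (h2 x hx hxF))

/-- The functional of a face. -/
lemma IsFace.exists_dual {F : Finset (Pt d)} (h : IsFace V F) :
    ∃ c : Module.Dual ℝ (Pt d), ∀ x ∈ F, (∀ y ∈ F, c y = c x) ∧ ∀ y ∈ V, y ∉ F → c y < c x := by
  obtain ⟨hFV, -, c, hc⟩ := h
  refine ⟨c, fun x hx => ⟨fun y hy => ?_, fun y hy hyF => ?_⟩⟩
  · exact le_antisymm ((hc x (hFV hx)).1 hx y (hFV hy)) ((hc y (hFV hy)).1 hy x (hFV hx))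
  · have : ¬ ∀ z ∈ V, c z ≤ c y := fun h => hyF ((hc y hy).2 h)
    push Not at this
    obtain ⟨z, hz, hzy⟩ := this
    exact hzy.trans_le ((hc x (hFV hx)).1 hx z hz)

/-- Data: supporting functionals `A v` at all vertices, and a second functional `B v u`
at the neighbours. -/
structure Fig (V : Finset (Pt d)) where
  A : Pt d → Module.Dual ℝ (Pt d)
  hA : ∀ v ∈ V, ∀ y ∈ V, y ≠ v → A v y < A v v
  B : Pt d → Pt d → Module.Dual ℝ (Pt d)
  hB : ∀ v ∈ V, ∀ u ∈ V, u ≠ v → IsFace V {v, u} →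
    B v u v = B v u u ∧ ∀ y ∈ V, y ≠ v → y ≠ u → B v u y < B v u v

lemma exists_fig (hV : ∀ v ∈ V, IsFace V {v}) : Nonempty (Fig V) := by
  classical
  have hA : ∀ v : Pt d, ∃ a : Module.Dual ℝ (Pt d), v ∈ V → ∀ y ∈ V, y ≠ v → a y < a v := by
    intro v
    by_cases hv : v ∈ V
    · obtain ⟨c, hc⟩ := (hV v hv).exists_dual
      exact ⟨c, fun _ y hy hyv => (hc v (by simp)).2 y hy (by simpa using hyv)⟩
    · exact ⟨0, fun h => absurd h hv⟩
  have hB : ∀ v u : Pt d, ∃ b : Module.Dual ℝ (Pt d), v ∈ V → u ∈ V → u ≠ v → IsFace V {v, u} →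
      b v = b u ∧ ∀ y ∈ V, y ≠ v → y ≠ u → b y < b v := by
    intro v u
    by_cases h : v ∈ V ∧ u ∈ V ∧ u ≠ v ∧ IsFace V {v, u}
    · obtain ⟨-, -, -, hf⟩ := h
      obtain ⟨c, hc⟩ := hf.exists_dual
      refine ⟨c, fun _ _ _ _ => ⟨(hc u (by simp)).1 v (by simp), fun y hy h1 h2 => ?_⟩⟩
      exact (hc v (by simp)).2 y hy (by simp [h1, h2])
    · exact ⟨0, fun h1 h2 h3 h4 => absurd ⟨h1, h2, h3, h4⟩ h⟩
  choose A hA using hA
  choose B hB using hB
  exact ⟨⟨A, fun v hv => hA v hv, B, fun v hv u hu huv hf => hB v u hv hu huv hf⟩⟩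

namespace Fig

variable (D : Fig V)

/-- Normalised direction from `v` to `u`. -/
noncomputable def X (v u : Pt d) : Pt d := (D.A v v - D.A v u)⁻¹ • (u - v)

/-- Normalised second direction: from `X v u` to `X v y`. -/
noncomputable def Y (v u y : Pt d) : Pt d :=
  (D.B v u (D.X v u) - D.B v u (D.X v y))⁻¹ • (D.X v y - D.X v u)

variable {D} {v u y : Pt d}

lemma s_pos (hv : v ∈ V) (hy : y ∈ V) (hne : y ≠ v) : 0 < D.A v v - D.A v y :=
  sub_pos.2 (D.hA v hv y hy hne)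

lemma sub_eq (hv : v ∈ V) (hy : y ∈ V) (hne : y ≠ v) :
    y - v = (D.A v v - D.A v y) • D.X v y := by
  rw [X, smul_inv_smul₀ (s_pos hv hy hne).ne']

lemma A_X (hv : v ∈ V) (hy : y ∈ V) (hne : y ≠ v) : D.A v (D.X v y) = -1 := by
  have := (s_pos (D := D) hv hy hne).ne'
  rw [X, map_smul, map_sub, smul_eq_mul]
  field_simp
  ring

lemma X_inj (hv : v ∈ V) (hu : u ∈ V) (huv : u ≠ v) (hy : y ∈ V) (hyv : y ≠ v)
    (h : D.X v u = D.X v y) : u = y := by
  -- if the ratios differ one point lies between `v` and the other one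
  have key : ∀ p q : Pt d, p ∈ V → q ∈ V → p ≠ v → q ≠ v → D.X v p = D.X v q →
      D.A v v - D.A v p < D.A v v - D.A v q → False := by
    intro p q hp hq hpv hqv hX hlt
    have hps := s_pos (D := D) hv hp hpv
    have hqs := s_pos (D := D) hv hq hqv
    set s := D.A v v - D.A v p
    set t := D.A v v - D.A v q
    have hpq : q ≠ p := by
      rintro rfl; exact lt_irrefl _ hlt
    have h1 : D.A p v < D.A p p := D.hA p hp v hv hpv.symm
    have h2 : D.A p q < D.A p p := D.hA p hp q hq hpq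
    have e1 : p = v + s • D.X v q := by
      rw [← hX, ← sub_eq hv hp hpv]; abel
    have e2 : D.X v q = t⁻¹ • (q - v) := rfl
    have e3 : D.A p p = D.A p v + s * (t⁻¹ * (D.A p q - D.A p v)) := by
      conv_lhs => rw [e1, e2]
      simp only [map_add, map_smul, map_sub, smul_eq_mul]
      rw [← e2, ← e1]
    have e4 : t * D.A p p = t * D.A p v + s * (D.A p q - D.A p v) := by
      rw [e3]; field_simp
    nlinarith [mul_pos hps (sub_pos.2 h2), mul_pos (sub_pos.2 hlt) (sub_pos.2 h1)]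
  have h1 := key u y hu hy huv hyv h
  have h2 := key y u hy hu hyv huv h.symm
  have h3 : D.A v v - D.A v u = D.A v v - D.A v y := le_antisymm (not_lt.1 h2) (not_lt.1 h1)
  have := sub_eq (D := D) hv hu huv
  rw [h3, h, ← sub_eq hv hy hyv] at this
  exact sub_left_injective this

/-- A strict maximum on the vertex figure is an edge. -/
lemma edge_of_max (hv : v ∈ V) (hu : u ∈ V) (huv : u ≠ v) (b : Module.Dual ℝ (Pt d))
    (hb : ∀ y ∈ V, y ≠ v → y ≠ u → b (D.X v y) < b (D.X v u)) : IsFace V {v, u} := by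
  refine isFace_of (v := v) ?_ (by simp) (b + (b (D.X v u)) • D.A v) ?_ ?_
  · intro x hx; simp only [mem_insert, mem_singleton] at hx; rcases hx with rfl | rfl <;> assumption
  · intro y hy
    simp only [mem_insert, mem_singleton] at hy
    rcases hy with rfl | rfl
    · rfl
    · have h1 := sub_eq (D := D) hv hu huv
      have h2 := A_X (D := D) hv hu huv
      rw [← sub_eq_zero, ← map_sub, h1, map_smul]
      simp only [LinearMap.add_apply, LinearMap.smul_apply, smul_eq_mul]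
      rw [h2]; ring
  · intro y hy hyF
    simp only [mem_insert, mem_singleton, not_or] at hyF
    have h1 := sub_eq (D := D) hv hy hyF.1
    have h2 := A_X (D := D) hv hy hyF.1
    rw [← sub_neg, ← map_sub, h1, map_smul]
    simp only [LinearMap.add_apply, LinearMap.smul_apply, smul_eq_mul]
    rw [h2]
    have h3 := hb y hy hyF.1 hyF.2
    have h4 := s_pos (D := D) hv hy hyF.1
    nlinarith

lemma t_pos (hv : v ∈ V) (hu : u ∈ V) (huv : u ≠ v) (hf : IsFace V {v, u}) (hy : y ∈ V)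
    (hyv : y ≠ v) (hyu : y ≠ u) : 0 < D.B v u (D.X v u) - D.B v u (D.X v y) := by
  obtain ⟨h1, h2⟩ := D.hB v hv u hu huv hf
  have e1 : D.B v u (D.X v u) = 0 := by
    rw [X, map_smul, map_sub, h1]; simp
  have e2 : D.B v u (D.X v y) < 0 := by
    rw [X, map_smul, map_sub, smul_eq_mul]
    exact mul_neg_of_pos_of_neg (inv_pos.2 (s_pos hv hy hyv)) (sub_neg.2 (h2 y hy hyv hyu))
  rw [e1]; linarith

lemma X_eq (hv : v ∈ V) (hu : u ∈ V) (huv : u ≠ v) (hf : IsFace V {v, u}) (hy : y ∈ V)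
    (hyv : y ≠ v) (hyu : y ≠ u) :
    D.X v y - D.X v u = (D.B v u (D.X v u) - D.B v u (D.X v y)) • D.Y v u y := by
  rw [Y, smul_inv_smul₀ (t_pos hv hu huv hf hy hyv hyu).ne']

lemma B_Y (hv : v ∈ V) (hu : u ∈ V) (huv : u ≠ v) (hf : IsFace V {v, u}) (hy : y ∈ V)
    (hyv : y ≠ v) (hyu : y ≠ u) : D.B v u (D.Y v u y) = -1 := by
  have := (t_pos (D := D) hv hu huv hf hy hyv hyu).ne'
  rw [Y, map_smul, map_sub, smul_eq_mul]
  field_simp
  ring

/-- The two-dimensional face spanned by a strict minimum of the second figure. -/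
lemma face_of_min (hv : v ∈ V) (hu : u ∈ V) (huv : u ≠ v) (hf : IsFace V {v, u})
    (hy : y ∈ V) (hyv : y ≠ v) (hyu : y ≠ u) (l : Module.Dual ℝ (Pt d))
    (hl : ∀ w ∈ V, w ≠ v → w ≠ u → D.Y v u w ≠ D.Y v u y → l (D.Y v u y) < l (D.Y v u w)) :
    IsFace V (V.filter (fun w => w = v ∨ w = u ∨ D.Y v u w = D.Y v u y)) := by
  classical
  set z := D.Y v u y with hz
  set r := D.X v u with hr
  -- the second level functional
  set γ : Module.Dual ℝ (Pt d) := -l - (l z) • D.B v u with hγ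
  set Γ : Module.Dual ℝ (Pt d) := γ + (γ r) • D.A v with hΓ
  have hΓu : Γ (u - v) = 0 := by
    rw [sub_eq (D := D) hv hu huv, map_smul, hΓ]
    simp only [LinearMap.add_apply, LinearMap.smul_apply, smul_eq_mul]
    rw [A_X hv hu huv, ← hr]; ring
  have hΓw : ∀ w ∈ V, w ≠ v → w ≠ u → Γ (w - v) = (D.A v v - D.A v w) *
      ((D.B v u r - D.B v u (D.X v w)) * (l z - l (D.Y v u w))) := by
    intro w hw hwv hwu
    rw [sub_eq (D := D) hv hw hwv, map_smul, smul_eq_mul]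
    congr 1
    have h1 : Γ (D.X v w) = γ (D.X v w - r) := by
      rw [hΓ, map_sub]
      simp only [LinearMap.add_apply, LinearMap.smul_apply, smul_eq_mul]
      rw [A_X hv hw hwv]; ring
    rw [h1, hr, X_eq hv hu huv hf hw hwv hwu, map_smul, smul_eq_mul]
    congr 1
    rw [hγ]
    simp only [LinearMap.sub_apply, LinearMap.neg_apply, LinearMap.smul_apply, smul_eq_mul]
    rw [B_Y hv hu huv hf hw hwv hwu]; ring
  refine isFace_of (v := v) (filter_subset _ _) (by simp [hv]) Γ ?_ ?_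
  · intro w hw
    rw [mem_filter] at hw
    obtain ⟨hwV, hw⟩ := hw
    rw [← sub_eq_zero, ← map_sub]
    by_cases h1 : w = v
    · rw [h1, sub_self, map_zero]
    by_cases h2 : w = u
    · rw [h2]; exact hΓu
    have h3 : D.Y v u w = z := by tauto
    rw [hΓw w hwV h1 h2, h3]; ring
  · intro w hw hwF
    rw [mem_filter] at hwF
    push Not at hwF
    obtain ⟨h1, h2, h3⟩ := hwF hw
    rw [← sub_neg, ← map_sub, hΓw w hw h1 h2]
    have h4 := s_pos (D := D) hv hw h1
    have h5 := t_pos (D := D) hv hu huv hf hw h1 h2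
    have h6 := hl w hw h1 h2 h3
    exact mul_neg_of_pos_of_neg h4 (mul_neg_of_pos_of_neg h5 (sub_neg.2 h6))

end Fig

/-- A generic functional for the given data. -/
lemma exists_generic (D : Fig V) : ∃ l : Module.Dual ℝ (Pt d),
    (∀ x ∈ V, ∀ y ∈ V, l x = l y → x = y) ∧
    (∀ v ∈ V, ∀ x ∈ V, ∀ y ∈ V, l (D.X v x) = l (D.X v y) → D.X v x = D.X v y) ∧
    (∀ v ∈ V, ∀ u ∈ V, ∀ x ∈ V, ∀ y ∈ V, l (D.Y v u x) = l (D.Y v u y) →
      D.Y v u x = D.Y v u y) := by
  classical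
  set S : Finset (Pt d) :=
    ((V ×ˢ V).image (fun p => p.1 - p.2) ∪
      (V ×ˢ V ×ˢ V).image (fun p => D.X p.1 p.2.1 - D.X p.1 p.2.2) ∪
      (V ×ˢ V ×ˢ V ×ˢ V).image (fun p => D.Y p.1 p.2.1 p.2.2.1 - D.Y p.1 p.2.1 p.2.2.2)).erase 0
    with hS
  obtain ⟨l, hl⟩ := Module.exists_dual_forall_apply_ne_zero (K := ℝ) (M := Pt d)
    (fun x : S => (x : Pt d)) (fun x => (Finset.mem_erase.1 x.2).1)
  have key : ∀ x y : Pt d, x - y ∈ ((V ×ˢ V).image (fun p => p.1 - p.2) ∪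
      (V ×ˢ V ×ˢ V).image (fun p => D.X p.1 p.2.1 - D.X p.1 p.2.2) ∪
      (V ×ˢ V ×ˢ V ×ˢ V).image (fun p => D.Y p.1 p.2.1 p.2.2.1 - D.Y p.1 p.2.1 p.2.2.2)) →
      l x = l y → x = y := by
    intro x y hm h
    by_contra hne
    have : x - y ∈ S := Finset.mem_erase.2 ⟨sub_ne_zero.2 hne, hm⟩
    apply hl ⟨x - y, this⟩
    simp [h]
  refine ⟨l, ?_, ?_, ?_⟩
  · intro x hx y hy h
    refine key x y ?_ h
    exact mem_union_left _ (mem_union_left _ (mem_image.2 ⟨(x, y), by simp [hx, hy], rfl⟩))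
  · intro v hv x hx y hy h
    refine key _ _ ?_ h
    exact mem_union_left _ (mem_union_right _ (mem_image.2 ⟨(v, x, y), by simp [hv, hx, hy], rfl⟩))
  · intro v hv u hu x hx y hy h
    refine key _ _ ?_ h
    exact mem_union_right _ (mem_image.2 ⟨(v, u, x, y), by simp [hv, hu, hx, hy], rfl⟩)

end CubZ
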