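import Pool.Agent.W_f620_h46.Euler2

/-! The global relations between the face numbers. -/

namespace CubZ

open Finset

variable {d : ℕ} {V : Finset (Pt d)}

lemma TV_eq (v : Pt d) (k : ℕ) [DecidableEq (Pt d)] :
    TV V v k = (T V V k).filter (fun F => v ∈ F) := by
  ext F
  rw [mem_TV, mem_filter, mem_T]
  exact ⟨fun h => ⟨⟨h.1.1, h.1, h.2.1, h.2.2.2⟩, h.2.2.1⟩,
    fun h => ⟨h.1.2.1, h.1.2.2.1, h.2, h.1.2.2.2⟩⟩

/-- Double counting. -/
lemma sum_TV (k : ℕ) : ∑ v ∈ V, (TV V v k).card = 2 ^ k * (T V V k).card := by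
  classical
  simp only [TV_eq, card_filter]
  rw [sum_comm]
  have : ∀ F ∈ T V V k, ∑ v ∈ V, (if v ∈ F then 1 else 0) = 2 ^ k := by
    intro F hF
    rw [mem_T] at hF
    rw [← card_filter, ← hF.2.2.2]
    congr 1
    ext x
    rw [mem_filter]
    exact ⟨fun h => h.2, fun h => ⟨hF.1 h, h⟩⟩
  rw [sum_congr rfl this, sum_const, smul_eq_mul, mul_comm]

lemma alt_sum (D i : ℕ) (hi : i ≤ D) : ∑ k ∈ range (D + 1),
    (-1 : ℤ) ^ k * 2 ^ (D - k) * ((D - i).choose (D - k) : ℕ) = (-1) ^ i := by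
  rw [← sum_range_reflect]
  have h1 : ∀ j ∈ range (D + 1), (-1 : ℤ) ^ (D + 1 - 1 - j) * 2 ^ (D - (D + 1 - 1 - j)) *
      ((D - i).choose (D - (D + 1 - 1 - j)) : ℕ) =
      (-1) ^ D * ((-2) ^ j * ((D - i).choose j : ℕ)) := by
    intro j hj
    rw [mem_range] at hj
    have e1 : D + 1 - 1 - j = D - j := by omega
    have e2 : D - (D - j) = j := by omega
    rw [e1, e2]
    have e3 : (-1 : ℤ) ^ D = (-1) ^ (D - j) * (-1) ^ j := by
      rw [← pow_add]; congr 1; omega
    have e4 : (-2 : ℤ) ^ j = (-1) ^ j * 2 ^ j := by rw [← mul_pow]; norm_num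
    have e5 : (-1 : ℤ) ^ j * (-1) ^ j = 1 := by rw [← mul_pow]; norm_num
    rw [e3, e4]
    linear_combination (-((-1 : ℤ) ^ (D - j) * 2 ^ j * ((D - i).choose j : ℕ))) * e5
  rw [sum_congr rfl h1, ← mul_sum]
  have h2 : ∑ j ∈ range (D + 1), (-2 : ℤ) ^ j * ((D - i).choose j : ℕ) = (-1) ^ (D - i) := by
    have h3 := add_pow (-2 : ℤ) 1 (D - i)
    have h4 : (-2 + 1 : ℤ) = -1 := by norm_num
    rw [h4] at h3
    rw [h3]
    symm
    refine (sum_congr rfl (fun j _ => by rw [one_pow, mul_one])).trans ?_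
    refine sum_subset (range_subset_range.2 (by omega)) (fun j _ hj => ?_)
    rw [Nat.choose_eq_zero_of_lt (by simpa using hj)]; simp
  rw [h2, ← pow_add]
  have e6 : D + (D - i) = 2 * (D - i) + i := by omega
  rw [e6, pow_add, pow_mul]; norm_num

/-- The relations. -/
theorem relations (hd : 1 ≤ d) (hV : IsPolytope V) (hC : Cubical V) :
    ∃ H : ℕ → ℕ,
      (∀ k ≤ d - 1, 2 ^ k * (T V V k).card = ∑ i ∈ range d, (d - 1 - i).choose (d - 1 - k) * H i) ∧
      (∀ k ≤ d - 1, 2 ^ k * (T V V k).card = ∑ i ∈ range d, i.choose (d - 1 - k) * H i) ∧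
      ∑ i ∈ range d, (-1 : ℤ) ^ i * H i = 2 ^ (d - 1) * (1 + (-1) ^ (d - 1)) := by
  classical
  -- a generic direction at every vertex
  obtain ⟨f, hf⟩ : ∃ f : Module.Dual ℝ (Pt d), f ≠ 0 := by
    refine ⟨LinearMap.proj ⟨0, hd⟩, fun h => ?_⟩
    have := LinearMap.congr_fun h (fun _ => (1 : ℝ))
    simp at this
  have hL : ∀ v : Pt d, ∃ L : Loc V v (∑ y ∈ V, (y - v)), f L.u < 0 := fun v =>
    exists_loc hC (inner_sum v) hf
  choose L _ using hL
  have hle : ∀ v, ∀ F ∈ FV V v, ((L v).nf F).card ∈ range d := fun v F hF => by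
    have := card_nf_le hC (L v) hF
    rw [mem_range]; omega
  set H : ℕ → ℕ := fun i => ∑ v ∈ V, ((FV V v).filter (fun F => ((L v).nf F).card = i)).card
    with hH
  have hsum : ∀ g : ℕ → ℕ, ∑ v ∈ V, ∑ F ∈ FV V v, g ((L v).nf F).card =
      ∑ i ∈ range d, g i * H i := by
    intro g
    have h1 : ∀ v ∈ V, ∑ F ∈ FV V v, g ((L v).nf F).card =
        ∑ i ∈ range d, g i * ((FV V v).filter (fun F => ((L v).nf F).card = i)).card := by
      intro v _
      rw [← sum_fiberwise_of_maps_to (g := fun F => ((L v).nf F).card) (t := range d)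
        (fun F hF => hle v F hF)]
      refine sum_congr rfl (fun i _ => ?_)
      rw [sum_congr rfl (g := fun _ => g i), sum_const, smul_eq_mul, mul_comm]
      intro F hF
      rw [(mem_filter.1 hF).2]
    rw [sum_congr rfl h1, sum_comm]
    refine sum_congr rfl (fun i _ => ?_)
    rw [hH, mul_sum]
  have hA : ∀ k ≤ d - 1, 2 ^ k * (T V V k).card =
      ∑ i ∈ range d, (d - 1 - i).choose (d - 1 - k) * H i := by
    intro k hk
    rw [← sum_TV, ← hsum]
    exact sum_congr rfl (fun v _ => card_TV hV hC (L v) hk)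
  refine ⟨H, hA, ?_, ?_⟩
  · intro k hk
    rw [← sum_TV, ← hsum (fun i => i.choose (d - 1 - k))]
    exact sum_congr rfl (fun v _ => card_TV' hV hC (L v) hk)
  · -- Euler
    have hE := euler hd hV hC
    have hfib : ∑ τ ∈ Pr V, (-1 : ℤ) ^ fdim τ = ∑ k ∈ range d, (-1 : ℤ) ^ k * (T V V k).card := by
      rw [← sum_fiberwise_of_maps_to (g := fdim) (t := range d)
        (fun τ hτ => mem_range.2 (fdim_lt (mem_Pr.1 hτ).1 (mem_Pr.1 hτ).2))]
      refine sum_congr rfl (fun k _ => ?_)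
      have : (Pr V).filter (fun τ => fdim τ = k) = T V V k := by
        ext τ
        rw [mem_filter, mem_Pr, mem_T]
        constructor
        · rintro ⟨⟨h1, h2⟩, h3⟩
          exact ⟨h1.1, h1, h2, by rw [card_eq_fdim hC h1 h2, h3]⟩
        · rintro ⟨_, h1, h2, h3⟩
          exact ⟨⟨h1, h2⟩, (isCube_of_card' hC h1 h2 h3).2⟩
      rw [← this, sum_congr rfl (g := fun _ => (-1 : ℤ) ^ k), sum_const, nsmul_eq_mul, mul_comm]
      intro τ hτ
      rw [(mem_filter.1 hτ).2]
    rw [hfib] at hE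
    rw [← hE, mul_sum]
    have hd' : range d = range (d - 1 + 1) := by congr 1; omega
    symm
    calc ∑ k ∈ range d, (2 : ℤ) ^ (d - 1) * ((-1) ^ k * (T V V k).card)
        = ∑ k ∈ range d, (-1 : ℤ) ^ k * 2 ^ (d - 1 - k) * ((2 ^ k * (T V V k).card : ℕ) : ℤ) := by
          refine sum_congr rfl (fun k hk => ?_)
          have : d - 1 = (d - 1 - k) + k := by have := mem_range.1 hk; omega
          conv_lhs => rw [this, pow_add]
          push_cast; ring
      _ = ∑ k ∈ range d, ∑ i ∈ range d, (-1 : ℤ) ^ k * 2 ^ (d - 1 - k) *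
            ((d - 1 - i).choose (d - 1 - k) : ℕ) * H i := by
          refine sum_congr rfl (fun k hk => ?_)
          rw [hA k (by have := mem_range.1 hk; omega)]
          push_cast
          rw [mul_sum]
          refine sum_congr rfl (fun i _ => by ring)
      _ = ∑ i ∈ range d, (-1 : ℤ) ^ i * H i := by
          rw [sum_comm]
          refine sum_congr rfl (fun i hi => ?_)
          rw [← sum_mul, hd', alt_sum (d - 1) i (by have := mem_range.1 hi; omega)]

end CubZ
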