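import Pool.Agent.W_f620_h46.Face

/-! The faces of a cubical polytope at a vertex. -/

namespace CubZ

open Finset

variable {d : ℕ} {V : Finset (Pt d)}

open Classical in
/-- The neighbours of `v` in `F`. -/
noncomputable def gens (V F : Finset (Pt d)) (v : Pt d) : Finset (Pt d) :=
  F.filter (fun y => y ≠ v ∧ IsFace V {v, y})

lemma mem_gens {F : Finset (Pt d)} {v y : Pt d} :
    y ∈ gens V F v ↔ y ∈ F ∧ y ≠ v ∧ IsFace V {v, y} := by
  classical
  simp [gens]

lemma gens_sub {F : Finset (Pt d)} {v : Pt d} : gens V F v ⊆ F := fun _ hy => (mem_gens.1 hy).1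

lemma gens_mono {F G : Finset (Pt d)} (h : F ⊆ G) {v : Pt d} : gens V F v ⊆ gens V G v :=
  fun _ hy => mem_gens.2 ⟨h (mem_gens.1 hy).1, (mem_gens.1 hy).2⟩

section chart

variable {F : Finset (Pt d)} {k : ℕ} {e : (Fin k → Bool) → Pt d}
  (he : Function.Injective e) (hF : ∀ x, x ∈ F ↔ ∃ a, e a = x)
  (hS : ∀ S ⊆ F, S.Nonempty → (IsFace V S ↔
      ∃ c : Fin k → Option Bool, ∀ a, e a ∈ S ↔ ∀ i, ∀ b ∈ c i, a i = b))
include he hF hS

lemma mem_gens_chart (a : Fin k → Bool) (y : Pt d) :
    y ∈ gens V F (e a) ↔ ∃ j, y = e (flip j a) := by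
  rw [mem_gens]
  constructor
  · rintro ⟨hy, hne, hf⟩
    obtain ⟨b, rfl⟩ := (hF y).1 hy
    obtain ⟨j, hj⟩ := exists_flip he hF hS (a := a) (b := b) (fun h => hne (by rw [h])) hf
    exact ⟨j, by rw [hj]⟩
  · rintro ⟨j, rfl⟩
    exact ⟨(hF _).2 ⟨_, rfl⟩, fun h => flip_ne_self j a (he h), edge_face he hF hS j a⟩

end chart

lemma flip_inj_idx {k : ℕ} {i j : Fin k} {a : Fin k → Bool} (h : flip i a = flip j a) : i = j := by
  by_contra hne
  have := congrFun h i
  rw [flip_same, flip_ne hne] at this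
  cases h' : a i <;> simp [h'] at this

/-- A `k`-cube has `k` edges at each vertex. -/
lemma card_gens {F : Finset (Pt d)} {k : ℕ} (hc : IsCube V F k) {v : Pt d} (hv : v ∈ F) :
    (gens V F v).card = k := by
  classical
  obtain ⟨e, he, hF, hS⟩ := hc
  obtain ⟨a, rfl⟩ := (hF v).1 hv
  have : gens V F (e a) = Finset.univ.image (fun j => e (flip j a)) := by
    ext y
    rw [mem_gens_chart he hF hS, mem_image]
    simp [eq_comm]
  rw [this, card_image_of_injective _ (fun i j h => flip_inj_idx (he h))]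
  simp

/-- Every set of edges of a cube at a vertex spans a face. -/
lemma exists_sub {F : Finset (Pt d)} {k : ℕ} (hc : IsCube V F k) {v : Pt d} (hv : v ∈ F)
    {S : Finset (Pt d)} (hSub : S ⊆ gens V F v) :
    ∃ G, IsFace V G ∧ G ⊆ F ∧ v ∈ G ∧ gens V G v = S ∧ G.card = 2 ^ S.card := by
  classical
  obtain ⟨e, he, hF, hS⟩ := hc
  obtain ⟨a, rfl⟩ := (hF v).1 hv
  set D : Finset (Fin k) := Finset.univ.filter (fun j => e (flip j a) ∉ S) with hD
  have hinj : Function.Injective (fun j : Fin k => e (flip j a)) :=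
    fun i j h => flip_inj_idx (he h)
  set G : Finset (Pt d) := (Finset.univ.filter (fun b : Fin k → Bool => ∀ j ∈ D, b j = a j)).image e
    with hG
  have hGface : IsFace V G := by
    have h := sub_face he hF hS (fun j => if j ∈ D then some (a j) else none)
    convert h using 1
    rw [hG]
    congr 1
    apply filter_congr
    intro b _
    refine forall_congr' (fun j => ?_)
    by_cases hj : j ∈ D <;> simp [hj]
  have hGF : G ⊆ F := by
    intro x hx
    obtain ⟨b, -, rfl⟩ := mem_image.1 hx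
    exact (hF _).2 ⟨b, rfl⟩
  have hvG : e a ∈ G := mem_image.2 ⟨a, by simp, rfl⟩
  have hmemG : ∀ j, e (flip j a) ∈ G ↔ e (flip j a) ∈ S := by
    intro j
    rw [hG, mem_image]
    constructor
    · rintro ⟨b, hb, hbe⟩
      by_contra hcon
      have hjD : j ∈ D := by rw [hD, mem_filter]; exact ⟨mem_univ _, hcon⟩
      have h1 := (mem_filter.1 hb).2 j hjD
      rw [he hbe, flip_same] at h1
      cases h' : a j <;> simp [h'] at h1
    · intro h
      refine ⟨flip j a, ?_, rfl⟩
      rw [mem_filter]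
      refine ⟨mem_univ _, fun i hi => flip_ne ?_ a⟩
      rintro rfl
      rw [hD, mem_filter] at hi
      exact hi.2 h
  have hgen : gens V G (e a) = S := by
    ext y
    constructor
    · intro hy
      obtain ⟨j, rfl⟩ := (mem_gens_chart he hF hS a y).1 (gens_mono hGF hy)
      exact (hmemG j).1 (gens_sub hy)
    · intro hy
      obtain ⟨j, rfl⟩ := (mem_gens_chart he hF hS a y).1 (hSub hy)
      rw [mem_gens]
      exact ⟨(hmemG j).2 hy, (mem_gens.1 (hSub hy)).2⟩
  refine ⟨G, hGface, hGF, hvG, hgen, ?_⟩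
  rw [hG, card_image_of_injective _ he, card_subcube]
  congr 1
  have h1 : S = (Finset.univ.filter (fun j => e (flip j a) ∈ S)).image
      (fun j : Fin k => e (flip j a)) := by
    ext y
    rw [mem_image]
    constructor
    · intro hy
      obtain ⟨j, rfl⟩ := (mem_gens_chart he hF hS a y).1 (hSub hy)
      exact ⟨j, by simp [hy], rfl⟩
    · rintro ⟨j, hj, rfl⟩
      exact (mem_filter.1 hj).2
  have h2 : S.card = (Finset.univ.filter (fun j : Fin k => e (flip j a) ∈ S)).card := by
    conv_lhs => rw [h1]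
    exact card_image_of_injective _ hinj
  have h3 := card_filter_add_card_filter_not (s := (Finset.univ : Finset (Fin k)))
    (fun j => e (flip j a) ∈ S)
  rw [card_univ, Fintype.card_fin] at h3
  have h4 : D.card = (Finset.univ.filter (fun j : Fin k => ¬ e (flip j a) ∈ S)).card := rfl
  omega

/-- A face which contains the neighbours contains the cube. -/
lemma sub_of_gens {F G : Finset (Pt d)} {k : ℕ} (hc : IsCube V F k) (hf : IsFace V F)
    (hG : IsFace V G) {v : Pt d} (hv : v ∈ F) (hvG : v ∈ G) (h : gens V F v ⊆ G) : F ⊆ G := by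
  classical
  obtain ⟨e, he, hF, hS⟩ := hc
  obtain ⟨a, rfl⟩ := (hF v).1 hv
  have hint : IsFace V (F ∩ G) := hf.inter hG hv hvG
  have hmem : e a ∈ F ∩ G := mem_inter.2 ⟨hv, hvG⟩
  obtain ⟨c, hc⟩ := (hS (F ∩ G) inter_subset_left ⟨e a, hmem⟩).1 hint
  have hca : ∀ i, ∀ b ∈ c i, a i = b := (hc a).1 hmem
  have hcn : ∀ j, c j = none := by
    intro j
    cases hcj : c j with
    | none => rfl
    | some b =>
      exfalso
      have hm : e (flip j a) ∈ F ∩ G := by
        rw [mem_inter]
        exact ⟨(hF _).2 ⟨_, rfl⟩, h ((mem_gens_chart he hF hS a _).2 ⟨j, rfl⟩)⟩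
      have h1 := (hc _).1 hm j b hcj
      have h2 := hca j b hcj
      rw [flip_same, h2] at h1
      cases b <;> simp at h1
  intro x hx
  obtain ⟨b, rfl⟩ := (hF x).1 hx
  have : e b ∈ F ∩ G := (hc b).2 (fun i b' hb' => by rw [hcn i] at hb'; simp at hb')
  exact (mem_inter.1 this).2

/-- The dimension of a face is at least its number of edges at a vertex, and a functional
on the face. -/
lemma card_eq_fdim (hC : Cubical V) {F : Finset (Pt d)} (hF : IsFace V F) (hne : F ≠ V) :
    F.card = 2 ^ fdim F := (hC F hF hne).card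

/-- A proper face is not full-dimensional. -/
lemma fdim_lt {F : Finset (Pt d)} (hF : IsFace V F) (hne : F ≠ V) :
    fdim F < d := by
  obtain ⟨c, hc⟩ := hF.exists_dual
  obtain ⟨v, hv⟩ := hF.2.1
  obtain ⟨x, hx, hxF⟩ : ∃ x ∈ V, x ∉ F := by
    by_contra hcon
    push Not at hcon
    exact hne (Finset.Subset.antisymm hF.1 hcon)
  have h1 : vectorSpan ℝ (F : Set (Pt d)) ≤ LinearMap.ker c := by
    rw [vectorSpan_def, Submodule.span_le]
    rintro _ ⟨a, ha, b, hb, rfl⟩
    show c (a -ᵥ b) = 0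
    rw [vsub_eq_sub, map_sub, (hc v hv).1 a ha, (hc v hv).1 b hb, sub_self]
  have h2 : LinearMap.ker c < ⊤ := by
    rw [lt_top_iff_ne_top]
    intro h
    have h3 := (hc v hv).2 x hx hxF
    have h4 : c x = 0 := by
      have : x ∈ LinearMap.ker c := by rw [h]; trivial
      exact this
    have h5 : c v = 0 := by
      have : v ∈ LinearMap.ker c := by rw [h]; trivial
      exact this
    rw [h4, h5] at h3
    exact lt_irrefl _ h3
  calc fdim F ≤ Module.finrank ℝ (LinearMap.ker c) := Submodule.finrank_mono h1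
    _ < Module.finrank ℝ (Pt d) := Submodule.finrank_lt h2.ne
    _ = d := Module.finrank_fin_fun ℝ

end CubZ
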