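import Pool.Agent.W_f620_h46.Facet

/-! The partition of the faces at a vertex by a generic direction, and the symmetric
counting formulas (Dehn-Sommerville relations of the vertex figures). -/

namespace CubZ

open Finset

variable {d : ℕ} {V : Finset (Pt d)}

/-- Coordinate functional of an edge in a facet. -/
lemma exists_psi (hC : Cubical V) {v w : Pt d} {F : Finset (Pt d)} (hF : F ∈ FV V v)
    (l : Module.Dual ℝ (Pt d)) (hlw : l w = -1) (hl : ∀ y ∈ F, l y = l v) {y : Pt d}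
    (hy : y ∈ gens V F v) : ∃ p : Module.Dual ℝ (Pt d), p (y - v) = 1 ∧ p w = 0 ∧
      ∀ z ∈ gens V F v, z ≠ y → p (z - v) = 0 := by
  classical
  rw [mem_FV] at hF
  obtain ⟨hf, hne, hvF, hcard⟩ := hF
  obtain ⟨hcube, hdim⟩ := isCube_of_card' hC hf hne hcard
  obtain ⟨R, hR, hRF, hvR, hgR, hRcard⟩ := exists_sub hcube hvF
    (S := (gens V F v).erase y) (erase_subset _ _)
  obtain ⟨c, hc⟩ := hR.exists_dual
  have hyR : y ∉ R := by
    intro h
    have : y ∈ gens V R v := mem_gens.2 ⟨h, (mem_gens.1 hy).2⟩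
    rw [hgR] at this
    exact (notMem_erase _ _) this
  have h1 : c (y - v) < 0 := by
    have := (hc v hvR).2 y (hf.1 (gens_sub hy)) hyR
    rw [map_sub]; linarith
  refine ⟨(c (y - v))⁻¹ • (c + (c w) • l), ?_, ?_, ?_⟩
  · have : l (y - v) = 0 := by rw [map_sub, hl y (gens_sub hy), sub_self]
    simp only [LinearMap.smul_apply, LinearMap.add_apply, smul_eq_mul]
    rw [this, mul_zero, add_zero, inv_mul_cancel₀ h1.ne]
  · simp only [LinearMap.smul_apply, LinearMap.add_apply, smul_eq_mul]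
    rw [hlw]; ring
  · intro z hz hzy
    have h2 : l (z - v) = 0 := by rw [map_sub, hl z (gens_sub hz), sub_self]
    have h3 : z ∈ R := by
      have : z ∈ (gens V F v).erase y := mem_erase.2 ⟨hzy, hz⟩
      rw [← hgR] at this
      exact gens_sub this
    have h4 : c (z - v) = 0 := by rw [map_sub, (hc v hvR).1 z h3, sub_self]
    simp only [LinearMap.smul_apply, LinearMap.add_apply, smul_eq_mul]
    rw [h2, h4]; ring

/-- A generic direction at `v` with its coordinates in the facets at `v`. -/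
structure Loc (V : Finset (Pt d)) (v w : Pt d) where
  u : Pt d
  l : Finset (Pt d) → Module.Dual ℝ (Pt d)
  c : Finset (Pt d) → Pt d → ℝ
  hl : ∀ F ∈ FV V v, l F w = -1 ∧ (∀ y ∈ F, l F y = l F v) ∧ ∀ y ∈ V, y ∉ F → l F y < l F v
  hu : ∀ F ∈ FV V v, u = ∑ y ∈ gens V F v, c F y • (y - v) - (l F u) • w
  hc : ∀ F ∈ FV V v, ∀ y ∈ gens V F v, c F y ≠ 0

lemma exists_loc (hC : Cubical V) {v w : Pt d} (hw : Inner V v w)
    {f : Module.Dual ℝ (Pt d)} (hf : f ≠ 0) : ∃ L : Loc V v w, f L.u < 0 := by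
  classical
  have hl : ∀ F : Finset (Pt d), ∃ l : Module.Dual ℝ (Pt d), F ∈ FV V v → l w = -1 ∧
      (∀ y ∈ F, l y = l v) ∧ ∀ y ∈ V, y ∉ F → l y < l v := by
    intro F
    by_cases hF : F ∈ FV V v
    · have hF' := mem_FV.1 hF
      obtain ⟨l, h⟩ := exists_ell hw hF'.1 hF'.2.1 hF'.2.2.1
      exact ⟨l, fun _ => h⟩
    · exact ⟨0, fun h => absurd h hF⟩
  choose l hl using hl
  have hp : ∀ q : (Σ _ : Finset (Pt d), Pt d), ∃ p : Module.Dual ℝ (Pt d),
      q ∈ (FV V v).sigma (fun F => gens V F v) → p (q.2 - v) = 1 ∧ p w = 0 ∧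
      ∀ z ∈ gens V q.1 v, z ≠ q.2 → p (z - v) = 0 := by
    rintro ⟨F, y⟩
    by_cases hq : (⟨F, y⟩ : Σ _ : Finset (Pt d), Pt d) ∈ (FV V v).sigma (fun F => gens V F v)
    · obtain ⟨h1, h2⟩ := mem_sigma.1 hq
      obtain ⟨p, h⟩ := exists_psi hC h1 (l F) (hl F h1).1 (hl F h1).2.1 h2
      exact ⟨p, fun _ => h⟩
    · exact ⟨0, fun h => absurd h hq⟩
  choose p hp using hp
  obtain ⟨u, hu⟩ := Module.Dual.exists_forall_ne_zero_of_forall_exists (K := ℝ) (M := Pt d)
    (fun i : Option ((FV V v).sigma (fun F => gens V F v)) =>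
      (i.elim f (fun q => p q.1) : Module.Dual ℝ (Pt d))) (by
      rintro (_ | q)
      · by_contra hcon
        push Not at hcon
        exact hf (LinearMap.ext hcon)
      · refine ⟨q.1.2 - v, ?_⟩
        show p q.1 (q.1.2 - v) ≠ 0
        rw [(hp q.1 q.2).1]; exact one_ne_zero)
  -- choose the sign of `u`
  obtain ⟨u, hfu, hpu⟩ : ∃ u, f u < 0 ∧ ∀ q ∈ (FV V v).sigma (fun F => gens V F v), p q u ≠ 0 := by
    have h1 : f u ≠ 0 := hu none
    have h2 : ∀ q ∈ (FV V v).sigma (fun F => gens V F v), p q u ≠ 0 := fun q hq =>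
      hu (some ⟨q, hq⟩)
    rcases lt_or_gt_of_ne h1 with h | h
    · exact ⟨u, h, h2⟩
    · refine ⟨-u, by rw [map_neg]; linarith, fun q hq => ?_⟩
      rw [map_neg]; exact neg_ne_zero.2 (h2 q hq)
  have hrep : ∀ F : Finset (Pt d), ∃ c : Pt d → ℝ, F ∈ FV V v →
      u = ∑ y ∈ gens V F v, c y • (y - v) - (l F u) • w := by
    intro F
    by_cases hF : F ∈ FV V v
    · obtain ⟨c, h⟩ := exists_rep hC hF (l F) (hl F hF).1 (hl F hF).2.1 u
      exact ⟨c, fun _ => h⟩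
    · exact ⟨0, fun h => absurd h hF⟩
  choose c hc using hrep
  refine ⟨⟨u, l, c, hl, hc, fun F hF y hy => ?_⟩, hfu⟩
  have hq : (⟨F, y⟩ : Σ _ : Finset (Pt d), Pt d) ∈ (FV V v).sigma (fun F => gens V F v) :=
    mem_sigma.2 ⟨hF, hy⟩
  obtain ⟨p1, p2, p3⟩ := hp _ hq
  have h1 := congrArg (p ⟨F, y⟩) (hc F hF)
  rw [map_sub, map_sum, map_smul, p2, smul_zero, sub_zero, sum_eq_single y] at h1
  · rw [map_smul, p1, smul_eq_mul, mul_one] at h1
    rw [← h1]; exact hpu _ hq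
  · intro z hz hzy
    rw [map_smul, p3 z hz hzy, smul_zero]
  · intro h; exact absurd hy h

namespace Loc

variable {v w : Pt d}

/-- the opposite direction -/
def neg (L : Loc V v w) : Loc V v w where
  u := -L.u
  l := L.l
  c := fun F y => - L.c F y
  hl := L.hl
  hu := by
    intro F hF
    conv_lhs => rw [L.hu F hF]
    rw [map_neg]
    simp only [neg_smul, Finset.sum_neg_distrib]
    abel
  hc := fun F hF y hy => neg_ne_zero.2 (L.hc F hF y hy)

open Classical in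
/-- The edges of the facet `F` with negative coordinate. -/
noncomputable def nf (L : Loc V v w) (F : Finset (Pt d)) : Finset (Pt d) :=
  (gens V F v).filter (fun y => L.c F y < 0)

lemma nf_sub (L : Loc V v w) (F : Finset (Pt d)) : L.nf F ⊆ gens V F v := by
  classical
  exact filter_subset _ _

lemma val (L : Loc V v w) {F G : Finset (Pt d)} (hF : F ∈ FV V v) (hG : G ∈ FV V v) :
    L.l G L.u = ∑ y ∈ gens V F v, L.c F y * (L.l G y - L.l G v) + L.l F L.u := by
  have h1 := congrArg (L.l G) (L.hu F hF)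
  rw [map_sub, map_sum, map_smul, (L.hl G hG).1] at h1
  simp only [map_smul, map_sub, smul_eq_mul] at h1
  linarith

/-- Every face at `v` has a unique facet in which all missing edges have positive
coordinate: existence. -/
lemma exists_F (L : Loc V v w) (hV : IsPolytope V) (hC : Cubical V) {τ : Finset (Pt d)}
    (hτ : IsFace V τ) (hτV : τ ≠ V) (hv : v ∈ τ) :
    ∃ F ∈ FV V v, τ ⊆ F ∧ ∀ y ∈ gens V F v, y ∉ τ → 0 < L.c F y := by
  classical
  obtain ⟨F₀, hF₀, hτF₀⟩ := exists_facet hV hC hτ hτV hv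
  obtain ⟨F, hF, hmax⟩ := Finset.exists_max_image ((FV V v).filter (fun F => τ ⊆ F))
    (fun F => L.l F L.u) ⟨F₀, by simp [hF₀, hτF₀]⟩
  rw [mem_filter] at hF
  refine ⟨F, hF.1, hF.2, fun y hy hyτ => ?_⟩
  refine lt_of_le_of_ne (not_lt.1 (fun hneg => ?_)) (L.hc F hF.1 y hy).symm
  obtain ⟨G, hG, hyG, hadj⟩ := exists_adj hC hF.1 hy
  have hτG : τ ⊆ G := hadj τ hτ hF.2 hv hyτ
  have h1 := hmax G (mem_filter.2 ⟨hG, hτG⟩)
  rw [L.val hF.1 hG, sum_eq_single y] at h1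
  · have h2 := (L.hl G hG).2.2 y ((mem_FV.1 hF.1).1.1 (gens_sub hy)) hyG
    have := mul_pos_of_neg_of_neg hneg (sub_neg.2 h2)
    linarith
  · intro z hz hzy
    -- `z` is in `G`
    have hF' := mem_FV.1 hF.1
    obtain ⟨hcube, -⟩ := isCube_of_card' hC hF'.1 hF'.2.1 hF'.2.2.2
    have hzf := (mem_gens.1 hz).2.2
    have hzG : z ∈ G := by
      refine hadj {v, z} hzf ?_ (by simp) ?_ (by simp)
      · intro x hx
        simp only [mem_insert, mem_singleton] at hx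
        rcases hx with rfl | rfl
        · exact hF'.2.2.1
        · exact gens_sub hz
      · simp only [mem_insert, mem_singleton, not_or]
        exact ⟨(mem_gens.1 hy).2.1, fun h => hzy h.symm⟩
    rw [(L.hl G hG).2.1 z hzG, sub_self, mul_zero]
  · intro h; exact absurd hy h

/-- Uniqueness. -/
lemma unique_F (L : Loc V v w) (hC : Cubical V) {τ F G : Finset (Pt d)}
    (hF : F ∈ FV V v) (hG : G ∈ FV V v) (hτF : τ ⊆ F) (hτG : τ ⊆ G)
    (h1 : ∀ y ∈ gens V F v, y ∉ τ → 0 < L.c F y) (h2 : ∀ y ∈ gens V G v, y ∉ τ → 0 < L.c G y) :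
    F = G := by
  classical
  have key : ∀ F G : Finset (Pt d), F ∈ FV V v → G ∈ FV V v → τ ⊆ F → τ ⊆ G →
      (∀ y ∈ gens V F v, y ∉ τ → 0 < L.c F y) →
      ∀ y ∈ gens V F v, L.c F y * (L.l G y - L.l G v) ≤ 0 := by
    intro F G hF hG hτF hτG h1 y hy
    by_cases hyτ : y ∈ τ
    · rw [(L.hl G hG).2.1 y (hτG hyτ), sub_self, mul_zero]
    · have h3 := h1 y hy hyτ
      by_cases hyG : y ∈ G
      · rw [(L.hl G hG).2.1 y hyG, sub_self, mul_zero]
      · have h4 := (L.hl G hG).2.2 y ((mem_FV.1 hF).1.1 (gens_sub hy)) hyG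
        exact (mul_neg_of_pos_of_neg h3 (sub_neg.2 h4)).le
  have k1 := key F G hF hG hτF hτG h1
  have k2 := key G F hG hF hτG hτF h2
  have e1 := L.val hF hG
  have e2 := L.val hG hF
  have s1 : ∑ y ∈ gens V F v, L.c F y * (L.l G y - L.l G v) ≤ 0 := sum_nonpos k1
  have s2 : ∑ y ∈ gens V G v, L.c G y * (L.l F y - L.l F v) ≤ 0 := sum_nonpos k2
  have s3 : ∑ y ∈ gens V F v, L.c F y * (L.l G y - L.l G v) = 0 := by linarith
  have hz := (sum_eq_zero_iff_of_nonpos k1).1 s3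
  have hF' := mem_FV.1 hF
  have hG' := mem_FV.1 hG
  obtain ⟨hcube, -⟩ := isCube_of_card' hC hF'.1 hF'.2.1 hF'.2.2.2
  have hsub : F ⊆ G := by
    refine sub_of_gens hcube hF'.1 hG'.1 hF'.2.2.1 hG'.2.2.1 (fun y hy => ?_)
    by_contra hyG
    have h4 := (L.hl G hG).2.2 y (hF'.1.1 (gens_sub hy)) hyG
    rcases mul_eq_zero.1 (hz y hy) with h | h
    · exact L.hc F hF y hy h
    · linarith
  exact eq_of_subset_of_card_le hsub (by rw [hF'.2.2.2, hG'.2.2.2])

end Loc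

open Classical in
/-- The proper faces with `2^k` vertices at `v`. -/
noncomputable def TV (V : Finset (Pt d)) (v : Pt d) (k : ℕ) : Finset (Finset (Pt d)) :=
  V.powerset.filter (fun F => IsFace V F ∧ F ≠ V ∧ v ∈ F ∧ F.card = 2 ^ k)

lemma mem_TV {v : Pt d} {k : ℕ} {F : Finset (Pt d)} :
    F ∈ TV V v k ↔ IsFace V F ∧ F ≠ V ∧ v ∈ F ∧ F.card = 2 ^ k := by
  classical
  rw [TV, mem_filter, mem_powerset]
  exact ⟨fun h => h.2, fun h => ⟨h.1.1, h⟩⟩

/-- Faces at `v` with the same edges at `v` are equal. -/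
lemma gens_inj (hC : Cubical V) {v : Pt d} {F G : Finset (Pt d)} (hF : IsFace V F) (hFV : F ≠ V)
    (hG : IsFace V G) (hGV : G ≠ V) (hvF : v ∈ F) (hvG : v ∈ G)
    (h : gens V F v = gens V G v) : F = G := by
  apply Finset.Subset.antisymm
  · exact sub_of_gens (hC F hF hFV) hF hG hvF hvG (by rw [h]; exact gens_sub)
  · exact sub_of_gens (hC G hG hGV) hG hF hvG hvF (by rw [← h]; exact gens_sub)

/-- The counting formula. -/
theorem card_TV (hV : IsPolytope V) (hC : Cubical V) {v w : Pt d} (L : Loc V v w) {k : ℕ}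
    (hk : k ≤ d - 1) : (TV V v k).card =
      ∑ F ∈ FV V v, (d - 1 - (L.nf F).card).choose (d - 1 - k) := by
  classical
  have hex : ∀ τ : Finset (Pt d), ∃ F, τ ∈ TV V v k →
      F ∈ FV V v ∧ τ ⊆ F ∧ ∀ y ∈ gens V F v, y ∉ τ → 0 < L.c F y := by
    intro τ
    by_cases hτ : τ ∈ TV V v k
    · have h := mem_TV.1 hτ
      obtain ⟨F, h1, h2, h3⟩ := L.exists_F hV hC h.1 h.2.1 h.2.2.1
      exact ⟨F, fun _ => ⟨h1, h2, h3⟩⟩
    · exact ⟨∅, fun h => absurd h hτ⟩
  choose Fm hFm using hex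
  rw [card_eq_sum_card_fiberwise (f := Fm) (t := FV V v) (fun τ hτ => (hFm τ hτ).1)]
  refine sum_congr rfl (fun F hF => ?_)
  have hF' := mem_FV.1 hF
  obtain ⟨hcube, -⟩ := isCube_of_card' hC hF'.1 hF'.2.1 hF'.2.2.2
  have hgc := card_gens hcube hF'.2.2.1
  have hcard1 : ((gens V F v) \ (L.nf F)).card = d - 1 - (L.nf F).card := by
    rw [card_sdiff_of_subset (L.nf_sub F), hgc]
  rw [← hcard1, ← card_powersetCard]
  -- membership in the fibre
  have hfib : ∀ τ, τ ∈ (TV V v k).filter (fun τ => Fm τ = F) ↔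
      τ ∈ TV V v k ∧ τ ⊆ F ∧ ∀ y ∈ gens V F v, y ∉ τ → 0 < L.c F y := by
    intro τ
    rw [mem_filter]
    constructor
    · rintro ⟨h1, rfl⟩; exact ⟨h1, (hFm τ h1).2⟩
    · rintro ⟨h1, h2, h3⟩
      obtain ⟨g1, g2, g3⟩ := hFm τ h1
      exact ⟨h1, L.unique_F hC g1 hF g2 h2 g3 h3⟩
  have hgτ : ∀ τ, τ ⊆ F → gens V τ v = (gens V F v).filter (fun y => y ∈ τ) := by
    intro τ hτ
    ext y
    rw [mem_filter, mem_gens, mem_gens]
    exact ⟨fun h => ⟨⟨hτ h.1, h.2⟩, h.1⟩, fun h => ⟨h.2, h.1.2⟩⟩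
  refine card_bij (fun τ _ => (gens V F v) \ (gens V τ v)) ?_ ?_ ?_
  · intro τ hτ
    obtain ⟨h1, h2, h3⟩ := (hfib τ).1 hτ
    have h1' := mem_TV.1 h1
    obtain ⟨hcτ, -⟩ := isCube_of_card' hC h1'.1 h1'.2.1 h1'.2.2.2
    rw [mem_powersetCard]
    refine ⟨fun y hy => ?_, ?_⟩
    · rw [mem_sdiff] at hy ⊢
      refine ⟨hy.1, fun hn => ?_⟩
      have hyτ : y ∉ τ := fun h => hy.2 (by rw [hgτ τ h2, mem_filter]; exact ⟨hy.1, h⟩)
      have h4 := h3 y hy.1 hyτ
      rw [Loc.nf, mem_filter] at hn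
      exact lt_asymm h4 hn.2
    · rw [card_sdiff_of_subset (gens_mono h2), hgc, card_gens hcτ h1'.2.2.1]
  · intro τ hτ τ' hτ' heq
    obtain ⟨h1, h2, -⟩ := (hfib τ).1 hτ
    obtain ⟨h1', h2', -⟩ := (hfib τ').1 hτ'
    have g1 := mem_TV.1 h1
    have g1' := mem_TV.1 h1'
    refine gens_inj hC g1.1 g1.2.1 g1'.1 g1'.2.1 g1.2.2.1 g1'.2.2.1 ?_
    have e1 : gens V F v \ (gens V F v \ gens V τ v) = gens V F v \ (gens V F v \ gens V τ' v) := by
      rw [heq]
    rwa [Finset.sdiff_sdiff_eq_self (gens_mono h2), Finset.sdiff_sdiff_eq_self (gens_mono h2')] at e1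
  · intro S hS
    rw [mem_powersetCard] at hS
    obtain ⟨hS1, hS2⟩ := hS
    have hSg : S ⊆ gens V F v := hS1.trans sdiff_subset
    obtain ⟨τ, hτ, hτF, hvτ, hgτ', hτcard⟩ := exists_sub hcube hF'.2.2.1
      (S := gens V F v \ S) sdiff_subset
    have hSc : (gens V F v \ S).card = k := by
      rw [card_sdiff_of_subset hSg, hgc, hS2]; omega
    have hτV : τ ≠ V := by
      intro h; apply hF'.2.1
      exact Finset.Subset.antisymm hF'.1.1 (by rw [← h]; exact hτF)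
    refine ⟨τ, ?_, ?_⟩
    · rw [hfib, mem_TV]
      refine ⟨⟨hτ, hτV, hvτ, by rw [hτcard, hSc]⟩, hτF, fun y hy hyτ => ?_⟩
      have hyS : y ∈ S := by
        by_contra hcon
        have : y ∈ gens V τ v := by rw [hgτ']; exact mem_sdiff.2 ⟨hy, hcon⟩
        exact hyτ (gens_sub this)
      have := (mem_sdiff.1 (hS1 hyS)).2
      rw [Loc.nf, mem_filter, not_and, not_lt] at this
      exact lt_of_le_of_ne (this hy) (L.hc F hF y hy).symm
    · rw [hgτ', Finset.sdiff_sdiff_eq_self hSg]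

/-- The same formula for the opposite direction. -/
theorem card_TV' (hV : IsPolytope V) (hC : Cubical V) {v w : Pt d} (L : Loc V v w) {k : ℕ}
    (hk : k ≤ d - 1) : (TV V v k).card =
      ∑ F ∈ FV V v, ((L.nf F).card).choose (d - 1 - k) := by
  classical
  rw [card_TV hV hC L.neg hk]
  refine sum_congr rfl (fun F hF => ?_)
  congr 1
  have hF' := mem_FV.1 hF
  obtain ⟨hcube, -⟩ := isCube_of_card' hC hF'.1 hF'.2.1 hF'.2.2.2
  have hgc := card_gens hcube hF'.2.2.1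
  have h1 : L.neg.nf F = (gens V F v).filter (fun y => ¬ L.c F y < 0) := by
    rw [Loc.nf]
    apply filter_congr
    intro y hy
    show - L.c F y < 0 ↔ _
    rw [not_lt, neg_lt_zero]
    exact ⟨le_of_lt, fun h => lt_of_le_of_ne h (L.hc F hF y hy).symm⟩
  have h2 := card_filter_add_card_filter_not (s := gens V F v) (fun y => L.c F y < 0)
  rw [hgc] at h2
  rw [h1]
  have h3 : (L.nf F).card = ((gens V F v).filter (fun y => L.c F y < 0)).card := rfl
  omega

lemma card_nf_le (hC : Cubical V) {v w : Pt d} (L : Loc V v w) {F : Finset (Pt d)}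
    (hF : F ∈ FV V v) : (L.nf F).card ≤ d - 1 := by
  have hF' := mem_FV.1 hF
  obtain ⟨hcube, -⟩ := isCube_of_card' hC hF'.1 hF'.2.1 hF'.2.2.2
  rw [← card_gens hcube hF'.2.2.1]
  exact card_le_card (L.nf_sub F)

end CubZ
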