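import Pool.Agent.W_f620_h46.Geo

/-! The first cohomology of the boundary complex of a cubical polytope of dimension at least
three vanishes: a function on the edges whose sum around every quadrilateral vanishes is the
coboundary of a function on the vertices. -/

namespace CubZ

open Finset

variable {d : ℕ} {V : Finset (Pt d)}

/-- dimension of a set of points in the span of two vectors based at `v`. -/
lemma fdim_le_two {G : Finset (Pt d)} {v r z : Pt d}
    (h : ∀ y ∈ G, y - v ∈ Submodule.span ℝ ({r, z} : Set (Pt d))) : fdim G ≤ 2 := by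
  classical
  have h1 : vectorSpan ℝ (G : Set (Pt d)) ≤ Submodule.span ℝ ({r, z} : Set (Pt d)) := by
    rw [vectorSpan_def, Submodule.span_le]
    rintro _ ⟨a, ha, b, hb, rfl⟩
    have : a -ᵥ b = (a - v) - (b - v) := by rw [vsub_eq_sub]; abel
    show a -ᵥ b ∈ _
    rw [this]
    exact Submodule.sub_mem _ (h a ha) (h b hb)
  have h2 : Module.finrank ℝ (Submodule.span ℝ ({r, z} : Set (Pt d))) ≤ 2 := by
    refine (finrank_span_le_card _).trans ?_
    rw [Set.toFinset_insert, Set.toFinset_singleton]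
    exact Finset.card_le_two
  exact (Submodule.finrank_mono h1).trans h2

/-- One step in the graph of the vertex figure. -/
lemma step (hd : 3 ≤ d) (hV : IsPolytope V) (hC : Cubical V) (D : Fig V)
    {l : Module.Dual ℝ (Pt d)}
    (hl : ∀ v ∈ V, ∀ u ∈ V, ∀ x ∈ V, ∀ y ∈ V, l (D.Y v u x) = l (D.Y v u y) →
      D.Y v u x = D.Y v u y) {v u : Pt d} (hv : v ∈ V) (hu : u ∈ V) (huv : u ≠ v)
    (hf : IsFace V {v, u}) (hex : ∃ y ∈ V, y ≠ v ∧ l (D.X v y) < l (D.X v u)) :
    ∃ w u', w ∈ V ∧ u' ∈ V ∧ w ≠ v ∧ u' ≠ v ∧ l (D.X v w) < l (D.X v u) ∧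
      l (D.X v u') < l (D.X v u) ∧ IsFace V {v, u'} ∧ IsFace V {u, w} ∧ IsFace V {w, u'} ∧
      IsFace V {v, u, w, u'} ∧ ({v, u, w, u'} : Finset (Pt d)).card = 4 ∧
      ({v, u, w, u'} : Finset (Pt d)) ≠ V := by
  classical
  obtain ⟨y₀, hy₀, hy₀v, hy₀l⟩ := hex
  have hy₀u : y₀ ≠ u := by rintro rfl; exact lt_irrefl _ hy₀l
  -- the minimum of the second figure
  obtain ⟨y, hy, hmin⟩ := Finset.exists_min_image ((V.erase v).erase u) (fun y => l (D.Y v u y))
    ⟨y₀, by simp [hy₀, hy₀v, hy₀u]⟩
  simp only [mem_erase] at hy hmin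
  obtain ⟨hyu, hyv, hyV⟩ := hy
  have hlz : l (D.Y v u y) < 0 := by
    refine (hmin y₀ ⟨hy₀u, hy₀v, hy₀⟩).trans_lt ?_
    have h1 := Fig.X_eq (D := D) hv hu huv hf hy₀ hy₀v hy₀u
    have h2 := Fig.t_pos (D := D) hv hu huv hf hy₀ hy₀v hy₀u
    have h3 := congrArg l h1
    rw [map_sub, map_smul, smul_eq_mul] at h3
    by_contra hcon
    have := mul_nonneg h2.le (not_lt.1 hcon)
    linarith
  set z := D.Y v u y with hz
  have hstrict : ∀ w ∈ V, w ≠ v → w ≠ u → D.Y v u w ≠ D.Y v u y →
      l (D.Y v u y) < l (D.Y v u w) := by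
    intro w hw hwv hwu hne
    refine lt_of_le_of_ne (hmin w ⟨hwu, hwv, hw⟩) (fun h => hne ?_)
    exact (hl v hv u hu w hw y hyV h.symm)
  have hG := Fig.face_of_min (D := D) hv hu huv hf hyV hyv hyu l hstrict
  set G := V.filter (fun w => w = v ∨ w = u ∨ D.Y v u w = D.Y v u y) with hGdef
  have hvG : v ∈ G := by simp [hGdef, hv]
  have huG : u ∈ G := by simp [hGdef, hu]
  have hyG : y ∈ G := by simp [hGdef, hyV]
  -- the points of `G` other than `v`, `u` are on the ray
  have hray : ∀ w ∈ G, w ≠ v → w ≠ u → ∃ t : ℝ, 0 < t ∧ D.X v w = D.X v u + t • z := by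
    intro w hw hwv hwu
    rw [hGdef, mem_filter] at hw
    obtain ⟨hwV, hw⟩ := hw
    have hw' : D.Y v u w = z := by tauto
    refine ⟨_, Fig.t_pos (D := D) hv hu huv hf hwV hwv hwu, ?_⟩
    rw [← hw', ← Fig.X_eq hv hu huv hf hwV hwv hwu]; abel
  have hrayl : ∀ w ∈ G, w ≠ v → w ≠ u → l (D.X v w) < l (D.X v u) := by
    intro w hw hwv hwu
    obtain ⟨t, ht, h⟩ := hray w hw hwv hwu
    rw [h, map_add, map_smul, smul_eq_mul]
    have := mul_neg_of_pos_of_neg ht hlz
    linarith
  have hGV : G ⊆ V := filter_subset _ _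
  have hdim : fdim G ≤ 2 := by
    refine fdim_le_two (v := v) (r := D.X v u) (z := z) (fun w hw => ?_)
    by_cases hwv : w = v
    · rw [hwv, sub_self]; exact Submodule.zero_mem _
    rw [Fig.sub_eq (D := D) hv (hGV hw) hwv]
    refine Submodule.smul_mem _ _ ?_
    by_cases hwu : w = u
    · rw [hwu]; exact Submodule.subset_span (by simp)
    · obtain ⟨t, -, h⟩ := hray w hw hwv hwu
      rw [h]
      exact Submodule.add_mem _ (Submodule.subset_span (by simp))
        (Submodule.smul_mem _ _ (Submodule.subset_span (by simp)))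
  have hGne : G ≠ V := by
    intro h
    have h1 : fdim V = d := by
      rw [fdim, hV.2, finrank_top, Module.finrank_fin_fun]
    rw [h, h1] at hdim
    omega
  obtain ⟨e, he, hF, hS⟩ := hC G hG hGne
  have hcard := card_cube he hF
  have h3 : 3 ≤ G.card := by
    have : ({v, u, y} : Finset (Pt d)) ⊆ G := by
      intro x hx; simp only [mem_insert, mem_singleton] at hx
      rcases hx with rfl | rfl | rfl <;> assumption
    refine le_trans ?_ (card_le_card this)
    rw [card_insert_of_notMem, card_insert_of_notMem, card_singleton]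
    · simp [hyu.symm]
    · simp [huv.symm, hyv.symm]
  have hk : fdim G = 2 := by
    interval_cases h : fdim G
    · omega
    · omega
    · rfl
  obtain ⟨a, ha⟩ := (hF v).1 hvG
  obtain ⟨b, hb⟩ := (hF u).1 huG
  have hab : a ≠ b := by rintro rfl; exact huv (hb.symm.trans ha)
  obtain ⟨i, hi⟩ := exists_flip he hF hS hab (by rw [ha, hb]; exact hf)
  -- the other index
  obtain ⟨j, hj⟩ : ∃ j : Fin (fdim G), j ≠ i := by
    have : Nontrivial (Fin (fdim G)) := by rw [hk]; infer_instance
    exact exists_ne i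
  set w := e (flip j b) with hw
  set u' := e (flip j a) with hu'
  have hbi : flip j b = flip j (flip i a) := by rw [hi]
  have hwG : w ∈ G := (hF _).2 ⟨_, rfl⟩
  have hu'G : u' ∈ G := (hF _).2 ⟨_, rfl⟩
  have hwv : w ≠ v := by
    rw [← ha, hw]; intro h
    have := congrFun (he h) j
    rw [flip_same, hi, flip_ne hj] at this
    cases h' : a j <;> simp [h'] at this
  have hwu : w ≠ u := by
    rw [← hb, hw]; intro h; exact flip_ne_self j b (he h)
  have hu'v : u' ≠ v := by
    rw [← ha, hu']; intro h; exact flip_ne_self j a (he h)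
  have hu'u : u' ≠ u := by
    rw [← hb, hu', hi]; intro h
    have := congrFun (he h) j
    rw [flip_same, flip_ne hj] at this
    cases h' : a j <;> simp [h'] at this
  have hwu' : w ≠ u' := by
    rw [hw, hu']; intro h
    have := congrArg (flip j) (he h)
    rw [flip_flip, flip_flip] at this
    exact hab this.symm
  have hc4 : ({v, u, w, u'} : Finset (Pt d)).card = 4 := by
    rw [card_insert_of_notMem, card_insert_of_notMem, card_insert_of_notMem, card_singleton]
    · simp [hwu']
    · simp [hwu.symm, hu'u.symm]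
    · simp [huv.symm, hwv.symm, hu'v.symm]
  refine ⟨w, u', hGV hwG, hGV hu'G, hwv, hu'v, hrayl w hwG hwv hwu, hrayl u' hu'G hu'v hu'u,
    ?_, ?_, ?_, ?_, hc4, ?_⟩
  · rw [← ha]; exact edge_face he hF hS j a
  · rw [← hb]; exact edge_face he hF hS j b
  · have := edge_face he hF hS i (flip j a)
    rw [flip_comm hj, ← hi] at this
    rw [Finset.pair_comm]; exact this
  · have := square_face he hF hS hj a
    rw [← hi, ha, hb] at this
    exact this
  · intro h
    have h1 : G = V := by
      apply Finset.Subset.antisymm hGV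
      rw [← h]
      intro x hx; simp only [mem_insert, mem_singleton] at hx
      rcases hx with rfl | rfl | rfl | rfl <;> assumption
    exact hGne h1

/-- The potential. -/
theorem exists_potential (hd : 3 ≤ d) (hV : IsPolytope V) (hC : Cubical V)
    (c : Pt d → Pt d → ZMod 2) (hsymm : ∀ x y, c x y = c y x)
    (hsq : ∀ v u w u', IsFace V {v, u} → IsFace V {u, w} → IsFace V {w, u'} → IsFace V {v, u'} →
      IsFace V {v, u, w, u'} → ({v, u, w, u'} : Finset (Pt d)).card = 4 →
      ({v, u, w, u'} : Finset (Pt d)) ≠ V → c v u + c u w + c w u' + c v u' = 0) :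
    ∃ g : Pt d → ZMod 2, ∀ x y, x ≠ y → IsFace V {x, y} → c x y = g x + g y := by
  classical
  obtain ⟨D⟩ := exists_fig hV.1
  obtain ⟨l, hl1, hl2, hl3⟩ := exists_generic D
  have two : ∀ t : ZMod 2, t + t = 0 := by decide
  suffices h : (∀ x ∈ V, ∀ y ∈ V, l y < l x → y ∈ V) → V ⊆ V →
      ∃ g : Pt d → ZMod 2, ∀ x y, x ≠ y → x ∈ V → y ∈ V → IsFace V {x, y} → c x y = g x + g y by
    obtain ⟨g, hg⟩ := h (fun _ _ y hy _ => hy) (Subset.refl _)
    refine ⟨g, fun x y hxy hf => hg x y hxy (hf.1 (by simp)) (hf.1 (by simp)) hf⟩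
  refine Finset.induction_on_max_value (fun x => l x) (motive := fun S =>
    (∀ x ∈ S, ∀ y ∈ V, l y < l x → y ∈ S) → S ⊆ V →
      ∃ g : Pt d → ZMod 2, ∀ x y, x ≠ y → x ∈ S → y ∈ S → IsFace V {x, y} → c x y = g x + g y)
    V ?_ ?_
  · intro _ _; exact ⟨0, fun x y _ hx => absurd hx (notMem_empty _)⟩
  intro v S hvS hmax ih hlow hSV
  have hvV : v ∈ V := hSV (mem_insert_self _ _)
  have hSV' : S ⊆ V := fun x hx => hSV (mem_insert_of_mem hx)
  have hltS : ∀ x ∈ S, l x < l v := fun x hx =>
    lt_of_le_of_ne (hmax x hx) (fun h => hvS (hl1 x (hSV' hx) v hvV h ▸ hx))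
  have hlow' : ∀ x ∈ S, ∀ y ∈ V, l y < l x → y ∈ S := by
    intro x hx y hy hyx
    rcases mem_insert.1 (hlow x (mem_insert_of_mem hx) y hy hyx) with h | h
    · subst h; exact absurd (hyx.trans (hltS x hx)) (lt_irrefl _)
    · exact h
  have hmemS : ∀ y ∈ V, l y < l v → y ∈ S := by
    intro y hy hyv
    rcases mem_insert.1 (hlow v (mem_insert_self _ _) y hy hyv) with h | h
    · subst h; exact absurd hyv (lt_irrefl _)
    · exact h
  obtain ⟨g, hg⟩ := ih hlow' hSV'
  by_cases hS0 : S = ∅
  · subst hS0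
    refine ⟨g, fun x y hxy hx hy => ?_⟩
    simp only [insert_empty_eq, mem_singleton] at hx hy
    exact absurd (hx.trans hy.symm) hxy
  have hSne : S.Nonempty := nonempty_iff_ne_empty.2 hS0
  -- the sign of `l` on the figure
  have hsign : ∀ y ∈ V, y ≠ v → (l (D.X v y) < 0 ↔ l y < l v) := by
    intro y hy hyv
    have h1 := Fig.s_pos (D := D) hvV hy hyv
    have h2 := congrArg l (Fig.sub_eq (D := D) hvV hy hyv)
    rw [map_sub, map_smul, smul_eq_mul] at h2
    constructor
    · intro h; have := mul_neg_of_pos_of_neg h1 h; linarith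
    · intro h
      by_contra hcon
      have := mul_nonneg h1.le (not_lt.1 hcon); linarith
  obtain ⟨x₀, hx₀⟩ := hSne
  have hx₀v : x₀ ≠ v := fun h => hvS (h ▸ hx₀)
  obtain ⟨u₀, hu₀, hu₀min⟩ := Finset.exists_min_image (V.erase v) (fun y => l (D.X v y))
    ⟨x₀, by simp [hx₀v, hSV' hx₀]⟩
  simp only [mem_erase] at hu₀ hu₀min
  obtain ⟨hu₀v, hu₀V⟩ := hu₀
  have hedge0 : IsFace V {v, u₀} := by
    refine Fig.edge_of_max (D := D) hvV hu₀V hu₀v (-l) ?_
    intro y hy hyv hyu
    simp only [LinearMap.neg_apply, neg_lt_neg_iff]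
    refine lt_of_le_of_ne (hu₀min y ⟨hyv, hy⟩) (fun h => hyu ?_)
    exact (Fig.X_inj (D := D) hvV hu₀V hu₀v hy hyv (hl2 v hvV u₀ hu₀V y hy h)).symm
  -- all lower neighbours agree
  have hagree : ∀ n : ℕ, ∀ u ∈ V, u ≠ v → IsFace V {v, u} → l (D.X v u) < 0 →
      (V.filter (fun y => y ≠ v ∧ l (D.X v y) < l (D.X v u))).card = n →
      c v u + g u = c v u₀ + g u₀ := by
    intro n
    induction n using Nat.strong_induction_on with
    | _ n ihn =>
      intro u hu huv hf hneg hn
      by_cases hex : ∃ y ∈ V, y ≠ v ∧ l (D.X v y) < l (D.X v u)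
      · obtain ⟨w, u', hw, hu', hwv, hu'v, hwl, hu'l, f1, f2, f3, f4, h4, hne⟩ :=
          step hd hV hC D hl3 hvV hu huv hf hex
        have hlt : (V.filter (fun y => y ≠ v ∧ l (D.X v y) < l (D.X v u'))).card < n := by
          rw [← hn]
          refine card_lt_card ⟨fun y hy => ?_, fun h => ?_⟩
          · simp only [mem_filter] at hy ⊢
            exact ⟨hy.1, hy.2.1, hy.2.2.trans hu'l⟩
          · have : u' ∈ V.filter (fun y => y ≠ v ∧ l (D.X v y) < l (D.X v u)) := by
              simp [hu', hu'v, hu'l]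
            have := h this
            simp at this
        have e1 := ihn _ hlt u' hu' hu'v f1 (hu'l.trans hneg) rfl
        have hu'S : u' ∈ S := hmemS u' hu' ((hsign u' hu' hu'v).1 (hu'l.trans hneg))
        have hwS : w ∈ S := hmemS w hw ((hsign w hw hwv).1 (hwl.trans hneg))
        have huS : u ∈ S := hmemS u hu ((hsign u hu huv).1 hneg)
        have huw : u ≠ w := by rintro rfl; exact lt_irrefl _ hwl
        have hwu' : w ≠ u' := by
          rintro rfl
          have : ({v, u, w, w} : Finset (Pt d)).card ≤ 3 := by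
            rw [show ({v, u, w, w} : Finset (Pt d)) = {v, u, w} by ext x; simp]
            exact card_le_three
          omega
        have e2 := hg u w huw huS hwS f2
        have e3 := hg w u' hwu' hwS hu'S f3
        have e4 := hsq v u w u' hf f2 f3 f1 f4 h4 hne
        rw [e2, e3] at e4
        rw [← e1]
        have h1 := two (g u)
        have h2 := two (g w)
        have h3 := two (g u')
        have h4 := two (c v u')
        linear_combination e4 - h2 - h3 - h4
      · push Not at hex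
        have h1 : l (D.X v u) = l (D.X v u₀) :=
          le_antisymm (hex u₀ hu₀V hu₀v) (hu₀min u ⟨huv, hu⟩)
        have h2 : u = u₀ := Fig.X_inj (D := D) hvV hu huv hu₀V hu₀v (hl2 v hvV u hu u₀ hu₀V h1)
        rw [h2]
  refine ⟨Function.update g v (c v u₀ + g u₀), ?_⟩
  have hvedge : ∀ u ∈ S, IsFace V {v, u} → c v u = (c v u₀ + g u₀) + g u := by
    intro u hu hf
    have huv : u ≠ v := fun h => hvS (h ▸ hu)
    have := hagree _ u (hSV' hu) huv hf ((hsign u (hSV' hu) huv).2 (hltS u hu)) rfl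
    rw [← this]
    linear_combination - two (g u)
  intro x y hxy hx hy hf
  have hnev : ∀ t ∈ S, t ≠ v := fun t ht h => hvS (by rw [← h]; exact ht)
  rcases mem_insert.1 hx with hxv | hxS
  · rcases mem_insert.1 hy with hyv | hyS
    · exact absurd (hxv.trans hyv.symm) hxy
    · rw [hxv] at hf ⊢
      rw [Function.update_self, Function.update_of_ne (hnev y hyS)]
      exact hvedge y hyS hf
  · rcases mem_insert.1 hy with hyv | hyS
    · rw [hyv] at hf ⊢
      rw [Function.update_self, Function.update_of_ne (hnev x hxS), hsymm]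
      rw [Finset.pair_comm] at hf
      rw [hvedge x hxS hf]; ring
    · rw [Function.update_of_ne (hnev x hxS), Function.update_of_ne (hnev y hyS)]
      exact hg x y hxy hxS hyS hf

end CubZ
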