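import Pool.Agent.W_f620_h46.Pot

/-! Zones of edges are cuts; parallel edges of a face lie in one zone. -/

namespace CubZ

open Finset

variable {d : ℕ} {V : Finset (Pt d)}

/-- Every zone is a cut. -/
theorem zone_cut (hd : 3 ≤ d) (hV : IsPolytope V) (hC : Cubical V) (e₀ : Finset (Pt d)) :
    ∃ g : Pt d → Bool, ∀ x y, x ≠ y → IsFace V {x, y} →
      (SameZone V e₀ {x, y} ↔ g x ≠ g y) := by
  classical
  have hsq : ∀ v u w u', IsFace V {v, u} → IsFace V {u, w} → IsFace V {w, u'} →
      IsFace V {v, u'} → IsFace V {v, u, w, u'} → ({v, u, w, u'} : Finset (Pt d)).card = 4 →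
      ({v, u, w, u'} : Finset (Pt d)) ≠ V →
      (if SameZone V e₀ {v, u} then (1 : ZMod 2) else 0) +
      (if SameZone V e₀ {u, w} then (1 : ZMod 2) else 0) +
      (if SameZone V e₀ {w, u'} then (1 : ZMod 2) else 0) +
      (if SameZone V e₀ {v, u'} then (1 : ZMod 2) else 0) = 0 := by
    intro v u w u' f1 f2 f3 f4 f5 h4 hne
    have hvu : v ≠ u := by
      rintro rfl
      have : ({v, v, w, u'} : Finset (Pt d)).card ≤ 3 := by
        rw [show ({v, v, w, u'} : Finset (Pt d)) = {v, w, u'} by ext x; simp]
        exact card_le_three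
      omega
    have huw : u ≠ w := by
      rintro rfl
      have : ({v, u, u, u'} : Finset (Pt d)).card ≤ 3 := by
        rw [show ({v, u, u, u'} : Finset (Pt d)) = {v, u, u'} by ext x; simp]
        exact card_le_three
      omega
    have hwu' : w ≠ u' := by
      rintro rfl
      have : ({v, u, w, w} : Finset (Pt d)).card ≤ 3 := by
        rw [show ({v, u, w, w} : Finset (Pt d)) = {v, u, w} by ext x; simp]
        exact card_le_three
      omega
    have hvu' : v ≠ u' := by
      rintro rfl
      have : ({v, u, w, v} : Finset (Pt d)).card ≤ 3 := by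
        rw [show ({v, u, w, v} : Finset (Pt d)) = {u, w, v} by ext x; simp <;> tauto]
        exact card_le_three
      omega
    have o1 : Opp V {v, u} {w, u'} := by
      have hun : ({v, u} ∪ {w, u'} : Finset (Pt d)) = {v, u, w, u'} := by
        ext x; simp <;> tauto
      exact ⟨⟨f1, card_pair hvu⟩, ⟨f3, card_pair hwu'⟩, by rw [hun]; exact h4,
        by rw [hun]; exact f5, by rw [hun]; exact hne⟩
    have o2 : Opp V {u, w} {v, u'} := by
      have hun : ({u, w} ∪ {v, u'} : Finset (Pt d)) = {v, u, w, u'} := by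
        ext x; simp <;> tauto
      exact ⟨⟨f2, card_pair huw⟩, ⟨f4, card_pair hvu'⟩, by rw [hun]; exact h4,
        by rw [hun]; exact f5, by rw [hun]; exact hne⟩
    have s1 : SameZone V e₀ {v, u} ↔ SameZone V e₀ {w, u'} :=
      ⟨fun h => h.trans _ _ _ (Relation.EqvGen.rel _ _ o1),
        fun h => h.trans _ _ _ (Relation.EqvGen.rel _ _ o1).symm⟩
    have s2 : SameZone V e₀ {u, w} ↔ SameZone V e₀ {v, u'} :=
      ⟨fun h => h.trans _ _ _ (Relation.EqvGen.rel _ _ o2),
        fun h => h.trans _ _ _ (Relation.EqvGen.rel _ _ o2).symm⟩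
    simp only [s1, s2]
    have two : ∀ s t : ZMod 2, s + t + s + t = 0 := by decide
    exact two _ _
  obtain ⟨g, hg⟩ := exists_potential hd hV hC
    (fun x y => if SameZone V e₀ {x, y} then (1 : ZMod 2) else 0)
    (fun x y => by simp only [Finset.pair_comm x y]) hsq
  refine ⟨fun x => decide (g x = 0), fun x y hxy hf => ?_⟩
  have h := hg x y hxy hf
  have aux : ∀ s t : ZMod 2, (s + t = 1 ↔ decide (s = 0) ≠ decide (t = 0)) ∧
    (s + t = 0 ↔ decide (s = 0) = decide (t = 0)) := by decide
  by_cases hz : SameZone V e₀ {x, y}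
  · simp only [if_pos hz] at h
    exact ⟨fun _ => (aux _ _).1.1 h.symm, fun _ => hz⟩
  · simp only [if_neg hz] at h
    exact ⟨fun h' => absurd h' hz, fun h' => absurd ((aux _ _).2.1 h.symm) h'⟩

section inFace

variable {F : Finset (Pt d)} {k : ℕ} {e : (Fin k → Bool) → Pt d}
  (he : Function.Injective e) (hF : ∀ x, x ∈ F ↔ ∃ a, e a = x)
  (hS : ∀ S ⊆ F, S.Nonempty → (IsFace V S ↔
      ∃ c : Fin k → Option Bool, ∀ a, e a ∈ S ↔ ∀ i, ∀ b ∈ c i, a i = b))
  (hFV : F ⊆ V) (hne : F ≠ V)
include he hF hS hFV hne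

/-- Parallel edges of a proper face are in the same zone. -/
lemma opp_square {i j : Fin k} (hij : j ≠ i) (a : Fin k → Bool) :
    Opp V {e a, e (flip i a)} {e (flip j a), e (flip i (flip j a))} := by
  have hsq := square_face he hF hS hij a
  have hcomm := flip_comm hij a
  have hun : ({e a, e (flip i a)} ∪ {e (flip j a), e (flip i (flip j a))} : Finset (Pt d)) =
      {e a, e (flip i a), e (flip j (flip i a)), e (flip j a)} := by
    rw [hcomm]; ext x; simp <;> tauto
  have h1 : e a ≠ e (flip i a) := fun h => flip_ne_self i a (he h).symm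
  have h2 : e (flip j a) ≠ e (flip i (flip j a)) := fun h => flip_ne_self i _ (he h).symm
  have h3 : e a ≠ e (flip j a) := fun h => flip_ne_self j a (he h).symm
  have h4 : e a ≠ e (flip j (flip i a)) := by
    intro h
    have := congrFun (he h) i
    rw [flip_ne hij.symm, flip_same] at this
    cases h' : a i <;> simp [h'] at this
  have h5 : e (flip i a) ≠ e (flip j a) := by
    intro h
    have := congrFun (he h) i
    rw [flip_ne hij.symm, flip_same] at this
    cases h' : a i <;> simp [h'] at this
  have h6 : e (flip i a) ≠ e (flip j (flip i a)) := fun h => flip_ne_self j _ (he h).symm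
  refine ⟨⟨edge_face he hF hS i a, card_pair h1⟩, ⟨edge_face he hF hS i _, card_pair h2⟩,
    ?_, ?_, ?_⟩
  · rw [hun, card_insert_of_notMem, card_insert_of_notMem, card_insert_of_notMem, card_singleton]
    · rw [← hcomm]; simp [h2.symm]
    · simp [h6, h5]
    · simp [h1, h4, h3]
  · rw [hun]; exact hsq
  · intro h
    apply hne
    apply Finset.Subset.antisymm hFV
    rw [← h]
    intro x hx
    simp only [mem_union, mem_insert, mem_singleton] at hx
    rcases hx with (rfl | rfl) | (rfl | rfl) <;> exact (hF _).2 ⟨_, rfl⟩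

lemma zone_dir (e₀ : Finset (Pt d)) (i : Fin k) (a b : Fin k → Bool) :
    SameZone V e₀ {e a, e (flip i a)} ↔ SameZone V e₀ {e b, e (flip i b)} := by
  have := const_of_flip (fun a => SameZone V e₀ {e a, e (flip i a)}) ?_ a b
  · exact this ▸ Iff.rfl
  · intro j c
    apply propext
    by_cases hj : j = i
    · subst hj
      show SameZone V e₀ {e (flip j c), e (flip j (flip j c))} ↔ _
      rw [flip_flip, Finset.pair_comm]
    · have o := opp_square he hF hS hFV hne hj c
      show SameZone V e₀ {e (flip j c), e (flip i (flip j c))} ↔ _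
      exact ⟨fun h => h.trans _ _ _ (Relation.EqvGen.rel _ _ o).symm,
        fun h => h.trans _ _ _ (Relation.EqvGen.rel _ _ o)⟩

end inFace

end CubZ
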